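import Pool.Agent.X38.TTNeg

/-!
# The counterexample over an uncountable signature
-/

set_option autoImplicit false

namespace Pool.Agent.X38.TT

open Cardinal Ordinal

universe v w

/-! ## The two systems -/

/-- The symbols of the uncountable signature. -/
inductive Sym1 : Type
  | d (i : M1)
  | b
  | a (n : ℕ)
  | h (i : M1)
  | y (n : ℕ) (i : M1)
  | z (i : M1) (n : ℕ)
  | g

/-- The uncountable signature. -/
@[reducible] def Sig1 : Sig.{0} where
  Sym := Sym1
  ar f := match f with
    | .d _ => 0
    | .g => 3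
    | _ => 1

/-- The symbols of the countable signature. -/
inductive Sym2 : Type
  | c (n : ℕ)
  | u (n : ℕ)
  | g

/-- The countable signature. -/
@[reducible] def Sig2 : Sig.{0} where
  Sym := Sym2
  ar f := match f with
    | .c _ => 0
    | .u _ => 1
    | .g => 2

namespace Sig1

/-- constants -/
def d (i : M1) : Term Sig1 ℕ := .app (S := Sig1) (.d i) ![]
/-- the symbol `b` -/
def b (t : Term Sig1 ℕ) : Term Sig1 ℕ := .app (S := Sig1) .b ![t]
/-- the symbols `a n` -/
def a (n : ℕ) (t : Term Sig1 ℕ) : Term Sig1 ℕ := .app (S := Sig1) (.a n) ![t]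
/-- the symbols `h i` -/
def h (i : M1) (t : Term Sig1 ℕ) : Term Sig1 ℕ := .app (S := Sig1) (.h i) ![t]
/-- the symbols `y n i` -/
def y (n : ℕ) (i : M1) (t : Term Sig1 ℕ) : Term Sig1 ℕ := .app (S := Sig1) (.y n i) ![t]
/-- the symbols `z i n` -/
def z (i : M1) (n : ℕ) (t : Term Sig1 ℕ) : Term Sig1 ℕ := .app (S := Sig1) (.z i n) ![t]
/-- the symbol `g` -/
def g (s t r : Term Sig1 ℕ) : Term Sig1 ℕ := .app (S := Sig1) .g ![s, t, r]
/-- the variable -/
def x : Term Sig1 ℕ := .var 0

end Sig1

namespace Sig2

/-- constants -/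
def c (n : ℕ) : Term Sig2 ℕ := .app (S := Sig2) (.c n) ![]
/-- the symbols `u n` -/
def u (n : ℕ) (t : Term Sig2 ℕ) : Term Sig2 ℕ := .app (S := Sig2) (.u n) ![t]
/-- the symbol `g` -/
def g (s t : Term Sig2 ℕ) : Term Sig2 ℕ := .app (S := Sig2) .g ![s, t]
/-- the variable -/
def x : Term Sig2 ℕ := .var 0

end Sig2

/-- The first system. -/
def R1 : TRS Sig1 where
  rules := {p | (∃ (n : ℕ) (i j : M1), i < j ∧
      p = (Sig1.g (Sig1.y n i Sig1.x) (Sig1.h i Sig1.x) (Sig1.h j Sig1.x),
        Sig1.g (Sig1.y n j Sig1.x) (Sig1.a n Sig1.x) (Sig1.a n Sig1.x))) ∨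
    ∃ (i : M1) (n : ℕ),
      p = (Sig1.g (Sig1.z i n Sig1.x) (Sig1.a n Sig1.x) (Sig1.b (Sig1.d i)),
        Sig1.g (Sig1.z i (n + 1) Sig1.x) (Sig1.h i Sig1.x) (Sig1.b Sig1.x))}
  lhs_not_var := by
    rintro p (⟨n, i, j, hij, rfl⟩ | ⟨i, n, rfl⟩) x h
    · simp [Sig1.g] at h
    · simp [Sig1.g] at h
  var_subset := by
    rintro p (⟨n, i, j, hij, rfl⟩ | ⟨i, n, rfl⟩) x h
    · simpa [Sig1.g, Sig1.y, Sig1.h, Sig1.a, Sig1.x, Term.occ, Fin.sum_univ_succ] using h
    · simpa [Sig1.g, Sig1.z, Sig1.h, Sig1.a, Sig1.x, Sig1.b, Sig1.d, Term.occ,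
        Fin.sum_univ_succ] using h

/-- The second system. -/
def R2 : TRS Sig2 where
  rules := {p | ∃ n : ℕ, p = (Sig2.g (Sig2.u n Sig2.x) (Sig2.c n),
    Sig2.g (Sig2.u (n + 1) Sig2.x) Sig2.x)}
  lhs_not_var := by
    rintro p ⟨n, rfl⟩ x h
    simp [Sig2.g] at h
  var_subset := by
    rintro p ⟨n, rfl⟩ x h
    simpa [Sig2.g, Sig2.u, Sig2.c, Sig2.x, Term.occ, Fin.sum_univ_succ] using h

theorem R1_dup : R1.Duplicating := by
  have i : M1 := Classical.choice (inferInstance : Nonempty M1)
  refine ⟨_, Or.inr ⟨i, 0, rfl⟩, 0, ?_⟩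
  simp [Sig1.g, Sig1.z, Sig1.h, Sig1.a, Sig1.x, Sig1.b, Sig1.d, Term.occ, Fin.sum_univ_succ]

theorem R2_dup : R2.Duplicating := by
  refine ⟨_, ⟨0, rfl⟩, 0, ?_⟩
  simp [Sig2.g, Sig2.u, Sig2.c, Sig2.x, Term.occ, Fin.sum_univ_succ]

/-! ## Evaluation -/

section Eval

variable {A : Type v} {lt : A → A → Prop}

theorem vec1 {α : Type v} {β : Type w} (f : α → β) (s : α) :
    (fun i : Fin 1 => f (![s] i)) = ![f s] := by
  funext i; fin_cases i; rfl
theorem vec2 {α : Type v} {β : Type w} (f : α → β) (s t : α) :
    (fun i : Fin 2 => f (![s, t] i)) = ![f s, f t] := by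
  funext i; fin_cases i <;> rfl
theorem vec3 {α : Type v} {β : Type w} (f : α → β) (s t r : α) :
    (fun i : Fin 3 => f (![s, t, r] i)) = ![f s, f t, f r] := by
  funext i; fin_cases i <;> rfl

variable (M : Alg Sig1 lt) (N : Alg Sig2 lt) (v : ℕ → A)

theorem ev_d (i : M1) : M.eval v (Sig1.d i) = M.op (.d i) ![] := by
  change M.op (.d i) _ = _
  congr 1
  funext j; exact j.elim0
theorem ev_b (t) : M.eval v (Sig1.b t) = M.op .b ![M.eval v t] :=
  congrArg (M.op .b) (vec1 (M.eval v) t)
theorem ev_a (n t) : M.eval v (Sig1.a n t) = M.op (.a n) ![M.eval v t] :=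
  congrArg (M.op (.a n)) (vec1 (M.eval v) t)
theorem ev_h (i t) : M.eval v (Sig1.h i t) = M.op (.h i) ![M.eval v t] :=
  congrArg (M.op (.h i)) (vec1 (M.eval v) t)
theorem ev_y (n i t) : M.eval v (Sig1.y n i t) = M.op (.y n i) ![M.eval v t] :=
  congrArg (M.op (.y n i)) (vec1 (M.eval v) t)
theorem ev_z (i n t) : M.eval v (Sig1.z i n t) = M.op (.z i n) ![M.eval v t] :=
  congrArg (M.op (.z i n)) (vec1 (M.eval v) t)
theorem ev_g (s t r) : M.eval v (Sig1.g s t r) = M.op .g ![M.eval v s, M.eval v t, M.eval v r] :=
  congrArg (M.op .g) (vec3 (M.eval v) s t r)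
theorem ev_x : M.eval v Sig1.x = v 0 := rfl

theorem ev2_c (n : ℕ) : N.eval v (Sig2.c n) = N.op (.c n) ![] := by
  change N.op (.c n) _ = _
  congr 1
  funext j; exact j.elim0
theorem ev2_u (n t) : N.eval v (Sig2.u n t) = N.op (.u n) ![N.eval v t] :=
  congrArg (N.op (.u n)) (vec1 (N.eval v) t)
theorem ev2_g (s t) : N.eval v (Sig2.g s t) = N.op .g ![N.eval v s, N.eval v t] :=
  congrArg (N.op .g) (vec2 (N.eval v) s t)
theorem ev2_x : N.eval v Sig2.x = v 0 := rfl

end Eval

/-! ## No common model -/

theorem no_common {A : Type v} {lt : A → A → Prop} [wo : IsWellOrder A lt] (M : Alg Sig1 lt)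
    (N : Alg Sig2 lt) (hM : M.Compat R1) (hN : N.Compat R2) : False := by
  classical
  let _ : LinearOrder A := linearOrderOfSTO lt
  have : WellFoundedLT A := ⟨wo.wf⟩
  -- monotonicity
  have g1 : ∀ s s' t r, s < s' → M.op .g ![s, t, r] < M.op .g ![s', t, r] := by
    intro s s' t r hs
    have h := M.mono .g ![s, t, r] (0 : Fin 3) s s' hs
    have e1 : Function.update ![s, t, r] (0 : Fin 3) s = ![s, t, r] := by
      funext i; fin_cases i <;> rfl
    have e2 : Function.update ![s, t, r] (0 : Fin 3) s' = ![s', t, r] := by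
      funext i; fin_cases i <;> rfl
    rw [e1, e2] at h
    exact h
  have g2 : ∀ s t t' r, t < t' → M.op .g ![s, t, r] < M.op .g ![s, t', r] := by
    intro s t t' r hs
    have h := M.mono .g ![s, t, r] (1 : Fin 3) t t' hs
    have e1 : Function.update ![s, t, r] (1 : Fin 3) t = ![s, t, r] := by
      funext i; fin_cases i <;> rfl
    have e2 : Function.update ![s, t, r] (1 : Fin 3) t' = ![s, t', r] := by
      funext i; fin_cases i <;> rfl
    rw [e1, e2] at h
    exact h
  have g3 : ∀ s t r r', r < r' → M.op .g ![s, t, r] < M.op .g ![s, t, r'] := by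
    intro s t r r' hs
    have h := M.mono .g ![s, t, r] (2 : Fin 3) r r' hs
    have e1 : Function.update ![s, t, r] (2 : Fin 3) r = ![s, t, r] := by
      funext i; fin_cases i <;> rfl
    have e2 : Function.update ![s, t, r] (2 : Fin 3) r' = ![s, t, r'] := by
      funext i; fin_cases i <;> rfl
    rw [e1, e2] at h
    exact h
  have gm : ∀ s s' t t' r r', s ≤ s' → t ≤ t' → r ≤ r' →
      M.op .g ![s, t, r] ≤ M.op .g ![s', t', r'] := by
    intro s s' t t' r r' hs ht hr
    calc M.op .g ![s, t, r] ≤ M.op .g ![s', t, r] := by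
          rcases hs.lt_or_eq with h | h
          · exact (g1 _ _ _ _ h).le
          · rw [h]
      _ ≤ M.op .g ![s', t', r] := by
          rcases ht.lt_or_eq with h | h
          · exact (g2 _ _ _ _ h).le
          · rw [h]
      _ ≤ M.op .g ![s', t', r'] := by
          rcases hr.lt_or_eq with h | h
          · exact (g3 _ _ _ _ h).le
          · rw [h]
  have bm : Monotone (fun x => M.op .b ![x]) := by
    apply StrictMono.monotone
    intro s s' hs
    have h := M.mono .b ![s] (0 : Fin 1) s s' hs
    have e1 : Function.update ![s] (0 : Fin 1) s = ![s] := by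
      funext i; fin_cases i; rfl
    have e2 : Function.update ![s] (0 : Fin 1) s' = ![s'] := by
      funext i; fin_cases i; rfl
    rw [e1, e2] at h
    exact h
  have n1 : ∀ s s' t, s < s' → N.op .g ![s, t] < N.op .g ![s', t] := by
    intro s s' t hs
    have h := N.mono .g ![s, t] (0 : Fin 2) s s' hs
    have e1 : Function.update ![s, t] (0 : Fin 2) s = ![s, t] := by
      funext i; fin_cases i <;> rfl
    have e2 : Function.update ![s, t] (0 : Fin 2) s' = ![s', t] := by
      funext i; fin_cases i <;> rfl
    rw [e1, e2] at h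
    exact h
  have n2 : ∀ s t t', t < t' → N.op .g ![s, t] < N.op .g ![s, t'] := by
    intro s t t' hs
    have h := N.mono .g ![s, t] (1 : Fin 2) t t' hs
    have e1 : Function.update ![s, t] (1 : Fin 2) t = ![s, t] := by
      funext i; fin_cases i <;> rfl
    have e2 : Function.update ![s, t] (1 : Fin 2) t' = ![s, t'] := by
      funext i; fin_cases i <;> rfl
    rw [e1, e2] at h
    exact h
  have nm : ∀ s s' t t', s ≤ s' → t ≤ t' → N.op .g ![s, t] ≤ N.op .g ![s', t'] := by
    intro s s' t t' hs ht
    calc N.op .g ![s, t] ≤ N.op .g ![s', t] := by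
          rcases hs.lt_or_eq with h | h
          · exact (n1 _ _ _ h).le
          · rw [h]
      _ ≤ N.op .g ![s', t'] := by
          rcases ht.lt_or_eq with h | h
          · exact (n2 _ _ _ h).le
          · rw [h]
  have hcount := countable_below (T := A) (I := M1) (fun i => M.op (.d i) ![])
    (fun x => M.op .b ![x]) (fun s t r => M.op .g ![s, t, r]) (fun n x => M.op (.a n) ![x])
    (fun i x => M.op (.h i) ![x]) (fun n i x => M.op (.y n i) ![x])
    (fun i n x => M.op (.z i n) ![x]) gm bm
    (by
      intro n i j x hij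
      have h := hM _ (Or.inl ⟨n, i, j, hij, rfl⟩) (fun _ => x)
      simp only [ev_g, ev_y, ev_a, ev_h, ev_x] at h
      exact h)
    (by
      intro i n x
      have h := hM _ (Or.inr ⟨i, n, rfl⟩) (fun _ => x)
      simp only [ev_g, ev_z, ev_a, ev_h, ev_b, ev_d, ev_x] at h
      exact h)
  have habove := exists_above (T := A) (fun n => N.op (.c n) ![]) (fun n x => N.op (.u n) ![x])
    (fun s t => N.op .g ![s, t]) nm
    (by
      intro n x
      have h := hN _ ⟨n, rfl⟩ (fun _ => x)
      simp only [ev2_g, ev2_u, ev2_c, ev2_x] at h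
      exact h)
  have hall : (Set.univ : Set M1) ⊆
      ⋃ n : ℕ, {i | M.op (.d i) ![] ≤ N.op (.c n) ![]} := by
    intro i _
    rw [Set.mem_iUnion]
    obtain ⟨n, hn⟩ := habove (M.op (.d i) ![])
    exact ⟨n, hn.le⟩
  exact Set.not_countable_univ
    ((Set.countable_iUnion (fun n => hcount (N.op (.c n) ![]))).mono hall)

/-! ## The models -/

theorem R2_tt : R2.TotallyTerminating := by
  let N : Alg Sig2 (fun a b : ℕ => a < b) :=
    { op := fun f => match f with
        | .c n => fun _ => n
        | .u n => fun x => x 0 + (x 0 + 1 - n) * (x 0 + 1)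
        | .g => fun x => x 0 + x 1
      mono := by
        intro f x i a b hab
        match f with
        | .c n => exact i.elim0
        | .u n =>
          obtain rfl : i = (0 : Fin 1) := Subsingleton.elim _ _
          have e : ∀ c : ℕ, Function.update x (0 : Fin 1) c (0 : Fin 1) = c := fun c =>
            Function.update_self _ _ _
          change Function.update x (0 : Fin 1) a 0 + _ < Function.update x (0 : Fin 1) b 0 + _
          simp only [e]
          have h1 : a + 1 - n ≤ b + 1 - n := by omega
          have h2 : (a + 1 - n) * (a + 1) ≤ (b + 1 - n) * (b + 1) :=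
            Nat.mul_le_mul h1 (by omega)
          omega
        | .g =>
          change Function.update x i a (0 : Fin 2) + Function.update x i a (1 : Fin 2)
            < Function.update x i b (0 : Fin 2) + Function.update x i b (1 : Fin 2)
          fin_cases i
          · simp [Function.update_apply]
            exact hab
          · simp [Function.update_apply]
            exact hab }
  apply N.totallyTerminating
  rintro p ⟨n, rfl⟩ v
  simp only [ev2_g, ev2_u, ev2_c, ev2_x]
  change (v 0 + (v 0 + 1 - (n + 1)) * (v 0 + 1)) + v 0 < (v 0 + (v 0 + 1 - n) * (v 0 + 1)) + n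
  generalize v 0 = x
  rcases Nat.lt_or_ge x n with h | h
  · have h1 : x + 1 - (n + 1) = 0 := by omega
    have h2 : x + 1 - n = 0 := by omega
    rw [h1, h2]
    omega
  · have h1 : x + 1 - n = (x + 1 - (n + 1)) + 1 := by omega
    rw [h1, Nat.succ_mul]
    omega

theorem R1_tt : R1.TotallyTerminating := by
  obtain ⟨D⟩ := exists_data
  let M : Alg Sig1 (fun a b : M1 => a < b) :=
    { op := fun f => match f with
        | .d i => fun _ => i
        | .b => fun x => D.b (x 0)
        | .a n => fun x => D.a n (x 0)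
        | .h i => fun x => D.h i (x 0)
        | .y n i => fun x => D.y n i (x 0)
        | .z i n => fun x => D.z i n (x 0)
        | .g => fun x => D.G (x 0) (x 1) (x 2)
      mono := by
        have e : ∀ (x : Fin 1 → M1) (c : M1), Function.update x (0 : Fin 1) c (0 : Fin 1) = c :=
          fun x c => Function.update_self _ _ _
        intro f x i a b hab
        match f with
        | .d i => exact Fin.elim0 (by assumption)
        | .b =>
          obtain rfl : i = (0 : Fin 1) := Subsingleton.elim _ _
          change D.b (Function.update x (0 : Fin 1) a 0) < D.b (Function.update x (0 : Fin 1) b 0)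
          rw [e, e]
          exact D.blk_lt D.blk_b _ _ hab
        | .a n =>
          obtain rfl : i = (0 : Fin 1) := Subsingleton.elim _ _
          change D.a n (Function.update x (0 : Fin 1) a 0)
            < D.a n (Function.update x (0 : Fin 1) b 0)
          rw [e, e]
          exact D.blk_lt (D.blk_a n) _ _ hab
        | .h k =>
          obtain rfl : i = (0 : Fin 1) := Subsingleton.elim _ _
          change D.h k (Function.update x (0 : Fin 1) a 0)
            < D.h k (Function.update x (0 : Fin 1) b 0)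
          rw [e, e]
          exact D.blk_lt (D.blk_h k) _ _ hab
        | .y n k =>
          obtain rfl : i = (0 : Fin 1) := Subsingleton.elim _ _
          change D.y n k (Function.update x (0 : Fin 1) a 0)
            < D.y n k (Function.update x (0 : Fin 1) b 0)
          rw [e, e]
          exact D.blk_lt (D.blk_y n k) _ _ hab
        | .z k n =>
          obtain rfl : i = (0 : Fin 1) := Subsingleton.elim _ _
          change D.z k n (Function.update x (0 : Fin 1) a 0)
            < D.z k n (Function.update x (0 : Fin 1) b 0)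
          rw [e, e]
          exact D.blk_lt (D.blk_z k n) _ _ hab
        | .g =>
          change D.G (Function.update x i a (0 : Fin 3)) (Function.update x i a (1 : Fin 3))
              (Function.update x i a (2 : Fin 3))
            < D.G (Function.update x i b (0 : Fin 3)) (Function.update x i b (1 : Fin 3))
              (Function.update x i b (2 : Fin 3))
          fin_cases i
          · simp [Function.update_apply]
            exact D.G1 _ _ _ _ hab
          · simp [Function.update_apply]
            exact D.G2 _ _ _ _ hab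
          · simp [Function.update_apply]
            exact D.G3 _ _ _ _ hab }
  apply M.totallyTerminating
  rintro p (⟨n, i, j, hij, rfl⟩ | ⟨i, n, rfl⟩) v
  · simp only [ev_g, ev_y, ev_a, ev_h, ev_x]
    exact D.rule2 n i j (v 0) hij
  · simp only [ev_g, ev_z, ev_a, ev_h, ev_b, ev_d, ev_x]
    exact D.rule3 i n (v 0)

/-! ## The union -/

/-- The reduct of an algebra for the union to the first signature. -/
def redL {S₁ S₂ : Sig.{0}} {A : Type v} {lt : A → A → Prop} (M : Alg (S₁.sum S₂) lt) :
    Alg S₁ lt where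
  op f x := M.op (Sum.inl f) x
  mono f x i a b h := M.mono (Sum.inl f) x i a b h

/-- The reduct of an algebra for the union to the second signature. -/
def redR {S₁ S₂ : Sig.{0}} {A : Type v} {lt : A → A → Prop} (M : Alg (S₁.sum S₂) lt) :
    Alg S₂ lt where
  op f x := M.op (Sum.inr f) x
  mono f x i a b h := M.mono (Sum.inr f) x i a b h

theorem redL_eval {S₁ S₂ : Sig.{0}} {A : Type v} {lt : A → A → Prop} (M : Alg (S₁.sum S₂) lt)
    {V : Type w} (v : V → A) (t : Term S₁ V) : M.eval v t.inl = (redL M).eval v t := by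
  induction t with
  | var x => rfl
  | app f ts ih =>
    change M.op (Sum.inl f) _ = M.op (Sum.inl f) _
    congr 1
    funext i
    exact ih i

theorem redR_eval {S₁ S₂ : Sig.{0}} {A : Type v} {lt : A → A → Prop} (M : Alg (S₁.sum S₂) lt)
    {V : Type w} (v : V → A) (t : Term S₂ V) : M.eval v t.inr = (redR M).eval v t := by
  induction t with
  | var x => rfl
  | app f ts ih =>
    change M.op (Sum.inr f) _ = M.op (Sum.inr f) _
    congr 1
    funext i
    exact ih i

theorem union_not_tt : ¬ (R1.union R2).TotallyTerminating := by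
  rintro ⟨lt, wo, mono, hR⟩
  refine no_common (redL (Alg.ground mono)) (redR (Alg.ground mono)) ?_ ?_
  · intro p hp v
    have h := hR _ (Or.inl ⟨p, hp, rfl⟩) v
    rw [← redL_eval, ← redL_eval, Alg.eval_ground, Alg.eval_ground]
    exact h
  · intro p hp v
    have h := hR _ (Or.inr ⟨p, hp, rfl⟩) v
    rw [← redR_eval, ← redR_eval, Alg.eval_ground, Alg.eval_ground]
    exact h

end Pool.Agent.X38.TT
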