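import Mathlib

open Polynomial

namespace Pool.Agent.X38.RZ

/-- Laguerre's inequality for a real polynomial that splits. -/
theorem lag0 {q : ℝ[X]} (h : q.Splits) (t : ℝ) :
    0 ≤ (q.derivative.eval t) ^ 2 - q.eval t * (q.derivative.derivative.eval t) := by
  unfold Polynomial.Splits at h
  induction h using Submonoid.closure_induction with
  | mem f hf =>
    rcases hf with ⟨a, rfl⟩ | ⟨a, rfl⟩ <;> simp
  | one => simp
  | mul f g _ _ hf hg =>
    simp only [derivative_mul, derivative_add, eval_add, eval_mul]
    have h1 := mul_nonneg (sq_nonneg (g.eval t)) hf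
    have h2 := mul_nonneg (sq_nonneg (f.eval t)) hg
    nlinarith [h1, h2]

theorem splits_derivative {q : ℝ[X]} (h : q.Splits) : q.derivative.Splits := by
  rcases Nat.eq_zero_or_pos q.natDegree with h0 | h0
  · rw [Polynomial.natDegree_eq_zero] at h0
    obtain ⟨c, rfl⟩ := h0
    simp
  · rw [splits_iff_card_roots]
    apply le_antisymm (card_roots' _)
    have h1 := card_roots_le_derivative q
    have h2 := h.natDegree_eq_card_roots
    have h3 := natDegree_derivative_lt (p := q) (by omega)
    omega

theorem splits_of_real {q : ℝ[X]} (h : ∀ z : ℂ, aeval z q = 0 → z.im = 0) : q.Splits := by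
  apply Splits.of_splits_map (algebraMap ℝ ℂ) (IsAlgClosed.splits _)
  intro z hz
  rw [mem_roots'] at hz
  have h1 : aeval z q = 0 := by
    have := hz.2
    rwa [IsRoot.def, eval_map_algebraMap] at this
  have h2 := h z h1
  exact ⟨z.re, by apply Complex.ext <;> simp [h2]⟩

end Pool.Agent.X38.RZ
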