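import Mathlib
import Pool.Agent.X38.RZ1

open MvPolynomial

namespace Pool.Agent.X38.RZ

variable {σ : Type} [Fintype σ]

/-- Homogenization (to degree four) of `r`, evaluated at a point of a commutative algebra. -/
noncomputable def hom4 (r : MvPolynomial σ ℝ) {K : Type} [CommRing K] [Algebra ℝ K] (t : K)
    (x : σ → K) : K :=
  ∑ m ∈ r.support, algebraMap ℝ K (r.coeff m) * (t ^ (4 - ∑ i, m i) * ∏ i, x i ^ m i)

theorem hom4_map (r : MvPolynomial σ ℝ) {K L : Type} [CommRing K] [Algebra ℝ K] [CommRing L]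
    [Algebra ℝ L] (φ : K →ₐ[ℝ] L) (t : K) (x : σ → K) :
    φ (hom4 r t x) = hom4 r (φ t) (fun i => φ (x i)) := by
  simp [hom4, map_sum, map_prod]

theorem deg_le {r : MvPolynomial σ ℝ} (hr : r.totalDegree ≤ 4) {m : σ →₀ ℕ} (hm : m ∈ r.support) :
    ∑ i, m i ≤ 4 := by
  have h := MvPolynomial.le_totalDegree hm
  rw [Finsupp.sum_fintype _ _ (by simp)] at h
  omega

theorem hom4_eq {r : MvPolynomial σ ℝ} (hr : r.totalDegree ≤ 4) {K : Type} [Field K] [Algebra ℝ K]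
    {t : K} (ht : t ≠ 0) (x : σ → K) :
    hom4 r t x = t ^ 4 * aeval (fun i => t⁻¹ * x i) r := by
  rw [MvPolynomial.aeval_def, MvPolynomial.eval₂_eq', hom4, Finset.mul_sum]
  refine Finset.sum_congr rfl fun m hm => ?_
  have h4 := deg_le hr hm
  have h1 : ∏ i, (t⁻¹ * x i) ^ m i = t⁻¹ ^ (∑ i, m i) * ∏ i, x i ^ m i := by
    simp_rw [mul_pow]
    rw [Finset.prod_mul_distrib, Finset.prod_pow_eq_pow_sum]
  rw [h1]
  have h2 : t ^ (4 - ∑ i, m i) = t ^ 4 * t⁻¹ ^ (∑ i, m i) := by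
    rw [inv_pow, ← div_eq_mul_inv, eq_div_iff (pow_ne_zero _ ht), ← pow_add]
    congr 1
    omega
  rw [h2]
  ring

theorem tern {P : MvPolynomial (Fin 3) ℝ} (hP : P.IsHomogeneous 4) :
    ∃ c : ℕ → ℕ → ℝ, ∀ s θ y : ℝ, eval ![s, θ, y] P =
      ∑ p ∈ (Finset.range 5 ×ˢ Finset.range 5).filter (fun p => p.1 + p.2 ≤ 4),
        c p.1 p.2 * (s ^ (4 - p.1 - p.2) * θ ^ p.1 * y ^ p.2) := by
  refine ⟨fun i j => ∑ m ∈ P.support.filter (fun m => (m 1, m 2) = (i, j)), P.coeff m, ?_⟩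
  intro s θ y
  rw [MvPolynomial.eval_eq']
  have hmaps : ∀ m ∈ P.support, (m 1, m 2) ∈
      (Finset.range 5 ×ˢ Finset.range 5).filter (fun p => p.1 + p.2 ≤ 4) := by
    intro m hm
    have h := hP (MvPolynomial.mem_support_iff.mp hm)
    have h2 : m 0 + m 1 + m 2 = 4 := by
      have := h
      rw [Finsupp.weight_apply, Finsupp.sum_fintype _ _ (by simp)] at this
      simpa [Fin.sum_univ_three] using this
    simp only [Finset.mem_filter, Finset.mem_product, Finset.mem_range]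
    omega
  rw [← Finset.sum_fiberwise_of_maps_to hmaps]
  refine Finset.sum_congr rfl fun p _ => ?_
  rw [Finset.sum_mul]
  refine Finset.sum_congr rfl fun m hm => ?_
  rw [Finset.mem_filter] at hm
  have h := hP (MvPolynomial.mem_support_iff.mp hm.1)
  have h2 : m 0 + m 1 + m 2 = 4 := by
    have := h
    rw [Finsupp.weight_apply, Finsupp.sum_fintype _ _ (by simp)] at this
    simpa [Fin.sum_univ_three] using this
  have h3 := hm.2
  have h4 : m 1 = p.1 := (Prod.mk.inj h3).1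
  have h5 : m 2 = p.2 := (Prod.mk.inj h3).2
  have h6 : m 0 = 4 - p.1 - p.2 := by omega
  rw [Fin.prod_univ_three, h4, h5, h6]
  simp

theorem hom4_homog (r : MvPolynomial σ ℝ) (hr : r.totalDegree ≤ 4)
    (t : MvPolynomial (Fin 3) ℝ) (x : σ → MvPolynomial (Fin 3) ℝ) (ht : t.IsHomogeneous 1)
    (hx : ∀ i, (x i).IsHomogeneous 1) : (hom4 r t x).IsHomogeneous 4 := by
  refine MvPolynomial.IsHomogeneous.sum _ _ _ fun m hm => ?_
  have h4 := deg_le hr hm
  have h1 : (t ^ (4 - ∑ i, m i)).IsHomogeneous (1 * (4 - ∑ i, m i)) := ht.pow _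
  have h2 : (∏ i, x i ^ m i).IsHomogeneous (∑ i, 1 * m i) :=
    MvPolynomial.IsHomogeneous.prod _ _ _ fun i _ => (hx i).pow _
  have h3 : (algebraMap ℝ (MvPolynomial (Fin 3) ℝ) (r.coeff m)).IsHomogeneous 0 :=
    MvPolynomial.isHomogeneous_C _ _
  have h5 := h3.mul (h1.mul h2)
  convert h5 using 1
  simp only [one_mul, zero_add]
  omega

/-- The restriction of the homogenization to a three-dimensional space is a ternary quartic. -/
theorem hom4_tern (r : MvPolynomial σ ℝ) (hr : r.totalDegree ≤ 4) (t0 t2 : ℝ) (x0 x2 : σ → ℝ) :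
    ∃ c : ℕ → ℕ → ℝ, ∀ s θ y : ℝ,
      hom4 r (s * t0 + θ + y * t2) (fun i => s * x0 i + y * x2 i) =
      ∑ p ∈ (Finset.range 5 ×ˢ Finset.range 5).filter (fun p => p.1 + p.2 ≤ 4),
        c p.1 p.2 * (s ^ (4 - p.1 - p.2) * θ ^ p.1 * y ^ p.2) := by
  have hlin : ∀ a b c : ℝ, (X 0 * C a + X 1 * C b + X 2 * C c : MvPolynomial (Fin 3) ℝ).IsHomogeneous 1 := by
    intro a b c
    have h : ∀ (i : Fin 3) (a : ℝ), (X i * C a : MvPolynomial (Fin 3) ℝ).IsHomogeneous 1 := by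
      intro i a
      have := (MvPolynomial.isHomogeneous_X ℝ i).mul (MvPolynomial.isHomogeneous_C (Fin 3) a)
      simpa using this
    exact ((h 0 a).add (h 1 b)).add (h 2 c)
  obtain ⟨c, hc⟩ := tern (hom4_homog r hr (X 0 * C t0 + X 1 * C 1 + X 2 * C t2)
    (fun i => X 0 * C (x0 i) + X 1 * C 0 + X 2 * C (x2 i)) (hlin _ _ _) (fun i => hlin _ _ _))
  refine ⟨c, fun s θ y => ?_⟩
  rw [← hc]
  have h := hom4_map r (MvPolynomial.aeval ![s, θ, y] : MvPolynomial (Fin 3) ℝ →ₐ[ℝ] ℝ)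
    (X 0 * C t0 + X 1 * C 1 + X 2 * C t2)
    (fun i => X 0 * C (x0 i) + X 1 * C 0 + X 2 * C (x2 i))
  have e1 : ∀ P : MvPolynomial (Fin 3) ℝ, eval ![s, θ, y] P = aeval ![s, θ, y] P := fun P => rfl
  rw [e1, h]
  simp [MvPolynomial.aeval_def]

end Pool.Agent.X38.RZ
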