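import Mathlib
import Pool.Agent.X38.RZ2

namespace Pool.Agent.X38.RZ

variable {σ : Type} [Fintype σ]

/-- Real zero polynomials. -/
def RealZero {σ : Type} (f : MvPolynomial σ ℝ) : Prop :=
  ∀ (a : σ → ℝ) (l : ℂ), MvPolynomial.aeval (fun i => l * (a i : ℂ)) f = 0 → l.im = 0

open Polynomial in
theorem rr {r : MvPolynomial σ ℝ} (hz : RealZero r) (hr : r.totalDegree ≤ 4) (q : Polynomial ℝ)
    (t0 : ℝ) (x0 : σ → ℝ) (hq : ∀ θ : ℝ, q.eval θ = hom4 r (t0 + θ) x0) :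
    ∀ z : ℂ, Polynomial.aeval z q = 0 → z.im = 0 := by
  intro z hzq
  by_contra him
  have h1 : q = ∑ m ∈ r.support, Polynomial.C (r.coeff m) *
      ((Polynomial.C t0 + Polynomial.X) ^ (4 - ∑ i, m i) * ∏ i, Polynomial.C (x0 i) ^ m i) := by
    apply Polynomial.funext
    intro θ
    rw [hq, hom4]
    simp [Polynomial.eval_finsetSum, Polynomial.eval_prod]
  have h2 : Polynomial.aeval z q = hom4 r ((t0 : ℂ) + z) (fun i => (x0 i : ℂ)) := by
    rw [h1, hom4]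
    simp [map_sum, map_prod]
  have h0 : (t0 : ℂ) + z ≠ 0 := by
    intro h
    apply him
    have := congrArg Complex.im h
    simpa using this
  rw [hzq, hom4_eq hr h0] at h2
  have h3 : MvPolynomial.aeval (fun i => ((t0 : ℂ) + z)⁻¹ * (x0 i : ℂ)) r = 0 := by
    rcases mul_eq_zero.mp h2.symm with h | h
    · exact absurd (pow_eq_zero_iff (by norm_num) |>.mp h) h0
    · exact h
  have h4 := hz x0 _ h3
  apply him
  rw [Complex.inv_im] at h4
  have h5 : Complex.normSq ((t0 : ℂ) + z) ≠ 0 := by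
    rwa [Ne, Complex.normSq_eq_zero]
  rw [div_eq_zero_iff] at h4
  rcases h4 with h4 | h4
  · simpa using h4
  · exact absurd h4 h5

theorem ineqs {r : MvPolynomial σ ℝ} (hz : RealZero r) (hr : r.totalDegree ≤ 4)
    (t0 : ℝ) (x0 : σ → ℝ) (A0 A1 A2 A3 A4 : ℝ)
    (h : ∀ θ : ℝ, hom4 r (t0 + θ) x0 = A0 + A1 * θ + A2 * θ ^ 2 + A3 * θ ^ 3 + A4 * θ ^ 4)
    (θ : ℝ) :
    0 ≤ (A1 + 2 * A2 * θ + 3 * A3 * θ ^ 2 + 4 * A4 * θ ^ 3) ^ 2 -
      (A0 + A1 * θ + A2 * θ ^ 2 + A3 * θ ^ 3 + A4 * θ ^ 4) *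
      (2 * A2 + 6 * A3 * θ + 12 * A4 * θ ^ 2) ∧
    0 ≤ (2 * A2 + 6 * A3 * θ + 12 * A4 * θ ^ 2) ^ 2 -
      (A1 + 2 * A2 * θ + 3 * A3 * θ ^ 2 + 4 * A4 * θ ^ 3) * (6 * A3 + 24 * A4 * θ) := by
  set q : Polynomial ℝ := Polynomial.C A0 + Polynomial.C A1 * Polynomial.X +
    Polynomial.C A2 * Polynomial.X ^ 2 + Polynomial.C A3 * Polynomial.X ^ 3 +
    Polynomial.C A4 * Polynomial.X ^ 4 with hq
  have h1 : ∀ θ : ℝ, q.eval θ = hom4 r (t0 + θ) x0 := by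
    intro θ
    rw [h, hq]
    simp
  have hs := splits_of_real (rr hz hr q t0 x0 h1)
  have hi0 := lag0 hs θ
  have hi1 := lag0 (splits_derivative hs) θ
  have e0 : q.eval θ = A0 + A1 * θ + A2 * θ ^ 2 + A3 * θ ^ 3 + A4 * θ ^ 4 := by
    rw [hq]; simp
  have e1 : q.derivative.eval θ = A1 + 2 * A2 * θ + 3 * A3 * θ ^ 2 + 4 * A4 * θ ^ 3 := by
    rw [hq]; simp; ring
  have e2 : q.derivative.derivative.eval θ = 2 * A2 + 6 * A3 * θ + 12 * A4 * θ ^ 2 := by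
    rw [hq]; simp; ring
  have e3 : q.derivative.derivative.derivative.eval θ = 6 * A3 + 24 * A4 * θ := by
    rw [hq]; simp; ring
  rw [e0, e1, e2] at hi0
  rw [e1, e2, e3] at hi1
  exact ⟨hi0, hi1⟩

theorem L4 {a b c d e : ℝ} (h : ∀ y : ℝ, 0 ≤ a + b * y + c * y ^ 2 + d * y ^ 3 + e * y ^ 4) :
    0 ≤ e := by
  by_contra he
  push Not at he
  set s : ℝ := |a| + |b| + |c| + |d| with hs
  have hs0 : 0 ≤ s := by positivity
  set M : ℝ := 1 + s / (-e) with hM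
  have h0 : 0 ≤ s / (-e) := div_nonneg hs0 (by linarith)
  have hM1 : 1 ≤ M := by linarith
  have hMe : -e * M = -e + s := by
    have he' : (-e) ≠ 0 := by
      have : (0:ℝ) < -e := by linarith
      exact ne_of_gt this
    rw [hM, mul_add, mul_one, mul_div_cancel₀ _ he']
  have h1 := h M
  have ha := le_abs_self a
  have hb := le_abs_self b
  have hc := le_abs_self c
  have hd := le_abs_self d
  have hM2 : 1 ≤ M ^ 2 := one_le_pow₀ hM1
  have hM3 : 1 ≤ M ^ 3 := one_le_pow₀ hM1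
  have hM12 : M ≤ M ^ 3 := by nlinarith
  have hM22 : M ^ 2 ≤ M ^ 3 := by nlinarith
  have i1 : a ≤ |a| * M ^ 3 := by nlinarith [abs_nonneg a]
  have i2 : b * M ≤ |b| * M ^ 3 := by
    have : b * M ≤ |b| * M := by nlinarith
    nlinarith [abs_nonneg b]
  have i3 : c * M ^ 2 ≤ |c| * M ^ 3 := by
    have : c * M ^ 2 ≤ |c| * M ^ 2 := by nlinarith
    nlinarith [abs_nonneg c]
  have i4 : d * M ^ 3 ≤ |d| * M ^ 3 := by nlinarith
  have i5 : e * M ^ 4 = (e - s) * M ^ 3 := by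
    have : e * M = e - s := by linarith
    calc e * M ^ 4 = (e * M) * M ^ 3 := by ring
      _ = (e - s) * M ^ 3 := by rw [this]
  have i6 : e * M ^ 3 < 0 := by nlinarith
  nlinarith

theorem L3 {a b c d : ℝ} (h : ∀ y : ℝ, 0 ≤ a + b * y + c * y ^ 2 + d * y ^ 3) : d = 0 := by
  -- multiply by `y ^ 2 + ...`: use the quartic version on `y * P(y)`-type combinations
  have key : ∀ a b c d : ℝ, (∀ y : ℝ, 0 ≤ a + b * y + c * y ^ 2 + d * y ^ 3) → 0 ≤ d := by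
    intro a b c d h
    by_contra he
    push Not at he
    set s : ℝ := |a| + |b| + |c| with hs
    have hs0 : 0 ≤ s := by positivity
    set M : ℝ := 1 + s / (-d) with hM
    have h0 : 0 ≤ s / (-d) := div_nonneg hs0 (by linarith)
    have hM1 : 1 ≤ M := by linarith
    have hMe : -d * M = -d + s := by
      have he' : (-d) ≠ 0 := by
        have : (0:ℝ) < -d := by linarith
        exact ne_of_gt this
      rw [hM, mul_add, mul_one, mul_div_cancel₀ _ he']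
    have h1 := h M
    have ha := le_abs_self a
    have hb := le_abs_self b
    have hc := le_abs_self c
    have hM2 : 1 ≤ M ^ 2 := one_le_pow₀ hM1
    have hM12 : M ≤ M ^ 2 := by nlinarith
    have i1 : a ≤ |a| * M ^ 2 := by nlinarith [abs_nonneg a]
    have i2 : b * M ≤ |b| * M ^ 2 := by
      have : b * M ≤ |b| * M := by nlinarith
      nlinarith [abs_nonneg b]
    have i3 : c * M ^ 2 ≤ |c| * M ^ 2 := by nlinarith
    have i5 : d * M ^ 3 = (d - s) * M ^ 2 := by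
      have : d * M = d - s := by linarith
      calc d * M ^ 3 = (d * M) * M ^ 2 := by ring
        _ = (d - s) * M ^ 2 := by rw [this]
    have i6 : d * M ^ 2 < 0 := by nlinarith
    nlinarith
  have h1 := key a b c d h
  have h2 := key a (-b) c (-d) (fun y => by have := h (-y); ring_nf at this ⊢; linarith)
  linarith

/-- A linear coefficient at a minimum vanishes. -/
theorem L1 {b c d e : ℝ} (h : ∀ y : ℝ, 0 ≤ b * y + c * y ^ 2 + d * y ^ 3 + e * y ^ 4) : b = 0 := by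
  have h3 : ∀ y : ℝ, 0 ≤ e + d * y + c * y ^ 2 + b * y ^ 3 := by
    intro y
    rcases eq_or_ne y 0 with rfl | hy
    · have h4 := L4 (a := 0) (b := b) (c := c) (d := d) (e := e) (fun y => by
        have := h y; linarith)
      simpa using h4
    · have h5 := h y⁻¹
      have h6 : e + d * y + c * y ^ 2 + b * y ^ 3 =
          (b * y⁻¹ + c * y⁻¹ ^ 2 + d * y⁻¹ ^ 3 + e * y⁻¹ ^ 4) * y ^ 4 := by
        field_simp
        ring
      rw [h6]
      positivity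
  exact L3 h3

/-- Rank one directions: the homogenization is affine along them. -/
theorem rankOne {r : MvPolynomial σ ℝ} (hz : RealZero r) (hr : r.totalDegree ≤ 4)
    (t2 : ℝ) (x2 : σ → ℝ) (κ : ℝ) (hκ : κ ≠ 0)
    (h : ∀ θ y : ℝ, hom4 r (θ + y * t2) (fun i => y * x2 i) = 66 * θ ^ 4 + κ * y * θ ^ 3)
    (t0 : ℝ) (x0 : σ → ℝ) :
    ∃ m0 m1 : ℝ, ∀ y : ℝ, hom4 r (t0 + y * t2) (fun i => x0 i + y * x2 i) = m0 + m1 * y := by
  obtain ⟨c, hc⟩ := hom4_tern r hr t0 t2 x0 x2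
  have hset' : ∀ f : ℕ × ℕ → ℝ,
      ∑ p ∈ (Finset.range 5 ×ˢ Finset.range 5).filter (fun p => p.1 + p.2 ≤ 4), f p =
      f (0, 0) + f (0, 1) + f (0, 2) + f (0, 3) + f (0, 4) + f (1, 0) + f (1, 1) + f (1, 2) +
      f (1, 3) + f (2, 0) + f (2, 1) + f (2, 2) + f (3, 0) + f (3, 1) + f (4, 0) := by
    intro f
    rw [Finset.sum_filter, Finset.sum_product]
    simp [Finset.sum_range_succ]
    ring
  have hc' : ∀ s θ y : ℝ, hom4 r (s * t0 + θ + y * t2) (fun i => s * x0 i + y * x2 i) =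
      c 0 0 * s ^ 4 + c 0 1 * s ^ 3 * y + c 0 2 * s ^ 2 * y ^ 2 + c 0 3 * s * y ^ 3 +
      c 0 4 * y ^ 4 + (c 1 0 * s ^ 3 + c 1 1 * s ^ 2 * y + c 1 2 * s * y ^ 2 + c 1 3 * y ^ 3) * θ +
      (c 2 0 * s ^ 2 + c 2 1 * s * y + c 2 2 * y ^ 2) * θ ^ 2 +
      (c 3 0 * s + c 3 1 * y) * θ ^ 3 + c 4 0 * θ ^ 4 := by
    intro s θ y
    rw [hc, hset']
    norm_num
    ring
  clear hc
  have g0 : ∀ θ y : ℝ, 66 * θ ^ 4 + κ * y * θ ^ 3 = c 0 4 * y ^ 4 + c 1 3 * y ^ 3 * θ +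
      c 2 2 * y ^ 2 * θ ^ 2 + c 3 1 * y * θ ^ 3 + c 4 0 * θ ^ 4 := by
    intro θ y
    rw [← h]
    have := hc' 0 θ y
    simp only [zero_mul, zero_add] at this
    rw [this]
    ring
  have k40 : c 4 0 = 66 := by have := g0 1 0; norm_num at this; linarith
  have k04 : c 0 4 = 0 := by have := g0 0 1; norm_num at this; linarith
  have k1 := g0 1 1
  have k2 := g0 1 (-1)
  have k3 := g0 2 1
  have k4 := g0 1 2
  norm_num at k1 k2 k3 k4
  have k22 : c 2 2 = 0 := by linarith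
  have k13 : c 1 3 = 0 := by linarith
  have k31 : c 3 1 = κ := by linarith
  have F : ∀ y θ : ℝ, hom4 r (t0 + y * t2 + θ) (fun i => x0 i + y * x2 i) =
      (c 0 0 + c 0 1 * y + c 0 2 * y ^ 2 + c 0 3 * y ^ 3) +
      (c 1 0 + c 1 1 * y + c 1 2 * y ^ 2) * θ + (c 2 0 + c 2 1 * y) * θ ^ 2 +
      (c 3 0 + κ * y) * θ ^ 3 + 66 * θ ^ 4 := by
    intro y θ
    have := hc' 1 θ y
    rw [k40, k04, k22, k13, k31] at this
    simp only [one_mul] at this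
    rw [show t0 + y * t2 + θ = t0 + θ + y * t2 by ring, this]
    ring
  have I := fun y θ => ineqs hz hr (t0 + y * t2) (fun i => x0 i + y * x2 i) _ _ _ _ _ (F y) θ
  -- the coefficient `c 1 2`
  have j12 : c 1 2 = 0 := by
    have hh := L3 (a := 4 * c 2 0 ^ 2 - 6 * c 1 0 * c 3 0)
      (b := 8 * c 2 0 * c 2 1 - 6 * (c 1 0 * κ + c 1 1 * c 3 0))
      (c := 4 * c 2 1 ^ 2 - 6 * (c 1 1 * κ + c 1 2 * c 3 0)) (d := -6 * c 1 2 * κ) (fun y => by
        have := (I y 0).2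
        ring_nf at this ⊢
        linarith)
    have : c 1 2 * κ = 0 := by linarith
    rcases mul_eq_zero.mp this with h | h
    · exact h
    · exact absurd h hκ
  rw [j12] at I F
  -- the coefficient `c 0 3`
  have j03 : c 0 3 = 0 := by
    by_contra h03
    have hh : ∀ θ : ℝ, 0 ≤ -(c 0 3) * (2 * c 2 1 + 6 * κ * θ) := by
      intro θ
      refine L4 (a := (c 1 0 + 2 * c 2 0 * θ + 3 * c 3 0 * θ ^ 2 + 264 * θ ^ 3) ^ 2 -
        (c 0 0 + c 1 0 * θ + c 2 0 * θ ^ 2 + c 3 0 * θ ^ 3 + 66 * θ ^ 4) *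
          (2 * c 2 0 + 6 * c 3 0 * θ + 792 * θ ^ 2))
        (b := 2 * (c 1 0 + 2 * c 2 0 * θ + 3 * c 3 0 * θ ^ 2 + 264 * θ ^ 3) *
            (c 1 1 + 2 * c 2 1 * θ + 3 * κ * θ ^ 2) -
          (c 0 0 + c 1 0 * θ + c 2 0 * θ ^ 2 + c 3 0 * θ ^ 3 + 66 * θ ^ 4) *
            (2 * c 2 1 + 6 * κ * θ) -
          (c 0 1 + c 1 1 * θ + c 2 1 * θ ^ 2 + κ * θ ^ 3) *
            (2 * c 2 0 + 6 * c 3 0 * θ + 792 * θ ^ 2))
        (c := (c 1 1 + 2 * c 2 1 * θ + 3 * κ * θ ^ 2) ^ 2 -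
          (c 0 1 + c 1 1 * θ + c 2 1 * θ ^ 2 + κ * θ ^ 3) * (2 * c 2 1 + 6 * κ * θ) -
          c 0 2 * (2 * c 2 0 + 6 * c 3 0 * θ + 792 * θ ^ 2))
        (d := -c 0 2 * (2 * c 2 1 + 6 * κ * θ) -
          c 0 3 * (2 * c 2 0 + 6 * c 3 0 * θ + 792 * θ ^ 2)) (fun y => ?_)
      have := (I y θ).1
      ring_nf at this ⊢
      linarith
    have h1 := hh (((1 / (c 0 3)) - 2 * c 2 1) / (6 * κ))
    have h2 : -(c 0 3) * (2 * c 2 1 + 6 * κ * (((1 / (c 0 3)) - 2 * c 2 1) / (6 * κ))) = -1 := by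
      field_simp
      ring
    rw [h2] at h1
    linarith
  rw [j03] at I F
  -- the coefficient `c 0 2`
  have j02 : c 0 2 = 0 := by
    have hh : ∀ θ : ℝ, -(c 0 2) * (2 * c 2 1 + 6 * κ * θ) = 0 := by
      intro θ
      refine L3 (a := (c 1 0 + 2 * c 2 0 * θ + 3 * c 3 0 * θ ^ 2 + 264 * θ ^ 3) ^ 2 -
        (c 0 0 + c 1 0 * θ + c 2 0 * θ ^ 2 + c 3 0 * θ ^ 3 + 66 * θ ^ 4) *
          (2 * c 2 0 + 6 * c 3 0 * θ + 792 * θ ^ 2))
        (b := 2 * (c 1 0 + 2 * c 2 0 * θ + 3 * c 3 0 * θ ^ 2 + 264 * θ ^ 3) *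
            (c 1 1 + 2 * c 2 1 * θ + 3 * κ * θ ^ 2) -
          (c 0 0 + c 1 0 * θ + c 2 0 * θ ^ 2 + c 3 0 * θ ^ 3 + 66 * θ ^ 4) *
            (2 * c 2 1 + 6 * κ * θ) -
          (c 0 1 + c 1 1 * θ + c 2 1 * θ ^ 2 + κ * θ ^ 3) *
            (2 * c 2 0 + 6 * c 3 0 * θ + 792 * θ ^ 2))
        (c := (c 1 1 + 2 * c 2 1 * θ + 3 * κ * θ ^ 2) ^ 2 -
          (c 0 1 + c 1 1 * θ + c 2 1 * θ ^ 2 + κ * θ ^ 3) * (2 * c 2 1 + 6 * κ * θ) -
          c 0 2 * (2 * c 2 0 + 6 * c 3 0 * θ + 792 * θ ^ 2)) (fun y => ?_)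
      have := (I y θ).1
      ring_nf at this ⊢
      linarith
    have h1 := hh ((1 - 2 * c 2 1) / (6 * κ))
    have h2 : 2 * c 2 1 + 6 * κ * ((1 - 2 * c 2 1) / (6 * κ)) = 1 := by
      field_simp
      ring
    rw [h2] at h1
    linarith
  refine ⟨c 0 0, c 0 1, fun y => ?_⟩
  have := F y 0
  rw [j02] at this
  simp only [add_zero] at this
  rw [this]
  ring

end Pool.Agent.X38.RZ
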