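import Mathlib
import Pool.Agent.X38.RZ3

namespace Pool.Agent.X38.RZ

/-- A real quartic with leading coefficient `66`, nonnegative at `0`, and nonpositive at a negative
and at a positive point, has only real roots. -/
theorem quartic (g3 g2 g1 g0 : ℝ) (w : ℂ)
    (hw : 66 * w ^ 4 + g3 * w ^ 3 + g2 * w ^ 2 + g1 * w + g0 = 0) (um up : ℝ) (hm : um < 0)
    (hp : 0 < up) (Gm : 66 * um ^ 4 + g3 * um ^ 3 + g2 * um ^ 2 + g1 * um + g0 ≤ 0)
    (Gp : 66 * up ^ 4 + g3 * up ^ 3 + g2 * up ^ 2 + g1 * up + g0 ≤ 0) (G0 : 0 ≤ g0) :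
    w.im = 0 := by
  by_contra hb
  set α := w.re with hα
  set β := w.im with hβ
  set T := 2 * α with hT
  set N := α ^ 2 + β ^ 2 with hN
  have hN0 : 0 < N := by positivity
  have hD : w ^ 2 - T * w + N = 0 := by
    have : w = (α : ℂ) + β * Complex.I := by
      rw [hα, hβ]; exact (Complex.re_add_im w).symm
    rw [this, hT, hN]
    push_cast
    have := Complex.I_sq
    linear_combination (β : ℂ) ^ 2 * this
  set q1 := g3 + 66 * T with hq1
  set q0 := g2 + T * q1 - 66 * N with hq0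
  have hr : ((g1 + T * q0 - N * q1 : ℝ) : ℂ) * w + ((g0 - N * q0 : ℝ) : ℂ) = 0 := by
    rw [hq0, hq1]
    push_cast
    linear_combination hw - (66 * w ^ 2 + (g3 + 66 * T) * w +
      (g2 + T * (g3 + 66 * T) - 66 * N)) * hD
  have hi := congrArg Complex.im hr
  have hre := congrArg Complex.re hr
  simp only [Complex.add_im, Complex.add_re, Complex.mul_im, Complex.mul_re, Complex.ofReal_re,
    Complex.ofReal_im, zero_mul, add_zero, sub_zero, Complex.zero_im, Complex.zero_re] at hi hre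
  have h1 : g1 + T * q0 - N * q1 = 0 := by
    rcases mul_eq_zero.mp hi with h | h
    · exact h
    · exact absurd h hb
  have h0 : g0 - N * q0 = 0 := by
    rw [h1] at hre
    simpa using hre
  have hq0' : 0 ≤ q0 := by
    by_contra hneg
    push Not at hneg
    nlinarith
  have hfac : ∀ u : ℝ, 66 * u ^ 4 + g3 * u ^ 3 + g2 * u ^ 2 + g1 * u + g0 =
      ((u - α) ^ 2 + β ^ 2) * (66 * u ^ 2 + q1 * u + q0) := by
    intro u
    have e1 : g1 = N * q1 - T * q0 := by linarith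
    have e0 : g0 = N * q0 := by linarith
    rw [e1, e0, hq0, hq1, hN, hT]
    ring
  have hpos : ∀ u : ℝ, 0 < (u - α) ^ 2 + β ^ 2 := fun u => by positivity
  rw [hfac] at Gm Gp
  have Qm : 66 * um ^ 2 + q1 * um + q0 ≤ 0 := by
    by_contra h
    push Not at h
    have := mul_pos (hpos um) h
    linarith
  have Qp : 66 * up ^ 2 + q1 * up + q0 ≤ 0 := by
    by_contra h
    push Not at h
    have := mul_pos (hpos up) h
    linarith
  have k1 : up * (66 * um ^ 2 + q1 * um + q0) ≤ 0 := mul_nonpos_of_nonneg_of_nonpos hp.le Qm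
  have k2 : (-um) * (66 * up ^ 2 + q1 * up + q0) ≤ 0 :=
    mul_nonpos_of_nonneg_of_nonpos (by linarith) Qp
  have k3 : 0 < (up - um) * (q0 + 66 * (up * (-um))) := by
    apply mul_pos (by linarith)
    have : 0 < up * (-um) := mul_pos hp (by linarith)
    linarith
  nlinarith

/-- The auxiliary quartic has a nonpositive value at a positive point. -/
theorem exists_up (k x y : ℝ) (hx : 0 ≤ x) (hy : 0 ≤ y) (hkx : ¬ (k = 0 ∧ x = 0)) :
    ∃ u : ℝ, 0 < u ∧ 2 * ((u - k) ^ 2 - x) ^ 2 + 32 * u * (u + k) * ((u - k) ^ 2 - x) +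
      32 * u * (u - k) * ((u + k) ^ 2 - y) ≤ 0 := by
  set s := Real.sqrt x with hs
  have hs0 : 0 ≤ s := Real.sqrt_nonneg x
  have hss : s ^ 2 = x := Real.sq_sqrt hx
  rcases le_or_gt (4 * k) s with h | h
  · have hu : 0 < (s - k) / 3 := by
      rcases lt_trichotomy k 0 with h1 | h1 | h1
      · linarith
      · have : 0 < s := by
          rcases hs0.lt_or_eq with h2 | h2
          · exact h2
          · exfalso
            apply hkx
            refine ⟨h1, ?_⟩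
            rw [← hss, ← h2]; ring
        linarith
      · linarith
    refine ⟨(s - k) / 3, hu, ?_⟩
    set u := (s - k) / 3 with hu'
    have e1 : x = (3 * u + k) ^ 2 := by rw [← hss, hu']; ring
    have e2 : 0 ≤ 3 * u + k := by rw [hu']; linarith
    have e3 : 0 ≤ u - k := by rw [hu']; linarith
    rw [e1]
    have e4 : 2 * ((u - k) ^ 2 - (3 * u + k) ^ 2) ^ 2 +
        32 * u * (u + k) * ((u - k) ^ 2 - (3 * u + k) ^ 2) +
        32 * u * (u - k) * ((u + k) ^ 2 - y) =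
        -(32 * u * (u + k) ^ 2 * (3 * u + k)) - 32 * u * (u - k) * y := by ring
    rw [e4]
    have e5 : 0 ≤ 32 * u * (u + k) ^ 2 * (3 * u + k) := by positivity
    have e6 : 0 ≤ 32 * u * (u - k) * y := by positivity
    linarith
  · have hk : 0 < k := by linarith
    refine ⟨k, hk, ?_⟩
    have e1 : x < 16 * k ^ 2 := by
      rw [← hss]; nlinarith
    have e2 : 2 * ((k - k) ^ 2 - x) ^ 2 + 32 * k * (k + k) * ((k - k) ^ 2 - x) +
        32 * k * (k - k) * ((k + k) ^ 2 - y) = 2 * x * (x - 32 * k ^ 2) := by ring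
    rw [e2]
    apply mul_nonpos_of_nonneg_of_nonpos (by linarith)
    nlinarith [sq_nonneg k]

/-- The quartic form `2c²d² + 4 e₁ e₃` is real rooted along `(1,1,1,1)`. -/
theorem vamos_rr (A B C D : ℝ) (τ : ℂ)
    (h : 2 * ((C + τ) * (D + τ)) ^ 2 + 4 * ((A + τ) + (B + τ) + (C + τ) + (D + τ)) *
      ((A + τ) * (B + τ) * ((C + τ) + (D + τ)) + (C + τ) * (D + τ) * ((A + τ) + (B + τ))) = 0) :
    τ.im = 0 := by
  set k : ℝ := ((A + B) - (C + D)) / 2 with hk
  set x : ℝ := (C - D) ^ 2 with hx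
  set y : ℝ := (A - B) ^ 2 with hy
  set w : ℂ := 2 * τ + ((A + B + C + D : ℝ) : ℂ) / 2 with hw
  have hG : 2 * ((w - k) ^ 2 - x) ^ 2 + 32 * w * (w + k) * ((w - k) ^ 2 - x) +
      32 * w * (w - k) * ((w + k) ^ 2 - y) = 0 := by
    have : (2 * ((w - k) ^ 2 - x) ^ 2 + 32 * w * (w + k) * ((w - k) ^ 2 - x) +
      32 * w * (w - k) * ((w + k) ^ 2 - y) : ℂ) = 16 * (2 * ((C + τ) * (D + τ)) ^ 2 +
        4 * ((A + τ) + (B + τ) + (C + τ) + (D + τ)) *
      ((A + τ) * (B + τ) * ((C + τ) + (D + τ)) + (C + τ) * (D + τ) * ((A + τ) + (B + τ)))) := by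
      rw [hw, hk, hx, hy]
      push_cast
      ring
    rw [this, h, mul_zero]
  have hwim : w.im = 2 * τ.im := by
    rw [hw]
    simp [Complex.add_im, Complex.mul_im]
  suffices hw0 : w.im = 0 by linarith
  by_cases hkx : k = 0 ∧ x = 0
  · obtain ⟨h1, h2⟩ := hkx
    rw [h1, h2] at hG
    have h3 : w ^ 2 * (66 * w ^ 2 - 32 * y) = 0 := by
      rw [← hG]; push_cast; ring
    by_contra him
    rcases mul_eq_zero.mp h3 with h4 | h4
    · have h5 : w = 0 := by simpa using h4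
      apply him; rw [h5]; simp
    · have hre := congrArg Complex.re h4
      have hi := congrArg Complex.im h4
      simp [pow_two] at hre hi
      have hw2 : w.re = 0 := by
        have : w.re * w.im = 0 := by linarith
        rcases mul_eq_zero.mp this with h5 | h5
        · exact h5
        · exact absurd h5 him
      rw [hw2] at hre
      have : 0 < w.im * w.im := mul_self_pos.mpr him
      have hy0 : 0 ≤ y := by rw [hy]; positivity
      nlinarith
  · obtain ⟨up, hup, hGp⟩ := exists_up k x y (by rw [hx]; positivity) (by rw [hy]; positivity) hkx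
    obtain ⟨v, hv, hGv⟩ := exists_up (-k) x y (by rw [hx]; positivity) (by rw [hy]; positivity)
      (fun h => hkx ⟨by linarith [h.1], h.2⟩)
    refine quartic (2 * (-4 * k) + 32 * (-k) + 32 * k)
      (2 * (6 * k ^ 2 - 2 * x) + 32 * (-k ^ 2 - x) + 32 * (-k ^ 2 - y))
      (2 * (-4 * k * (k ^ 2 - x)) + 32 * (k * (k ^ 2 - x)) + 32 * (-k * (k ^ 2 - y)))
      (2 * (k ^ 2 - x) ^ 2) w ?_ (-v) up (by linarith) hup ?_ ?_ (by positivity)
    · rw [← hG]; push_cast; ring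
    · refine le_trans (le_of_eq ?_) hGv
      ring
    · refine le_trans (le_of_eq ?_) hGp
      ring

open MvPolynomial in
/-- The polynomial in the variables `x₁, x₂, y`. -/
noncomputable def pP : MvPolynomial (Fin 2 ⊕ Fin 1) ℝ :=
  let a : MvPolynomial (Fin 2 ⊕ Fin 1) ℝ := 1 + X (Sum.inl 0)
  let b : MvPolynomial (Fin 2 ⊕ Fin 1) ℝ := 1 + X (Sum.inl 1)
  let y : MvPolynomial (Fin 2 ⊕ Fin 1) ℝ := X (Sum.inr 0)
  C 2 + C 8 * (a + b) + C 4 * (a * a + C 6 * (a * b) + b * b) + C 8 * (a * b * (a + b)) +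
    y * ((1 + C 2 * a) * (1 + C 2 * b))

open MvPolynomial in
/-- The polynomial in the variables `x₁, x₂, z`. -/
noncomputable def qP : MvPolynomial (Fin 2 ⊕ Fin 1) ℝ :=
  let a : MvPolynomial (Fin 2 ⊕ Fin 1) ℝ := 1 + X (Sum.inl 0)
  let b : MvPolynomial (Fin 2 ⊕ Fin 1) ℝ := 1 + X (Sum.inl 1)
  let c : MvPolynomial (Fin 2 ⊕ Fin 1) ℝ := 1 + X (Sum.inr 0)
  C 2 * (c * c) + C 4 * ((a + b + c + 1) * (a * b * c + a * b + a * c + b * c))

theorem aeval_pP {K : Type} [CommRing K] [Algebra ℝ K] (v : Fin 2 ⊕ Fin 1 → K) :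
    MvPolynomial.aeval v pP = algebraMap ℝ K 2 +
      algebraMap ℝ K 8 * ((1 + v (Sum.inl 0)) + (1 + v (Sum.inl 1))) +
      algebraMap ℝ K 4 * ((1 + v (Sum.inl 0)) * (1 + v (Sum.inl 0)) +
        algebraMap ℝ K 6 * ((1 + v (Sum.inl 0)) * (1 + v (Sum.inl 1))) +
        (1 + v (Sum.inl 1)) * (1 + v (Sum.inl 1))) +
      algebraMap ℝ K 8 * ((1 + v (Sum.inl 0)) * (1 + v (Sum.inl 1)) *
        ((1 + v (Sum.inl 0)) + (1 + v (Sum.inl 1)))) +
      v (Sum.inr 0) * ((1 + algebraMap ℝ K 2 * (1 + v (Sum.inl 0))) *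
        (1 + algebraMap ℝ K 2 * (1 + v (Sum.inl 1)))) := by
  simp only [pP, map_add, map_mul, map_one, MvPolynomial.aeval_X, MvPolynomial.aeval_C]

theorem aeval_qP {K : Type} [CommRing K] [Algebra ℝ K] (v : Fin 2 ⊕ Fin 1 → K) :
    MvPolynomial.aeval v qP = algebraMap ℝ K 2 * ((1 + v (Sum.inr 0)) * (1 + v (Sum.inr 0))) +
      algebraMap ℝ K 4 * (((1 + v (Sum.inl 0)) + (1 + v (Sum.inl 1)) + (1 + v (Sum.inr 0)) + 1) *
        ((1 + v (Sum.inl 0)) * (1 + v (Sum.inl 1)) * (1 + v (Sum.inr 0)) +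
          (1 + v (Sum.inl 0)) * (1 + v (Sum.inl 1)) +
          (1 + v (Sum.inl 0)) * (1 + v (Sum.inr 0)) +
          (1 + v (Sum.inl 1)) * (1 + v (Sum.inr 0)))) := by
  simp only [qP, map_add, map_mul, map_one, MvPolynomial.aeval_X, MvPolynomial.aeval_C]

theorem realZero_qP : RealZero qP := by
  intro v l h
  rw [aeval_qP] at h
  by_cases hl : l = 0
  · rw [hl]; simp
  have h1 := vamos_rr (v (Sum.inl 0)) (v (Sum.inl 1)) (v (Sum.inr 0)) 0 l⁻¹ (by
    have h4 : l ^ 4 ≠ 0 := pow_ne_zero _ hl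
    apply mul_left_cancel₀ h4
    rw [mul_zero, ← h]
    have h2 : (algebraMap ℝ ℂ) 2 = 2 := by simp
    have h3 : (algebraMap ℝ ℂ) 4 = 4 := by simp
    rw [h2, h3]
    push_cast
    field_simp
    ring)
  rw [Complex.inv_im, div_eq_zero_iff] at h1
  rcases h1 with h1 | h1
  · simpa using h1
  · exact absurd (Complex.normSq_eq_zero.mp h1) hl

theorem realZero_pP : RealZero pP := by
  intro v l h
  rw [aeval_pP] at h
  set x1 : ℝ := v (Sum.inl 0)
  set x2 : ℝ := v (Sum.inl 1)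
  set y : ℝ := v (Sum.inr 0)
  have h2 : (algebraMap ℝ ℂ) 2 = 2 := by simp
  have h4 : (algebraMap ℝ ℂ) 4 = 4 := by simp
  have h6 : (algebraMap ℝ ℂ) 6 = 6 := by simp
  have h8 : (algebraMap ℝ ℂ) 8 = 8 := by simp
  rw [h2, h4, h6, h8] at h
  set M : Matrix (Fin 3) (Fin 3) ℂ :=
    !![1 + 2 * (1 + l * x1), 0, 2 * (1 + l * x1);
       0, 1 + 2 * (1 + l * x2), 2 * (1 + l * x2);
       2 * (1 + l * x1), 2 * (1 + l * x2),
        2 + 4 * (1 + l * x1) + 4 * (1 + l * x2) + l * y] with hM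
  have hdet : M.det = 0 := by
    rw [← h, hM, Matrix.det_fin_three]
    simp
    ring
  obtain ⟨w, hw, hMw⟩ := Matrix.exists_mulVec_eq_zero_iff.mpr hdet
  have e0 := congrFun hMw 0
  have e1 := congrFun hMw 1
  have e2 := congrFun hMw 2
  simp only [hM, Matrix.mulVec, dotProduct, Fin.sum_univ_three, Pi.zero_apply, Matrix.of_apply,
    Matrix.cons_val', Matrix.cons_val_zero, Matrix.cons_val_one, Matrix.cons_val,
    Matrix.cons_val_fin_one] at e0 e1 e2
  set P0 : ℝ := 3 * ((w 0).re ^ 2 + (w 0).im ^ 2) + 3 * ((w 1).re ^ 2 + (w 1).im ^ 2) +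
    10 * ((w 2).re ^ 2 + (w 2).im ^ 2) + 4 * ((w 0).re * (w 2).re + (w 0).im * (w 2).im) +
    4 * ((w 1).re * (w 2).re + (w 1).im * (w 2).im) with hP0
  set N0 : ℝ := 2 * x1 * ((w 0).re ^ 2 + (w 0).im ^ 2) + 2 * x2 * ((w 1).re ^ 2 + (w 1).im ^ 2) +
    (4 * x1 + 4 * x2 + y) * ((w 2).re ^ 2 + (w 2).im ^ 2) +
    4 * x1 * ((w 0).re * (w 2).re + (w 0).im * (w 2).im) +
    4 * x2 * ((w 1).re * (w 2).re + (w 1).im * (w 2).im) with hN0
  have hid : (P0 : ℂ) + l * N0 = 0 := by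
    have hc : (P0 : ℂ) + l * N0 =
        (starRingEnd ℂ) (w 0) * ((1 + 2 * (1 + l * x1)) * w 0 + 0 * w 1 +
          2 * (1 + l * x1) * w 2) +
        (starRingEnd ℂ) (w 1) * (0 * w 0 + (1 + 2 * (1 + l * x2)) * w 1 +
          2 * (1 + l * x2) * w 2) +
        (starRingEnd ℂ) (w 2) * (2 * (1 + l * x1) * w 0 + 2 * (1 + l * x2) * w 1 +
          (2 + 4 * (1 + l * x1) + 4 * (1 + l * x2) + l * y) * w 2) := by
      rw [hP0, hN0]
      apply Complex.ext
      · simp [pow_two]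
        ring
      · simp [pow_two]
        ring
    rw [hc, e0, e1, e2]
    simp
  have hre := congrArg Complex.re hid
  have him := congrArg Complex.im hid
  simp at hre him
  rcases him with him | him
  · exact him
  · exfalso
    rw [him] at hre
    have hP : P0 = 0 := by linarith
    have hpos : P0 = ((w 0).re ^ 2 + (w 0).im ^ 2) + ((w 1).re ^ 2 + (w 1).im ^ 2) +
        6 * ((w 2).re ^ 2 + (w 2).im ^ 2) +
        2 * (((w 0).re + (w 2).re) ^ 2 + ((w 0).im + (w 2).im) ^ 2) +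
        2 * (((w 1).re + (w 2).re) ^ 2 + ((w 1).im + (w 2).im) ^ 2) := by
      rw [hP0]; ring
    apply hw
    rw [hP] at hpos
    have p0 := add_nonneg (sq_nonneg (w 0).re) (sq_nonneg (w 0).im)
    have p1 := add_nonneg (sq_nonneg (w 1).re) (sq_nonneg (w 1).im)
    have p2 := add_nonneg (sq_nonneg (w 2).re) (sq_nonneg (w 2).im)
    have p3 := add_nonneg (sq_nonneg ((w 0).re + (w 2).re)) (sq_nonneg ((w 0).im + (w 2).im))
    have p4 := add_nonneg (sq_nonneg ((w 1).re + (w 2).re)) (sq_nonneg ((w 1).im + (w 2).im))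
    have z0 : (w 0).re ^ 2 + (w 0).im ^ 2 = 0 := by linarith
    have z1 : (w 1).re ^ 2 + (w 1).im ^ 2 = 0 := by linarith
    have z2 : (w 2).re ^ 2 + (w 2).im ^ 2 = 0 := by linarith
    have hz : ∀ c : ℂ, c.re ^ 2 + c.im ^ 2 = 0 → c = 0 := by
      intro c hc
      have k1 : c.re ^ 2 = 0 := by linarith [sq_nonneg c.re, sq_nonneg c.im]
      have k2 : c.im ^ 2 = 0 := by linarith [sq_nonneg c.re, sq_nonneg c.im]
      exact Complex.ext (by simpa using k1) (by simpa using k2)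
    funext i
    fin_cases i
    · exact hz _ z0
    · exact hz _ z1
    · exact hz _ z2

theorem td_mul {σ : Type} {f g : MvPolynomial σ ℝ} {m n : ℕ} (hf : f.totalDegree ≤ m)
    (hg : g.totalDegree ≤ n) : (f * g).totalDegree ≤ m + n :=
  (MvPolynomial.totalDegree_mul f g).trans (add_le_add hf hg)

theorem td_add {σ : Type} {f g : MvPolynomial σ ℝ} {m : ℕ} (hf : f.totalDegree ≤ m)
    (hg : g.totalDegree ≤ m) : (f + g).totalDegree ≤ m :=
  (MvPolynomial.totalDegree_add f g).trans (max_le hf hg)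

theorem td_C {σ : Type} (c : ℝ) (m : ℕ) : (MvPolynomial.C c : MvPolynomial σ ℝ).totalDegree ≤ m := by
  rw [MvPolynomial.totalDegree_C]; exact Nat.zero_le _

theorem td_one {σ : Type} (m : ℕ) : (1 : MvPolynomial σ ℝ).totalDegree ≤ m := by
  rw [MvPolynomial.totalDegree_one]; exact Nat.zero_le _

theorem td_X {σ : Type} (i : σ) (m : ℕ) (hm : 1 ≤ m) :
    (MvPolynomial.X i : MvPolynomial σ ℝ).totalDegree ≤ m := by
  rw [MvPolynomial.totalDegree_X]; exact hm

theorem td_var {σ : Type} (i : σ) (m : ℕ) (hm : 1 ≤ m) :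
    (1 + MvPolynomial.X i : MvPolynomial σ ℝ).totalDegree ≤ m :=
  td_add (td_one m) (td_X i m hm)

theorem td_pP : pP.totalDegree ≤ 4 := by
  have v0 := td_var (Sum.inl 0 : Fin 2 ⊕ Fin 1) 1 le_rfl
  have v1 := td_var (Sum.inl 1 : Fin 2 ⊕ Fin 1) 1 le_rfl
  have x0 := td_X (Sum.inr 0 : Fin 2 ⊕ Fin 1) 1 le_rfl
  have l0 : (1 + MvPolynomial.C 2 * (1 + MvPolynomial.X (Sum.inl 0)) :
      MvPolynomial (Fin 2 ⊕ Fin 1) ℝ).totalDegree ≤ 1 :=
    td_add (td_one 1) ((td_mul (td_C 2 0) v0).trans (by norm_num))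
  have l1 : (1 + MvPolynomial.C 2 * (1 + MvPolynomial.X (Sum.inl 1)) :
      MvPolynomial (Fin 2 ⊕ Fin 1) ℝ).totalDegree ≤ 1 :=
    td_add (td_one 1) ((td_mul (td_C 2 0) v1).trans (by norm_num))
  unfold pP
  refine td_add (td_add (td_add (td_add (td_C _ _) ?_) ?_) ?_) ?_
  · exact (td_mul (td_C _ 0) (td_add v0 v1)).trans (by norm_num)
  · refine (td_mul (td_C _ 0) (td_add (m := 2) (td_add (td_mul v0 v0) ?_) (td_mul v1 v1))).trans
      (by norm_num)
    exact (td_mul (td_C _ 0) (td_mul v0 v1)).trans (by norm_num)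
  · exact (td_mul (td_C _ 0) (td_mul (td_mul v0 v1) (td_add v0 v1))).trans (by norm_num)
  · exact (td_mul x0 (td_mul l0 l1)).trans (by norm_num)

theorem td_qP : qP.totalDegree ≤ 4 := by
  have v0 := td_var (Sum.inl 0 : Fin 2 ⊕ Fin 1) 1 le_rfl
  have v1 := td_var (Sum.inl 1 : Fin 2 ⊕ Fin 1) 1 le_rfl
  have v2 := td_var (Sum.inr 0 : Fin 2 ⊕ Fin 1) 1 le_rfl
  unfold qP
  refine td_add ?_ ?_
  · exact (td_mul (td_C _ 0) (td_mul v2 v2)).trans (by norm_num)
  · refine (td_mul (td_C _ 0) (td_mul (m := 1) (n := 3)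
      (td_add (td_add (td_add v0 v1) v2) (td_one 1)) ?_)).trans (by norm_num)
    exact td_add (td_add (td_add (td_mul (td_mul v0 v1) v2)
      ((td_mul v0 v1).trans (by norm_num))) ((td_mul v0 v2).trans (by norm_num)))
      ((td_mul v1 v2).trans (by norm_num))

theorem restr_eq : (MvPolynomial.aeval (Sum.elim MvPolynomial.X 0) pP : MvPolynomial (Fin 2) ℝ) =
    MvPolynomial.aeval (Sum.elim MvPolynomial.X 0) qP := by
  rw [aeval_pP, aeval_qP]
  simp only [Sum.elim_inl, Sum.elim_inr, Pi.zero_apply, map_ofNat]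
  ring

end Pool.Agent.X38.RZ
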