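import Mathlib
import Pool.Agent.X38.RZ4

namespace Pool.Agent.X38.RZ

open MvPolynomial

section
variable {σ : Type} [Fintype σ]

/-- The restriction of the homogenization to a three-dimensional space is a ternary quartic. -/
theorem hom4_tern' (r : MvPolynomial σ ℝ) (hr : r.totalDegree ≤ 4) (t0 t1 t2 : ℝ)
    (x0 x1 x2 : σ → ℝ) :
    ∃ c : ℕ → ℕ → ℝ, ∀ s θ y : ℝ,
      hom4 r (s * t0 + θ * t1 + y * t2) (fun i => s * x0 i + θ * x1 i + y * x2 i) =
      ∑ p ∈ (Finset.range 5 ×ˢ Finset.range 5).filter (fun p => p.1 + p.2 ≤ 4),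
        c p.1 p.2 * (s ^ (4 - p.1 - p.2) * θ ^ p.1 * y ^ p.2) := by
  have hlin : ∀ a b c : ℝ,
      (X 0 * C a + X 1 * C b + X 2 * C c : MvPolynomial (Fin 3) ℝ).IsHomogeneous 1 := by
    intro a b c
    have h : ∀ (i : Fin 3) (a : ℝ), (X i * C a : MvPolynomial (Fin 3) ℝ).IsHomogeneous 1 := by
      intro i a
      have := (MvPolynomial.isHomogeneous_X ℝ i).mul (MvPolynomial.isHomogeneous_C (Fin 3) a)
      simpa using this
    exact ((h 0 a).add (h 1 b)).add (h 2 c)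
  obtain ⟨c, hc⟩ := tern (hom4_homog r hr (X 0 * C t0 + X 1 * C t1 + X 2 * C t2)
    (fun i => X 0 * C (x0 i) + X 1 * C (x1 i) + X 2 * C (x2 i)) (hlin _ _ _)
    (fun i => hlin _ _ _))
  refine ⟨c, fun s θ y => ?_⟩
  rw [← hc]
  have h := hom4_map r (MvPolynomial.aeval ![s, θ, y] : MvPolynomial (Fin 3) ℝ →ₐ[ℝ] ℝ)
    (X 0 * C t0 + X 1 * C t1 + X 2 * C t2)
    (fun i => X 0 * C (x0 i) + X 1 * C (x1 i) + X 2 * C (x2 i))
  have e1 : ∀ P : MvPolynomial (Fin 3) ℝ, eval ![s, θ, y] P = aeval ![s, θ, y] P := fun P => rfl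
  rw [e1, h]
  simp [MvPolynomial.aeval_def]

theorem sum15 (f : ℕ × ℕ → ℝ) :
    ∑ p ∈ (Finset.range 5 ×ˢ Finset.range 5).filter (fun p => p.1 + p.2 ≤ 4), f p =
    f (0, 0) + f (0, 1) + f (0, 2) + f (0, 3) + f (0, 4) + f (1, 0) + f (1, 1) + f (1, 2) +
    f (1, 3) + f (2, 0) + f (2, 1) + f (2, 2) + f (3, 0) + f (3, 1) + f (4, 0) := by
  rw [Finset.sum_filter, Finset.sum_product]
  simp [Finset.sum_range_succ]
  ring

end

/-- Index set of the variables `x₁, x₂, y, z`. -/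
abbrev S4 := Fin 2 ⊕ (Fin 1 ⊕ Fin 1)

/-- The point with coordinates `x₁, x₂, y, z`. -/
def pt (x1 x2 y z : ℝ) : S4 → ℝ := Sum.elim ![x1, x2] (Sum.elim (fun _ => y) (fun _ => z))

theorem pt_add_mul (s x1 x2 y z u1 u2 v w : ℝ) :
    (fun i => pt x1 x2 y z i + s * pt u1 u2 v w i) =
      pt (x1 + s * u1) (x2 + s * u2) (y + s * v) (z + s * w) := by
  funext i
  rcases i with i | i | i
  · fin_cases i <;> simp [pt]
  · simp [pt]
  · simp [pt]

theorem pt_mul (s x1 x2 y z : ℝ) :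
    (fun i => s * pt x1 x2 y z i) = pt (s * x1) (s * x2) (s * y) (s * z) := by
  funext i
  rcases i with i | i | i
  · fin_cases i <;> simp [pt]
  · simp [pt]
  · simp [pt]

/-- The homogenization in adapted coordinates. -/
noncomputable def GG (r : MvPolynomial S4 ℝ) (a b Y c d : ℝ) : ℝ :=
  hom4 r d (pt (a - d) (b - d) (Y - 2 * a - 2 * b) (c - d))

theorem hom4_pt (r : MvPolynomial S4 ℝ) (t x1 x2 y z : ℝ) :
    hom4 r t (pt x1 x2 y z) = ∑ m ∈ r.support, r.coeff m * (t ^ (4 - ∑ i, m i) *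
      ((x1 ^ m (Sum.inl 0) * x2 ^ m (Sum.inl 1)) *
        (y ^ m (Sum.inr (Sum.inl 0)) * z ^ m (Sum.inr (Sum.inr 0))))) := by
  unfold hom4
  refine Finset.sum_congr rfl fun m _ => ?_
  rw [Fintype.prod_sum_type, Fintype.prod_sum_type]
  simp [pt]

/-- Extension of an identity to `d = 0`. -/
theorem ext_zero {f g : ℝ → ℝ} (hf : Continuous f) (hg : Continuous g)
    (h : ∀ d, d ≠ 0 → f d = g d) (d : ℝ) : f d = g d := by
  have := Continuous.ext_on (dense_compl_singleton (0 : ℝ)) hf hg (fun d hd => h d hd)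
  rw [this]

theorem GP {r : MvPolynomial S4 ℝ} (hr : r.totalDegree ≤ 4)
    (hp : aeval (Sum.elim (fun i => X (Sum.inl i)) (Sum.elim (fun j => X (Sum.inr j)) 0)) r = pP)
    (a b Y d : ℝ) :
    GG r a b Y d d = d * (2 * d ^ 3 + 8 * (a + b) * d ^ 2 + 4 * (a ^ 2 + 6 * (a * b) + b ^ 2) * d +
      8 * (a * b) * (a + b) + (Y - 2 * a - 2 * b) * ((d + 2 * a) * (d + 2 * b))) := by
  refine ext_zero (f := fun d => GG r a b Y d d) (g := fun d => d * (2 * d ^ 3 +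
    8 * (a + b) * d ^ 2 + 4 * (a ^ 2 + 6 * (a * b) + b ^ 2) * d +
      8 * (a * b) * (a + b) + (Y - 2 * a - 2 * b) * ((d + 2 * a) * (d + 2 * b)))) ?_ ?_ ?_ d
  · simp only [GG, hom4_pt]
    fun_prop
  · fun_prop
  · intro d hd
    simp only [GG]
    rw [hom4_eq hr hd, pt_mul]
    have h1 : pt (d⁻¹ * (a - d)) (d⁻¹ * (b - d)) (d⁻¹ * (Y - 2 * a - 2 * b)) (d⁻¹ * (d - d)) =
        fun i => aeval (Sum.elim ![d⁻¹ * (a - d), d⁻¹ * (b - d)]
          (fun _ => d⁻¹ * (Y - 2 * a - 2 * b)) : Fin 2 ⊕ Fin 1 → ℝ)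
          ((Sum.elim (fun i => X (Sum.inl i)) (Sum.elim (fun j => X (Sum.inr j)) 0) :
            S4 → MvPolynomial (Fin 2 ⊕ Fin 1) ℝ) i) := by
      funext i
      rcases i with i | i | i
      · fin_cases i <;> simp [pt]
      · simp [pt]
      · simp [pt]
    rw [h1, ← MvPolynomial.comp_aeval_apply, hp, aeval_pP]
    simp only [Sum.elim_inl, Sum.elim_inr, Matrix.cons_val_zero, Matrix.cons_val_one,
      Algebra.algebraMap_self, RingHom.id_apply]
    field_simp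
    ring

theorem GQ {r : MvPolynomial S4 ℝ} (hr : r.totalDegree ≤ 4)
    (hq : aeval (Sum.elim (fun i => X (Sum.inl i)) (Sum.elim 0 (fun j => X (Sum.inr j)))) r = qP)
    (a b c d : ℝ) :
    GG r a b (2 * a + 2 * b) c d = 2 * (c * d) ^ 2 + 4 * ((a + b + c + d) *
      (a * b * c + a * b * d + a * c * d + b * c * d)) := by
  refine ext_zero (f := fun d => GG r a b (2 * a + 2 * b) c d) (g := fun d => 2 * (c * d) ^ 2 +
    4 * ((a + b + c + d) * (a * b * c + a * b * d + a * c * d + b * c * d))) ?_ ?_ ?_ d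
  · simp only [GG, hom4_pt]
    fun_prop
  · fun_prop
  · intro d hd
    simp only [GG]
    rw [hom4_eq hr hd, pt_mul]
    have h1 : pt (d⁻¹ * (a - d)) (d⁻¹ * (b - d)) (d⁻¹ * (2 * a + 2 * b - 2 * a - 2 * b))
        (d⁻¹ * (c - d)) =
        fun i => aeval (Sum.elim ![d⁻¹ * (a - d), d⁻¹ * (b - d)]
          (fun _ => d⁻¹ * (c - d)) : Fin 2 ⊕ Fin 1 → ℝ)
          ((Sum.elim (fun i => X (Sum.inl i)) (Sum.elim 0 (fun j => X (Sum.inr j))) :
            S4 → MvPolynomial (Fin 2 ⊕ Fin 1) ℝ) i) := by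
      funext i
      rcases i with i | i | i
      · fin_cases i <;> simp [pt]
      · simp [pt]
      · simp [pt]
    rw [h1, ← MvPolynomial.comp_aeval_apply, hq, aeval_qP]
    simp only [Sum.elim_inl, Sum.elim_inr, Matrix.cons_val_zero, Matrix.cons_val_one,
      Algebra.algebraMap_self, RingHom.id_apply]
    field_simp
    ring

/-- Affine functions of one variable are determined by two values. -/
theorem aff {F : ℝ → ℝ} (h : ∃ m0 m1 : ℝ, ∀ y, F y = m0 + m1 * y) (y : ℝ) :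
    F y = F 0 + (F 1 - F 0) * y := by
  obtain ⟨m0, m1, h⟩ := h
  rw [h y, h 0, h 1]
  ring

section
variable {r : MvPolynomial S4 ℝ} (hz : RealZero r) (hr : r.totalDegree ≤ 4)
  (hp : aeval (Sum.elim (fun i => X (Sum.inl i)) (Sum.elim (fun j => X (Sum.inr j)) 0)) r = pP)
  (hq : aeval (Sum.elim (fun i => X (Sum.inl i)) (Sum.elim 0 (fun j => X (Sum.inr j)))) r = qP)

include hz hr hp

theorem affY (a b c d Y : ℝ) :
    GG r a b Y c d = GG r a b 0 c d + (GG r a b 1 c d - GG r a b 0 c d) * Y := by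
  refine aff (F := fun Y => GG r a b Y c d) ?_ Y
  obtain ⟨m0, m1, hm⟩ := rankOne hz hr 0 (pt 0 0 1 0) 9 (by norm_num) (fun θ y => by
    have h := GP hr hp θ θ (y + 4 * θ) θ
    rw [pt_mul]
    have e : GG r θ θ (y + 4 * θ) θ θ = hom4 r (θ + y * 0) (pt (y * 0) (y * 0) (y * 1) (y * 0)) := by
      unfold GG
      congr 1
      · ring
      · congr 1 <;> ring
    rw [← e, h]
    ring) d (pt (a - d) (b - d) (-2 * a - 2 * b) (c - d))
  refine ⟨m0, m1, fun y => ?_⟩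
  rw [← hm y, pt_add_mul]
  simp only [GG]
  congr 1
  · ring
  · congr 1 <;> ring

theorem affa (a b c d Y : ℝ) :
    GG r a b Y c d = GG r 0 b Y c d + (GG r 1 b Y c d - GG r 0 b Y c d) * a := by
  refine aff (F := fun a => GG r a b Y c d) ?_ a
  obtain ⟨m0, m1, hm⟩ := rankOne hz hr 0 (pt 1 0 (-2) 0) 46 (by norm_num) (fun θ y => by
    have h := GP hr hp (θ + y) θ (4 * θ) θ
    rw [pt_mul]
    have e : GG r (θ + y) θ (4 * θ) θ θ =
        hom4 r (θ + y * 0) (pt (y * 1) (y * 0) (y * (-2)) (y * 0)) := by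
      unfold GG
      congr 1
      · ring
      · congr 1 <;> ring
    rw [← e, h]
    ring) d (pt (- d) (b - d) (Y - 2 * b) (c - d))
  refine ⟨m0, m1, fun y => ?_⟩
  rw [← hm y, pt_add_mul]
  simp only [GG]
  congr 1
  · ring
  · congr 1 <;> ring

theorem affb (a b c d Y : ℝ) :
    GG r a b Y c d = GG r a 0 Y c d + (GG r a 1 Y c d - GG r a 0 Y c d) * b := by
  refine aff (F := fun b => GG r a b Y c d) ?_ b
  obtain ⟨m0, m1, hm⟩ := rankOne hz hr 0 (pt 0 1 (-2) 0) 46 (by norm_num) (fun θ y => by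
    have h := GP hr hp θ (θ + y) (4 * θ) θ
    rw [pt_mul]
    have e : GG r θ (θ + y) (4 * θ) θ θ =
        hom4 r (θ + y * 0) (pt (y * 0) (y * 1) (y * (-2)) (y * 0)) := by
      unfold GG
      congr 1
      · ring
      · congr 1 <;> ring
    rw [← e, h]
    ring) d (pt (a - d) (- d) (Y - 2 * a) (c - d))
  refine ⟨m0, m1, fun y => ?_⟩
  rw [← hm y, pt_add_mul]
  simp only [GG]
  congr 1
  · ring
  · congr 1 <;> ring

include hq

theorem form (c d : ℝ) : ∃ g : ℝ, ∀ a b Y : ℝ, GG r a b Y c d =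
    4 * (c + d) ^ 2 * a * b + 2 * (c * d) * (a + b) * Y + 2 * (c + d) * a * b * Y +
      (4 * (c * d) * (c + d) - 2 * g) * (a + b) + g * Y + 2 * (c * d) ^ 2 := by
  have h : ∃ m0 ma mb mY mab maY mbY mabY : ℝ, ∀ a b Y : ℝ, GG r a b Y c d =
      m0 + ma * a + mb * b + mY * Y + mab * (a * b) + maY * (a * Y) + mbY * (b * Y) +
        mabY * (a * b * Y) := by
    refine ⟨GG r 0 0 0 c d, GG r 1 0 0 c d - GG r 0 0 0 c d, GG r 0 1 0 c d - GG r 0 0 0 c d,
      GG r 0 0 1 c d - GG r 0 0 0 c d,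
      GG r 1 1 0 c d - GG r 1 0 0 c d - GG r 0 1 0 c d + GG r 0 0 0 c d,
      GG r 1 0 1 c d - GG r 1 0 0 c d - GG r 0 0 1 c d + GG r 0 0 0 c d,
      GG r 0 1 1 c d - GG r 0 1 0 c d - GG r 0 0 1 c d + GG r 0 0 0 c d,
      GG r 1 1 1 c d - GG r 1 1 0 c d - GG r 1 0 1 c d - GG r 0 1 1 c d +
        GG r 1 0 0 c d + GG r 0 1 0 c d + GG r 0 0 1 c d - GG r 0 0 0 c d, fun a b Y => ?_⟩
    rw [affa hz hr hp a b c d Y, affb hz hr hp 0 b c d Y, affb hz hr hp 1 b c d Y,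
      affY hz hr hp 0 0 c d Y, affY hz hr hp 0 1 c d Y, affY hz hr hp 1 0 c d Y,
      affY hz hr hp 1 1 c d Y]
    ring
  obtain ⟨m0, ma, mb, mY, mab, maY, mbY, mabY, h⟩ := h
  have H : ∀ a b : ℝ, m0 + ma * a + mb * b + mY * (2 * a + 2 * b) + mab * (a * b) +
      maY * (a * (2 * a + 2 * b)) + mbY * (b * (2 * a + 2 * b)) +
        mabY * (a * b * (2 * a + 2 * b)) = 2 * (c * d) ^ 2 + 4 * ((a + b + c + d) *
      (a * b * c + a * b * d + a * c * d + b * c * d)) := by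
    intro a b
    rw [← h, GQ hr hq]
  have k00 := H 0 0
  have k10 := H 1 0
  have kn0 := H (-1) 0
  have k01 := H 0 1
  have k0n := H 0 (-1)
  have k11 := H 1 1
  have knn := H (-1) (-1)
  refine ⟨mY, fun a b Y => ?_⟩
  have e0 : m0 = 2 * (c * d) ^ 2 := by linarith
  have eaY : maY = 2 * (c * d) := by linarith
  have ebY : mbY = 2 * (c * d) := by linarith
  have ea : ma = 4 * (c * d) * (c + d) - 2 * mY := by linarith
  have eb : mb = 4 * (c * d) * (c + d) - 2 * mY := by linarith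
  have eab : mab = 4 * (c + d) ^ 2 := by linarith
  have eabY : mabY = 2 * (c + d) := by linarith
  rw [h, e0, eaY, ebY, ea, eb, eab, eabY]
  ring

theorem cubic : ∃ α β γ δ : ℝ, α + β + γ + δ = 1 ∧ ∀ a b Y c d : ℝ, GG r a b Y c d =
    4 * (c + d) ^ 2 * a * b + 2 * (c * d) * (a + b) * Y + 2 * (c + d) * a * b * Y +
      (4 * (c * d) * (c + d) - 2 * (α * c ^ 3 + β * c ^ 2 * d + γ * c * d ^ 2 + δ * d ^ 3)) *
        (a + b) + (α * c ^ 3 + β * c ^ 2 * d + γ * c * d ^ 2 + δ * d ^ 3) * Y +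
        2 * (c * d) ^ 2 := by
  obtain ⟨k, hk⟩ := hom4_tern' r hr 0 1 0 (pt 0 0 0 1) (pt (-1) (-1) 0 (-1)) (pt 0 0 1 0)
  have hk' : ∀ c d Y : ℝ, GG r 0 0 Y c d =
      k 0 0 * c ^ 4 + k 0 1 * c ^ 3 * Y + k 0 2 * c ^ 2 * Y ^ 2 + k 0 3 * c * Y ^ 3 +
      k 0 4 * Y ^ 4 + k 1 0 * c ^ 3 * d + k 1 1 * c ^ 2 * d * Y + k 1 2 * c * d * Y ^ 2 +
      k 1 3 * d * Y ^ 3 + k 2 0 * c ^ 2 * d ^ 2 + k 2 1 * c * d ^ 2 * Y +
      k 2 2 * d ^ 2 * Y ^ 2 + k 3 0 * c * d ^ 3 + k 3 1 * d ^ 3 * Y + k 4 0 * d ^ 4 := by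
    intro c d Y
    have h1 : GG r 0 0 Y c d = hom4 r (c * 0 + d * 1 + Y * 0)
        (fun i => c * pt 0 0 0 1 i + d * pt (-1) (-1) 0 (-1) i + Y * pt 0 0 1 0 i) := by
      unfold GG
      congr 1
      · ring
      · funext i
        rcases i with i | i | i
        · fin_cases i <;> simp [pt]
        · simp [pt]
        · simp [pt]; ring
    rw [h1, hk, sum15]
    norm_num
    ring
  have hg : ∀ c d g : ℝ, (∀ a b Y : ℝ, GG r a b Y c d =
    4 * (c + d) ^ 2 * a * b + 2 * (c * d) * (a + b) * Y + 2 * (c + d) * a * b * Y +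
      (4 * (c * d) * (c + d) - 2 * g) * (a + b) + g * Y + 2 * (c * d) ^ 2) →
      g = k 0 1 * c ^ 3 + k 1 1 * c ^ 2 * d + k 2 1 * c * d ^ 2 + k 3 1 * d ^ 3 := by
    intro c d g hg
    have h1 := hg 0 0 1
    have h2 := hg 0 0 (-1)
    have h3 := hg 0 0 2
    have h4 := hg 0 0 (-2)
    rw [hk'] at h1 h2 h3 h4
    linarith
  refine ⟨k 0 1, k 1 1, k 2 1, k 3 1, ?_, fun a b Y c d => ?_⟩
  · obtain ⟨g, h⟩ := form hz hr hp hq 1 1
    have h1 := hg 1 1 g h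
    have h2 := h 0 0 1
    rw [GP hr hp] at h2
    linarith
  · obtain ⟨g, h⟩ := form hz hr hp hq c d
    have h1 := hg c d g h
    rw [h a b Y, h1]

theorem contradiction : False := by
  obtain ⟨α, β, γ, δ, hs, hF⟩ := cubic hz hr hp hq
  have hI : ∀ a b Y c d A0 A1 A2 A3 A4 : ℝ, (∀ θ : ℝ,
      GG r (a + θ) (b + θ) (Y + 4 * θ) (c + θ) (d + θ) =
        A0 + A1 * θ + A2 * θ ^ 2 + A3 * θ ^ 3 + A4 * θ ^ 4) → 0 ≤ A1 ^ 2 - 2 * A0 * A2 := by
    intro a b Y c d A0 A1 A2 A3 A4 h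
    have h1 := (ineqs hz hr d (pt (a - d) (b - d) (Y - 2 * a - 2 * b) (c - d)) A0 A1 A2 A3 A4
      (fun θ => by
        rw [← h θ]
        unfold GG
        congr 1
        congr 1 <;> ring) 0).1
    linarith
  have hα : α = 0 := by
    have := L1 (b := -28 * α) (c := -12 * α + 2 * α * β - 2 * α * γ + 3 * α ^ 2 + β ^ 2) (d := 0)
      (e := 0) (fun η => by
      have := hI 0 0 η 1 0 (α * η) (3 * α * η + β * η)
        (14 + 6 * η + 3 * α * η + 2 * β * η + γ * η)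
        (68 + 8 * η + α * η + β * η + δ * η + γ * η) 66 (fun θ => by rw [hF]; ring)
      linarith)
    linarith
  have hδ : δ = 0 := by
    have := L1 (b := -28 * δ) (c := -12 * δ - 2 * β * δ + 2 * δ * γ + 3 * δ ^ 2 + γ ^ 2) (d := 0)
      (e := 0) (fun η => by
      have := hI 0 0 η 0 1 (δ * η) (3 * δ * η + γ * η)
        (14 + 6 * η + β * η + 3 * δ * η + 2 * γ * η)
        (68 + 8 * η + α * η + β * η + δ * η + γ * η) 66 (fun θ => by rw [hF]; ring)
      linarith)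
    linarith
  subst hα hδ
  have hβ : β = γ := by
    have := L1 (b := -256 * β + 256 * γ) (c := 896 - 256 * β - 256 * γ - 32 * β * γ + 48 * β ^ 2 +
      48 * γ ^ 2) (d := 304 * β - 304 * γ) (e := 144) (fun ε => by
      rcases eq_or_ne ε 0 with rfl | hε
      · simp
      have := hI 1 1 0 ε (-ε) (4 * β * ε ^ 3 - 4 * γ * ε ^ 3 + 2 * ε ^ 4)
        (-32 * ε ^ 2 + 4 * β * ε ^ 2 + 4 * γ * ε ^ 2)
        (32 - 4 * β * ε + 4 * γ * ε - 36 * ε ^ 2)
        (96 - 4 * β - 4 * γ) 66 (fun θ => by rw [hF]; ring)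
      have e1 : (-256 * β + 256 * γ) * ε + (896 - 256 * β - 256 * γ - 32 * β * γ + 48 * β ^ 2 +
          48 * γ ^ 2) * ε ^ 2 + (304 * β - 304 * γ) * ε ^ 3 + 144 * ε ^ 4 =
          ((-32 * ε ^ 2 + 4 * β * ε ^ 2 + 4 * γ * ε ^ 2) ^ 2 -
            2 * (4 * β * ε ^ 3 - 4 * γ * ε ^ 3 + 2 * ε ^ 4) *
            (32 - 4 * β * ε + 4 * γ * ε - 36 * ε ^ 2)) / ε ^ 2 := by
        field_simp
        ring
      rw [e1]
      positivity)
    linarith
  have hβ2 : β = 1 / 2 := by linarith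
  have hγ2 : γ = 1 / 2 := by linarith
  subst hβ2
  have := hI (-2) (-2) 1 (-3) 1 21 (-29) 365 (-311) 66 (fun θ => by rw [hF, hγ2]; ring)
  norm_num at this

end

end Pool.Agent.X38.RZ
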