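import Mathlib

set_option autoImplicit false

/-!
# A chaotic, mixing and frequently hypercyclic operator without the Frequent Hypercyclicity Criterion

`X` is the Frechet space of real sequences `x` (the closure of the finite sequences) for which
`(a_i (x_(J i + k) - x_(J (i+1) + k)))_i` is absolutely summable for every `k`, where
`a_i = 1 / (i + 1)` and `J` is very lacunary with `J i` dividing `J (i + 1)`; `T` is the backward
shift.  The finite vectors are dense, periodic sequences are in `X`, a Toeplitz type sequence is a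
frequently hypercyclic vector; for a vector with an unconditionally summable backward orbit the
sums over the times `J i`, `i` even, are unbounded.
-/

namespace Pool.Agent.X38.FHC

open Filter Topology

/-- The lacunary sequence `J`. -/
def J : ℕ → ℕ
  | 0 => 16
  | (l + 1) => (J l) ^ 4

abbrev L1 := lp (fun _ : ℕ => ℝ) 1

abbrev P := (ℕ → ℝ) × (ℕ → L1)

noncomputable def al (i : ℕ) : ℝ := 1 / ((i : ℝ) + 1)

lemma al_pos (i : ℕ) : 0 < al i := by unfold al; positivity

lemma al_tendsto : Tendsto al atTop (𝓝 0) := tendsto_one_div_add_atTop_nhds_zero_nat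

/-- Sequences that are eventually constant along each `J i + k`. -/
def EC (x : ℕ → ℝ) : Prop := ∀ k, ∃ c, ∀ᶠ i in atTop, x (J i + k) = c

noncomputable def wf (x : ℕ → ℝ) (k i : ℕ) : ℝ := al i * (x (J i + k) - x (J (i + 1) + k))

lemma wf_ev {x : ℕ → ℝ} (h : EC x) (k : ℕ) : ∀ᶠ i in atTop, wf x k i = 0 := by
  obtain ⟨c, hc⟩ := h k
  have h2 : ∀ᶠ i in atTop, x (J (i + 1) + k) = c := (tendsto_add_atTop_nat 1).eventually hc
  filter_upwards [hc, h2] with i h1 h2
  unfold wf
  rw [h1, h2]
  ring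

lemma memlp_of_ev {f : ℕ → ℝ} (h : ∀ᶠ i in atTop, f i = 0) : Memℓp f 1 := by
  have hs : Summable fun i => ‖f i‖ ^ (1 : ENNReal).toReal := by
    obtain ⟨n, hn⟩ := eventually_atTop.1 h
    refine summable_of_ne_finset_zero (s := Finset.range n) fun b hb => ?_
    rw [hn b (by simpa using hb)]
    simp
  exact memℓp_gen hs

noncomputable def W (x : ℕ → ℝ) (h : EC x) : ℕ → L1 := fun k => ⟨wf x k, memlp_of_ev (wf_ev h k)⟩

noncomputable def mk (x : ℕ → ℝ) (h : EC x) : P := (x, W x h)

lemma wf_add (x y : ℕ → ℝ) (k i : ℕ) : wf (x + y) k i = wf x k i + wf y k i := by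
  unfold wf; simp only [Pi.add_apply]; ring

lemma wf_smul (c : ℝ) (x : ℕ → ℝ) (k i : ℕ) : wf (c • x) k i = c * wf x k i := by
  unfold wf; simp only [Pi.smul_apply, smul_eq_mul]; ring

lemma wf_zero (k i : ℕ) : wf 0 k i = 0 := by
  unfold wf; simp

lemma EC_add {x y : ℕ → ℝ} (hx : EC x) (hy : EC y) : EC (x + y) := by
  intro k
  obtain ⟨c, hc⟩ := hx k
  obtain ⟨d, hd⟩ := hy k
  refine ⟨c + d, ?_⟩
  filter_upwards [hc, hd] with i h1 h2
  simp only [Pi.add_apply, h1, h2]

lemma EC_smul (c : ℝ) {x : ℕ → ℝ} (hx : EC x) : EC (c • x) := by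
  intro k
  obtain ⟨d, hd⟩ := hx k
  refine ⟨c * d, ?_⟩
  filter_upwards [hd] with i h1
  simp only [Pi.smul_apply, smul_eq_mul, h1]

/-- The submodule of nice vectors. -/
noncomputable def F : Submodule ℝ P where
  carrier := {p | EC p.1 ∧ ∀ k i, (p.2 k : ℕ → ℝ) i = wf p.1 k i}
  add_mem' := by
    rintro p q ⟨hp1, hp2⟩ ⟨hq1, hq2⟩
    refine ⟨EC_add hp1 hq1, fun k i => ?_⟩
    simp only [Prod.snd_add, Pi.add_apply, Prod.fst_add, lp.coeFn_add, wf_add, hp2, hq2]
  zero_mem' := by
    refine ⟨fun k => ⟨0, by simp⟩, fun k i => ?_⟩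
    simp [wf_zero]
  smul_mem' := by
    rintro c p ⟨hp1, hp2⟩
    refine ⟨EC_smul c hp1, fun k i => ?_⟩
    simp only [Prod.smul_snd, Pi.smul_apply, Prod.smul_fst, lp.coeFn_smul, wf_smul, hp2, smul_eq_mul]

lemma mk_mem {x : ℕ → ℝ} (h : EC x) : mk x h ∈ F := ⟨h, fun _ _ => rfl⟩

noncomputable abbrev X := F.topologicalClosure

lemma mem_X {x : ℕ → ℝ} (h : EC x) : mk x h ∈ X := F.le_topologicalClosure (mk_mem h)

/-- evaluation -/
lemma cont_eval (k i : ℕ) : Continuous fun p : P => (p.2 k : ℕ → ℝ) i := by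
  have h1 : Continuous fun f : L1 => (f : ℕ → ℝ) := lp.uniformContinuous_coe.continuous
  exact (continuous_apply i).comp (h1.comp ((continuous_apply k).comp continuous_snd))

lemma X_rel {p : P} (hp : p ∈ X) (k i : ℕ) : (p.2 k : ℕ → ℝ) i = wf p.1 k i := by
  have hcl : IsClosed {p : P | (p.2 k : ℕ → ℝ) i = wf p.1 k i} := by
    refine isClosed_eq (cont_eval k i) ?_
    unfold wf
    exact continuous_const.mul (((continuous_apply _).comp continuous_fst).sub
      ((continuous_apply _).comp continuous_fst))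
  have : (F : Set P) ⊆ {p : P | (p.2 k : ℕ → ℝ) i = wf p.1 k i} := fun q hq => hq.2 k i
  exact closure_minimal this hcl hp

/-- The shift on the product. -/
noncomputable def T0 : P →L[ℝ] P :=
  (ContinuousLinearMap.pi fun n => (ContinuousLinearMap.proj (n + 1)).comp
    (ContinuousLinearMap.fst ℝ (ℕ → ℝ) (ℕ → L1))).prod
  (ContinuousLinearMap.pi fun k => (ContinuousLinearMap.proj (k + 1)).comp
    (ContinuousLinearMap.snd ℝ (ℕ → ℝ) (ℕ → L1)))

lemma T0_fst (p : P) (n : ℕ) : (T0 p).1 n = p.1 (n + 1) := rfl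
lemma T0_snd (p : P) (n : ℕ) : (T0 p).2 n = p.2 (n + 1) := rfl

lemma T0_F {p : P} (hp : p ∈ F) : T0 p ∈ F := by
  refine ⟨fun k => ?_, fun k i => ?_⟩
  · obtain ⟨c, hc⟩ := hp.1 (k + 1)
    exact ⟨c, hc⟩
  · rw [T0_snd, hp.2]
    rfl

lemma T0_X {p : P} (hp : p ∈ X) : T0 p ∈ X :=
  map_mem_closure T0.continuous hp fun _ h => T0_F h

noncomputable def T : X →L[ℝ] X := (T0.comp X.subtypeL).codRestrict X fun p => T0_X p.2

lemma T_fst (p : X) (n : ℕ) : (T p).1.1 n = p.1.1 (n + 1) := rfl
lemma T_snd (p : X) (n : ℕ) : (T p).1.2 n = p.1.2 (n + 1) := rfl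

lemma Tpow_fst (p : X) (m n : ℕ) : ((T ^ m) p).1.1 n = p.1.1 (n + m) := by
  induction m generalizing n with
  | zero => rfl
  | succ m ih =>
    rw [pow_succ']
    show (T ((T ^ m) p)).1.1 n = _
    rw [T_fst, ih, show n + 1 + m = n + (m + 1) by omega]

lemma Tpow_snd (p : X) (m n : ℕ) : ((T ^ m) p).1.2 n = p.1.2 (n + m) := by
  induction m generalizing n with
  | zero => rfl
  | succ m ih =>
    rw [pow_succ']
    show (T ((T ^ m) p)).1.2 n = _
    rw [T_snd, ih, show n + 1 + m = n + (m + 1) by omega]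

lemma X_ext {p q : X} (h : p.1.1 = q.1.1) : p = q := by
  apply Subtype.ext
  refine Prod.ext h ?_
  funext k
  apply lp.ext
  funext i
  rw [X_rel p.2, X_rel q.2, h]

instance : IsUniformAddGroup X := inferInstanceAs (IsUniformAddGroup X.toAddSubgroup)

instance : CompleteSpace X := by
  have : IsClosed (X : Set P) := F.isClosed_topologicalClosure
  exact this.completeSpace_coe

/-! ### norms -/

lemma norm_L1 (f : L1) : ‖f‖ = ∑' i, |f i| := by
  rw [lp.norm_eq_tsum_rpow (by simp)]
  simp

lemma summ_L1 (f : L1) : Summable fun i => |f i| := by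
  have := lp.memℓp f
  have h2 := (memℓp_gen_iff (p := 1) (by simp)).1 this
  simpa using h2

lemma sum_le_norm (f : L1) (s : Finset ℕ) : ∑ i ∈ s, |f i| ≤ ‖f‖ := by
  rw [norm_L1]
  exact (summ_L1 f).sum_le_tsum s fun _ _ => abs_nonneg _

/-- The norm of a vector that vanishes before `I` and is constant after `I`. -/
lemma norm_step (f : L1) (y : ℕ → ℝ) (hf : ∀ i, f i = al i * (y i - y (i + 1))) (I : ℕ) (hI : 1 ≤ I)
    (h0 : ∀ i < I, y i = 0) (c : ℝ) (h1 : ∀ i, I < i → y i = c) :
    ‖f‖ ≤ al (I - 1) * |y I| + al I * |y I - c| := by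
  rw [norm_L1, tsum_eq_sum (s := {I - 1, I})]
  · rw [Finset.sum_pair (by omega), hf, hf, h0 (I - 1) (by omega), h1 (I + 1) (by omega),
      show I - 1 + 1 = I by omega, abs_mul, abs_mul, abs_of_pos (al_pos _), abs_of_pos (al_pos _),
      zero_sub, abs_neg]
  · intro i hi
    simp only [Finset.mem_insert, Finset.mem_singleton, not_or] at hi
    rw [hf]
    rcases lt_or_ge i I with h | h
    · rw [h0 i h, h0 (i + 1) (by omega)]
      simp
    · rw [h1 i (by omega), h1 (i + 1) (by omega)]
      simp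

/-! ### arithmetic of `J` -/

lemma J_ge (l : ℕ) : 16 ≤ J l := by
  induction l with
  | zero => exact le_rfl
  | succ l ih =>
    calc 16 ≤ J l := ih
      _ ≤ (J l) ^ 4 := Nat.le_self_pow (by norm_num) _

lemma J_succ (l : ℕ) : J (l + 1) = (J l) ^ 4 := rfl

lemma J_big (l : ℕ) : 4096 * J l ≤ J (l + 1) := by
  have h := J_ge l
  rw [J_succ]
  calc 4096 * J l = 16 ^ 3 * J l := by norm_num
    _ ≤ (J l) ^ 3 * J l := by gcongr
    _ = (J l) ^ 4 := by ring

lemma J_strictMono : StrictMono J := strictMono_nat_of_lt_succ fun n => by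
  have h := J_ge n
  have := J_big n
  omega

lemma J_dvd {i l : ℕ} (h : i ≤ l) : J i ∣ J l := by
  induction l, h using Nat.le_induction with
  | base => exact dvd_rfl
  | succ l _ ih => exact ih.trans (dvd_pow_self _ (by norm_num))

lemma lt_J (l : ℕ) : l < J l := by
  induction l with
  | zero => decide
  | succ l ih => have := J_big l; omega

lemma J_even (l : ℕ) : 2 * (J l / 2) = J l := by
  have : 2 ∣ J l := (by decide : 2 ∣ J 0).trans (J_dvd (Nat.zero_le l))
  omega

lemma J_tendsto : Tendsto J atTop atTop := J_strictMono.tendsto_atTop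

/-- Finite vectors. -/
def Fin' (x : ℕ → ℝ) : Prop := ∃ m, ∀ n, m ≤ n → x n = 0

lemma Fin'_EC {x : ℕ → ℝ} (h : Fin' x) : EC x := by
  obtain ⟨m, hm⟩ := h
  intro k
  refine ⟨0, ?_⟩
  filter_upwards [eventually_ge_atTop m] with i hi
  have := lt_J i
  exact hm _ (by omega)

/-- convergence in X -/
lemma tendsto_X {ι : Type} {fl : Filter ι} {f : ι → X} {p : X} :
    Tendsto f fl (𝓝 p) ↔ (∀ n, Tendsto (fun t => (f t).1.1 n) fl (𝓝 (p.1.1 n))) ∧
      ∀ k, Tendsto (fun t => ‖(f t).1.2 k - p.1.2 k‖) fl (𝓝 0) := by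
  rw [Topology.IsInducing.subtypeVal.tendsto_nhds_iff, Prod.tendsto_iff, tendsto_pi_nhds, tendsto_pi_nhds]
  refine and_congr Iff.rfl (forall_congr' fun k => ?_)
  rw [tendsto_iff_norm_sub_tendsto_zero]
  rfl

noncomputable def mkX (x : ℕ → ℝ) (h : EC x) : X := ⟨mk x h, mem_X h⟩

lemma mkX_fst (x : ℕ → ℝ) (h : EC x) : (mkX x h).1.1 = x := rfl

/-- the main tool for convergence -/
lemma tendsto_of_step {ι : Type} {fl : Filter ι} (f : ι → X) (p : X) 
    (h1 : ∀ n, ∀ᶠ t in fl, (f t).1.1 n = p.1.1 n) (I : ι → ℕ) (hI : Tendsto I fl atTop)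
    (C : ℕ → ℝ)
    (h2 : ∀ k, ∀ᶠ t in fl, (∀ i < I t, (f t).1.1 (J i + k) = p.1.1 (J i + k)) ∧
      |(f t).1.1 (J (I t) + k) - p.1.1 (J (I t) + k)| ≤ C k ∧
      ∃ c : ℝ, |c| ≤ C k ∧ ∀ i, I t < i → (f t).1.1 (J i + k) - p.1.1 (J i + k) = c) :
    Tendsto f fl (𝓝 p) := by
  rw [tendsto_X]
  refine ⟨fun n => tendsto_const_nhds.congr' ?_, fun k => ?_⟩
  · filter_upwards [h1 n] with t ht
    exact ht.symm
  · have h3 : Tendsto (fun t => al (I t - 1) * C k + al (I t) * (2 * C k)) fl (𝓝 0) := by
      have e1 : Tendsto (fun t => al (I t - 1)) fl (𝓝 0) :=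
        al_tendsto.comp ((tendsto_sub_atTop_nat 1).comp hI)
      have e2 : Tendsto (fun t => al (I t)) fl (𝓝 0) := al_tendsto.comp hI
      have := (e1.mul_const (C k)).add (e2.mul_const (2 * C k))
      simpa using this
    refine squeeze_zero' (Eventually.of_forall fun _ => norm_nonneg _) ?_ h3
    filter_upwards [h2 k, hI.eventually_ge_atTop 1] with t ht hIt
    obtain ⟨g1, g2, c, g3, g4⟩ := ht
    have hn := norm_step ((f t).1.2 k - p.1.2 k) (fun i => (f t).1.1 (J i + k) - p.1.1 (J i + k))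
      (fun i => by
        rw [lp.coeFn_sub, Pi.sub_apply, X_rel (f t).2, X_rel p.2]
        unfold wf
        ring) (I t) hIt (fun i hi => by simp only [g1 i hi, sub_self]) c g4
    refine hn.trans ?_
    have a1 := (al_pos (I t - 1)).le
    have a2 := (al_pos (I t)).le
    have : |(f t).1.1 (J (I t) + k) - p.1.1 (J (I t) + k) - c| ≤ 2 * C k := by
      refine (abs_sub _ _).trans ?_
      linarith
    gcongr

/-- Finite vectors are dense. -/
lemma dense_fin : Dense {p : X | Fin' p.1.1} := by
  have key : ∀ p : X, p.1 ∈ F → p ∈ closure {p : X | Fin' p.1.1} := by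
    intro p hp
    have hec := hp.1
    refine mem_closure_of_tendsto (b := atTop)
      (f := fun N : ℕ => mkX (fun n => if n < J N + N then p.1.1 n else 0)
        (Fin'_EC ⟨J N + N, fun n hn => by simp [not_lt.2 hn]⟩)) ?_
        (Eventually.of_forall fun N => ⟨J N + N, fun n hn => by
          rw [mkX_fst]; simp [not_lt.2 hn]⟩)
    choose c hc using hec
    refine tendsto_of_step _ _ (fun n => ?_) (fun N => N + 1) (tendsto_add_atTop_nat 1)
      (fun k => |c k|) (fun k => ?_)
    · filter_upwards [eventually_gt_atTop n] with N hN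
      rw [mkX_fst, if_pos (by omega)]
    · have h1 : ∀ᶠ N : ℕ in atTop, ∀ i, N ≤ i → p.1.1 (J i + k) = c k :=
        eventually_forall_ge_atTop.2 (hc k)
      filter_upwards [h1, eventually_gt_atTop k] with N hN hk
      have hlt : ∀ i, N + 1 ≤ i → ¬ (J i + k < J N + N) := by
        intro i hi
        have h3 := J_strictMono.monotone hi
        have h4 := J_big N
        have h5 := lt_J N
        omega
      refine ⟨fun i hi => ?_, ?_, - c k, by rw [abs_neg], fun i hi => ?_⟩
      · rw [mkX_fst, if_pos]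
        have := J_strictMono.monotone (show i ≤ N by omega)
        omega
      · rw [mkX_fst, if_neg (hlt _ le_rfl), hN _ (by omega), zero_sub, abs_neg]
      · rw [mkX_fst, if_neg (hlt _ (by omega)), hN _ (by omega), zero_sub]
  intro p
  have h1 : p ∈ closure {q : X | q.1 ∈ F} := by
    rw [closure_subtype]
    have : (fun a : X => a.1) '' {q : X | q.1 ∈ F} = F := by
      ext q
      constructor
      · rintro ⟨r, hr, rfl⟩
        exact hr
      · intro hq
        exact ⟨⟨q, F.le_topologicalClosure hq⟩, hq, rfl⟩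
    erw [this]
    exact p.2
  have h2 : closure {q : X | q.1 ∈ F} ⊆ closure {p : X | Fin' p.1.1} :=
    closure_minimal (fun q hq => key q hq) isClosed_closure
  exact h2 h1

/-! ### periodic points -/

lemma dense_per : Dense {p : X | ∃ n : ℕ, 0 < n ∧ (T ^ n) p = p} := by
  have key : {p : X | Fin' p.1.1} ⊆ closure {p : X | ∃ n : ℕ, 0 < n ∧ (T ^ n) p = p} := by
    rintro p ⟨m, hm⟩
    have hec : ∀ N : ℕ, EC (fun n => p.1.1 (n % J N)) := by
      intro N k
      refine ⟨p.1.1 (k % J N), ?_⟩
      filter_upwards [eventually_ge_atTop N] with i hi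
      obtain ⟨q, hq⟩ := J_dvd hi
      rw [hq, Nat.mul_add_mod]
    refine mem_closure_of_tendsto (b := atTop)
      (f := fun N : ℕ => mkX (fun n => p.1.1 (n % J (N + 1))) (hec (N + 1))) ?_
        (Eventually.of_forall fun N => ⟨J (N + 1), by have := J_ge (N + 1); omega, X_ext ?_⟩)
    · refine tendsto_of_step _ _ (fun n => ?_) (fun N => N + 1) (tendsto_add_atTop_nat 1)
        (fun k => |p.1.1 k|) (fun k => ?_)
      · filter_upwards [eventually_gt_atTop n] with N hN
        rw [mkX_fst, Nat.mod_eq_of_lt]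
        have := lt_J (N + 1)
        omega
      · filter_upwards [eventually_gt_atTop k, eventually_ge_atTop m] with N hk hNm
        have hkJ : k < J (N + 1) := by have := lt_J (N + 1); omega
        have hval : ∀ i, N + 1 ≤ i → p.1.1 ((J i + k) % J (N + 1)) - p.1.1 (J i + k) = p.1.1 k := by
          intro i hi
          obtain ⟨q, hq⟩ := J_dvd hi
          have h0 : p.1.1 (J i + k) = 0 := hm _ (by have := lt_J i; omega)
          rw [h0, sub_zero, hq, Nat.mul_add_mod, Nat.mod_eq_of_lt hkJ]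
        refine ⟨fun i hi => ?_, ?_, p.1.1 k, le_rfl, fun i hi => ?_⟩
        · rw [mkX_fst, Nat.mod_eq_of_lt]
          have h1 := J_strictMono.monotone (show i ≤ N by omega)
          have h2 := J_big N
          have h3 := lt_J N
          omega
        · rw [mkX_fst, hval _ le_rfl]
        · rw [mkX_fst, hval _ hi.le]
    · funext n
      rw [Tpow_fst, mkX_fst]
      simp only [Nat.add_mod_right]
  intro p
  exact closure_minimal key isClosed_closure (dense_fin p)

/-! ### mixing -/

lemma mixing (U V : Set X) (hU : IsOpen U) (hV : IsOpen V) (hU0 : U.Nonempty) (hV0 : V.Nonempty) :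
    ∃ N : ℕ, ∀ n : ℕ, N ≤ n → ((⇑(T ^ n)) ⁻¹' V ∩ U).Nonempty := by
  obtain ⟨u, ⟨m, hm⟩, huU⟩ := dense_fin.exists_mem_open hU hU0
  obtain ⟨v, ⟨r, hr⟩, hvV⟩ := dense_fin.exists_mem_open hV hV0
  have hfin : ∀ n : ℕ, Fin' (fun t => if n ≤ t then v.1.1 (t - n) else 0) := fun n =>
    ⟨n + r, fun t ht => by
      simp only [show n ≤ t by omega, if_true]
      exact hr _ (by omega)⟩
  let z : ℕ → X := fun n => mkX _ (Fin'_EC (hfin n))
  obtain ⟨B, hB⟩ : ∃ B : ℝ, ∀ t, |v.1.1 t| ≤ B := by
    refine ⟨∑ t ∈ Finset.range r, |v.1.1 t|, fun t => ?_⟩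
    by_cases h : t < r
    · exact Finset.single_le_sum (f := fun t => |v.1.1 t|) (fun _ _ => abs_nonneg _)
        (Finset.mem_range.2 h)
    · rw [hr t (by omega), abs_zero]
      exact Finset.sum_nonneg fun _ _ => abs_nonneg _
  have hB0 : 0 ≤ B := (abs_nonneg _).trans (hB 0)
  have hz : Tendsto z atTop (𝓝 0) := by
    let I : ℕ → ℕ := fun n => Nat.findGreatest (fun i => J i < n + r + 1) n
    -- the largest i with J i ≤ n + r
    have hI : Tendsto I atTop atTop := by
      rw [tendsto_atTop]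
      intro b
      filter_upwards [eventually_ge_atTop (J b)] with n hn
      exact Nat.le_findGreatest ((lt_J b).le.trans hn) (by omega)
    refine tendsto_of_step _ _ (fun n => ?_) I hI (fun _ => B) (fun k => ?_)
    · filter_upwards [eventually_gt_atTop n] with N hN
      show (if N ≤ n then _ else _) = (0 : ℝ)
      rw [if_neg (by omega)]
    · filter_upwards [eventually_ge_atTop (J (k + r + 1)), hI.eventually_ge_atTop (k + r + 1)]
        with n hn hIn
      have hval : ∀ t, (z n).1.1 t = if n ≤ t then v.1.1 (t - n) else 0 := fun t => rfl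
      have h0 : ∀ t, (0 : X).1.1 t = 0 := fun t => rfl
      have hspec : J (I n) < n + r + 1 := by
        have := Nat.findGreatest_spec (P := fun i => J i < n + r + 1) (m := k + r + 1) (n := n)
          ((lt_J _).le.trans hn) (by omega)
        exact this
      have hgr : ∀ i, I n < i → n + r + 1 ≤ J i := by
        intro i hi
        by_cases hin : i ≤ n
        · have := Nat.findGreatest_is_greatest hi hin
          omega
        · have := J_strictMono.monotone (show n + 1 ≤ i by omega)
          have h2 := J_big n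
          have h3 := lt_J n
          have h4 := lt_J (k + r + 1)
          omega
      refine ⟨fun i hi => ?_, ?_, 0, by simpa using hB0, fun i hi => ?_⟩
      · rw [hval, h0, if_neg]
        have h1 := J_strictMono.monotone (show i + 1 ≤ I n by omega)
        have h2 := J_big i
        have h3 : k + r + 1 < J (I n) := lt_of_lt_of_le (lt_J _) (J_strictMono.monotone hIn)
        have h5 := J_ge i
        -- J i + k < n
        have h6 := J_big (I n - 1)
        rw [show I n - 1 + 1 = I n by omega] at h6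
        have h7 := J_strictMono.monotone (show i ≤ I n - 1 by omega)
        have h8 : k + r ≤ J (I n - 1) := (lt_J _).le.trans' (by omega)
        omega
      · rw [hval, h0, sub_zero]
        split_ifs
        · exact hB _
        · simpa using hB0
      · rw [hval, h0, sub_zero]
        split_ifs with h
        · exact hr _ (by have := hgr i hi; omega)
        · rfl
  have hz2 : Tendsto (fun n => u + z n) atTop (𝓝 u) := by
    simpa using tendsto_const_nhds.add hz
  have hev := hz2.eventually (hU.mem_nhds huU)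
  obtain ⟨N, hN⟩ := eventually_atTop.1 hev
  refine ⟨max N m, fun n hn => ⟨u + z n, ?_, hN n (le_of_max_le_left hn)⟩⟩
  have hT : (T ^ n) (u + z n) = v := by
    apply X_ext
    funext t
    rw [Tpow_fst]
    show u.1.1 (t + n) + (if n ≤ t + n then v.1.1 (t + n - n) else 0) = v.1.1 t
    rw [hm _ (by have := le_of_max_le_right hn; omega), if_pos (by omega), zero_add, Nat.add_sub_cancel]
  show (T ^ n) (u + z n) ∈ V
  rw [hT]
  exact hvV

/-! ### the frequently hypercyclic vector -/

/-- modulus of level `l` -/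
def M (l : ℕ) : ℕ := J (l + 1)

/-- half of the modulus -/
def H (l : ℕ) : ℕ := J (l + 1) / 2

lemma two_H (l : ℕ) : 2 * H l = M l := J_even _

lemma M_big (l : ℕ) : 4096 * J l ≤ M l := J_big l

/-- `p` lies in a block of level `l` -/
def Q (l p : ℕ) : Prop := H l ≤ p % M l ∧ p % M l < H l + 2 * J l

lemma Q_le {l p : ℕ} (h : Q l p) : l ≤ p := by
  have h1 := h.1
  have h2 := Nat.mod_le p (M l)
  have h3 := lt_J l
  have h4 := M_big l
  have h5 := two_H l
  omega

open Classical in
/-- The vector. -/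
noncomputable def yy (u : ℕ → ℕ → ℝ) (p : ℕ) : ℝ :=
  if h : ∃ l, Q l p ∧ ∀ l', l < l' → ¬ Q l' p then u h.choose (p % M h.choose - H h.choose) else 0

lemma yy_eq (u : ℕ → ℕ → ℝ) {l p : ℕ} (h1 : Q l p) (h2 : ∀ l', l < l' → ¬ Q l' p) :
    yy u p = u l (p % M l - H l) := by
  have h : ∃ l, Q l p ∧ ∀ l', l < l' → ¬ Q l' p := ⟨l, h1, h2⟩
  have e : h.choose = l := by
    have h3 := h.choose_spec
    rcases lt_trichotomy h.choose l with h4 | h4 | h4
    · exact absurd h1 (h3.2 _ h4)
    · exact h4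
    · exact absurd h3.1 (h2 _ h4)
  unfold yy
  rw [dif_pos h, e]

lemma yy_zero (u : ℕ → ℕ → ℝ) {p : ℕ} (h : ∀ l, ¬ Q l p) : yy u p = 0 := by
  unfold yy
  rw [dif_neg]
  rintro ⟨l, hl, -⟩
  exact h l hl

lemma Q_dichotomy (p : ℕ) : (∀ l, ¬ Q l p) ∨ ∃ l, Q l p ∧ ∀ l', l < l' → ¬ Q l' p := by
  classical
  by_cases h : ∃ l, Q l p
  · right
    obtain ⟨l, hl⟩ := h
    refine ⟨Nat.findGreatest (fun l => Q l p) p, Nat.findGreatest_spec (P := fun l => Q l p) (Q_le hl) hl,
      fun l' hl' hq => ?_⟩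
    exact Nat.findGreatest_is_greatest hl' (Q_le hq) hq
  · left
    push Not at h
    exact h

lemma yy_congr (u : ℕ → ℕ → ℝ) {p p' : ℕ} (h : ∀ l, Q l p ↔ Q l p') 
    (h2 : ∀ l, Q l p → p % M l = p' % M l) : yy u p = yy u p' := by
  rcases Q_dichotomy p with h0 | ⟨l, hl, hl'⟩
  · rw [yy_zero u h0, yy_zero u fun l hl => h0 l ((h l).2 hl)]
  · rw [yy_eq u hl hl', yy_eq u ((h l).1 hl) fun l' h3 h4 => hl' l' h3 ((h l').2 h4), h2 l hl]

lemma yy_EC (u : ℕ → ℕ → ℝ) : EC (yy u) := by
  intro k
  refine ⟨yy u k, ?_⟩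
  filter_upwards [eventually_gt_atTop k] with i hi
  have hk : ∀ l, i ≤ l → ¬ Q l k ∧ ¬ Q l (J i + k) := by
    intro l hl
    have h1 := J_strictMono.monotone hl
    have h2 := M_big l
    have h3 := two_H l
    have h4 := lt_J i
    constructor
    · rintro ⟨h5, -⟩
      have := Nat.mod_le k (M l)
      omega
    · rintro ⟨h5, -⟩
      have := Nat.mod_le (J i + k) (M l)
      omega
  have hm : ∀ l, l < i → (J i + k) % M l = k % M l := by
    intro l hl
    obtain ⟨q, hq⟩ := J_dvd (show l + 1 ≤ i from hl)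
    rw [hq]
    exact Nat.mul_add_mod _ _ _
  refine yy_congr u (fun l => ?_) (fun l hl => ?_)
  · rcases lt_or_ge l i with h | h
    · unfold Q
      rw [hm l h]
    · exact ⟨fun h5 => absurd h5 (hk l h).2, fun h5 => absurd h5 (hk l h).1⟩
  · rcases lt_or_ge l i with h | h
    · exact hm l h
    · exact absurd hl (hk l h).2

/-- `n` is good for level `l`. -/
def Good (l n : ℕ) : Prop :=
  n % M l = H l ∧ ∀ l', l < l' → ¬ (H l' - 3 * J l' ≤ n % M l' ∧ n % M l' < H l' + 2 * J l')

lemma mod_sub {n t m : ℕ} (h1 : t ≤ (n + t) % m) (hm : t < m) : n % m = (n + t) % m - t := by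
  have h2 : n % m < m := Nat.mod_lt _ (by omega)
  have h3 : (n + t) % m = (n % m + t) % m := by
    rw [Nat.add_mod, Nat.mod_eq_of_lt hm]
  rw [h3] at h1 ⊢
  by_cases h4 : n % m + t < m
  · rw [Nat.mod_eq_of_lt h4]
    omega
  · have h5 : (n % m + t) % m = n % m + t - m := by
      rw [Nat.mod_eq_sub_mod (by omega), Nat.mod_eq_of_lt (by omega)]
    omega

lemma good_noQ0 {l n : ℕ} (h : Good l n) {l' : ℕ} (hl : l < l') {t : ℕ} (ht : t < 3 * J l') :
    ¬ Q l' (n + t) := by
  rintro ⟨h1, h2⟩
  have h3 := M_big l'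
  have h4 := two_H l'
  have h5 := mod_sub (n := n) (t := t) (m := M l') (by omega) (by omega)
  exact h.2 l' hl ⟨by omega, by omega⟩

lemma good_noQ {l n : ℕ} (h : Good l n) {l' : ℕ} (hl : l < l') {i m : ℕ} (hm : m < 2 * J l) :
    ¬ Q l' (n + J i + m) := by
  have hm' : m < 2 * J l' := by
    have := J_strictMono.monotone hl.le
    omega
  rcases lt_or_ge l' i with hi | hi
  · obtain ⟨q, hq⟩ := J_dvd (show l' + 1 ≤ i from hi)
    have e : (n + J i + m) % M l' = (n + m) % M l' := by
      rw [hq, show n + J (l' + 1) * q + m = J (l' + 1) * q + (n + m) by ring]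
      exact Nat.mul_add_mod _ _ _
    intro hQ
    refine good_noQ0 h hl (t := m) (by omega) ?_
    unfold Q at hQ ⊢
    rwa [e] at hQ
  · have := J_strictMono.monotone hi
    rw [show n + J i + m = n + (J i + m) by ring]
    exact good_noQ0 h hl (by omega)

lemma yy_block (u : ℕ → ℕ → ℝ) {l n m : ℕ} (hn : n % M l = H l) (hm : m < 2 * J l)
    (h : ∀ l', l < l' → ¬ Q l' (n + m)) : yy u (n + m) = u l m := by
  have h3 := M_big l
  have h4 := two_H l
  have e : (n + m) % M l = H l + m := by
    rw [Nat.add_mod, hn, Nat.mod_eq_of_lt (show m < M l by omega), Nat.mod_eq_of_lt (by omega)]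
  rw [yy_eq u (l := l) ⟨by omega, by omega⟩ h, e, Nat.add_sub_cancel_left]

/-- values near a good point -/
lemma yy_good (u : ℕ → ℕ → ℝ) {l n : ℕ} (h : Good l n) {m : ℕ} (hm : m < 2 * J l) :
    yy u (n + m) = u l m := by
  refine yy_block u h.1 hm fun l' hl' => good_noQ0 h hl' ?_
  have := J_strictMono.monotone hl'.le
  omega

lemma yy_good' (u : ℕ → ℕ → ℝ) {l n : ℕ} (h : Good l n) {i m : ℕ} (hi : l < i) (hm : m < 2 * J l) :
    yy u (n + J i + m) = u l m := by
  refine yy_block u ?_ hm fun l' hl' => good_noQ h hl' hm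
  obtain ⟨q, hq⟩ := J_dvd (show l + 1 ≤ i from hi)
  rw [hq, show n + J (l + 1) * q = J (l + 1) * q + n by ring]
  exact (Nat.mul_add_mod _ _ _).trans h.1

/-! ### counting good points -/

open Classical in
lemma count_res (N m a L : ℕ) (hm : 0 < m) :
    ((Finset.range N).filter fun n => a ≤ n % m ∧ n % m < a + L).card ≤ L * (N / m + 1) := by
  have h1 : ((Finset.range N).filter fun n => a ≤ n % m ∧ n % m < a + L) ⊆
      (Finset.range L).biUnion fun v => (Finset.range N).filter fun n => n ≡ a + v [MOD m] := by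
    intro n hn
    simp only [Finset.mem_filter, Finset.mem_range] at hn
    simp only [Finset.mem_biUnion, Finset.mem_filter, Finset.mem_range]
    refine ⟨n % m - a, by omega, hn.1, ?_⟩
    rw [show a + (n % m - a) = n % m by omega]
    exact (Nat.mod_modEq n m).symm
  refine (Finset.card_le_card h1).trans (Finset.card_biUnion_le.trans ?_)
  refine (Finset.sum_le_card_nsmul _ _ (N / m + 1) fun v _ => ?_).trans ?_
  · rw [← Nat.count_eq_card_filter_range, Nat.count_modEq_card _ hm]
    split_ifs <;> omega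
  · simp

open Classical in
lemma count_lower (N m a : ℕ) (hm : 0 < m) (ha : a < m) :
    N / m ≤ ((Finset.range N).filter fun n => n % m = a).card := by
  have h1 : ((Finset.range N).filter fun n => n % m = a) =
      (Finset.range N).filter fun n => n ≡ a [MOD m] := by
    refine Finset.filter_congr fun n _ => ?_
    unfold Nat.ModEq
    rw [Nat.mod_eq_of_lt ha]
  rw [h1, ← Nat.count_eq_card_filter_range, Nat.count_modEq_card _ hm]
  omega

lemma J_pow (l T : ℕ) : 2 ^ T * J (l + 1) ≤ J (l + 1 + T) := by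
  induction T with
  | zero => simp
  | succ T ih =>
    have := J_big (l + 1 + T)
    calc 2 ^ (T + 1) * J (l + 1) = 2 * (2 ^ T * J (l + 1)) := by ring
      _ ≤ 2 * J (l + 1 + T) := by gcongr
      _ ≤ J (l + 1 + (T + 1)) := by
        rw [← add_assoc]
        omega

lemma sum_bound (l T : ℕ) : ∑ i ∈ Finset.range T, (1 : ℝ) / (J (l + 1 + i)) ^ 3 ≤
    (2 - 2 * (1 / 2) ^ T) / (M l) ^ 3 := by
  induction T with
  | zero => simp
  | succ T ih =>
    rw [Finset.sum_range_succ]
    have hM : (0 : ℝ) < M l := by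
      have := J_ge (l + 1)
      have h2 : 0 < M l := by unfold M; omega
      exact_mod_cast h2
    have h1 : (1 : ℝ) / (J (l + 1 + T)) ^ 3 ≤ (1 / 2) ^ T / (M l) ^ 3 := by
      have h2 : (2 : ℝ) ^ T * M l ≤ J (l + 1 + T) := by exact_mod_cast J_pow l T
      have h3 : (1 : ℝ) ≤ 2 ^ T := one_le_pow₀ (by norm_num)
      have h4 : (2 : ℝ) ^ T * (M l : ℝ) ^ 3 ≤ (J (l + 1 + T) : ℝ) ^ 3 := by
        calc (2 : ℝ) ^ T * (M l : ℝ) ^ 3 ≤ (2 ^ T) ^ 3 * (M l : ℝ) ^ 3 := by
              gcongr
              exact le_self_pow₀ h3 (by norm_num)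
          _ = (2 ^ T * (M l : ℝ)) ^ 3 := by ring
          _ ≤ _ := by gcongr
      rw [div_pow, one_pow, div_div]
      apply one_div_le_one_div_of_le (by positivity) h4
    calc _ ≤ (2 - 2 * (1 / 2) ^ T) / (M l : ℝ) ^ 3 + (1 / 2) ^ T / (M l) ^ 3 := add_le_add ih h1
      _ = _ := by
        rw [← add_div]
        congr 1
        ring

open Classical in
lemma good_count (l N : ℕ) (hN : 4 * M l ≤ N) :
    (N : ℝ) / (2 * M l) ≤ (((Finset.range N).filter fun n => Good l n).card : ℝ) := by
  let A := (Finset.range N).filter fun n => n % M l = H l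
  let B : ℕ → Finset ℕ := fun l' => (Finset.range N).filter fun n =>
    H l' - 3 * J l' ≤ n % M l' ∧ n % M l' < H l' - 3 * J l' + 5 * J l'
  have hMJ : 65536 ≤ M l := by
    have h1 := J_ge l
    have h2 := M_big l
    omega
  have hHl : H l < M l := by have := two_H l; omega
  have hsub : A ⊆ ((Finset.range N).filter fun n => Good l n) ∪
      (Finset.range N).biUnion fun t => B (l + 1 + t) := by
    intro n hn
    simp only [A, Finset.mem_filter, Finset.mem_range] at hn
    rw [Finset.mem_union]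
    by_cases hg : Good l n
    · left
      simp only [Finset.mem_filter, Finset.mem_range]
      exact ⟨hn.1, hg⟩
    · right
      unfold Good at hg
      push Not at hg
      obtain ⟨l', hl', h1, h2⟩ := hg hn.2
      simp only [Finset.mem_biUnion, Finset.mem_range]
      have h3 := M_big l'
      have h4 := two_H l'
      have h5 := lt_J l'
      have h6 := Nat.mod_le n (M l')
      refine ⟨l' - (l + 1), by omega, ?_⟩
      rw [show l + 1 + (l' - (l + 1)) = l' by omega]
      simp only [B, Finset.mem_filter, Finset.mem_range]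
      exact ⟨hn.1, h1, by omega⟩
  have hB : ∀ l', ((B l').card : ℝ) ≤ 25 * N * (1 / (J l' : ℝ) ^ 3) := by
    intro l'
    have h3 := M_big l'
    have h4 := two_H l'
    have h5 := J_ge l'
    have hJ0 : (0 : ℝ) < J l' := by
      have : 0 < J l' := by omega
      exact_mod_cast this
    by_cases hN2 : N ≤ H l' - 3 * J l'
    · have : B l' = ∅ := by
        simp only [B]
        refine Finset.filter_eq_empty_iff.2 fun n hn => ?_
        rintro ⟨h6, -⟩
        have := Nat.mod_le n (M l')
        have := Finset.mem_range.1 hn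
        omega
      rw [this]
      simp only [Finset.card_empty, Nat.cast_zero]
      positivity
    · have hc := count_res N (M l') (H l' - 3 * J l') (5 * J l') (by omega)
      have hc' : ((B l').card : ℝ) ≤ 5 * J l' * ((N / M l' : ℕ) + 1 : ℝ) := by
        have : (B l').card ≤ 5 * J l' * (N / M l' + 1) := hc
        exact_mod_cast this
      have hM0 : (0 : ℝ) < M l' := by
        have : 0 < M l' := by omega
        exact_mod_cast this
      have h7 : ((N / M l' : ℕ) : ℝ) ≤ N / M l' := Nat.cast_div_le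
      have h8 : (M l' : ℝ) ≤ 4 * N := by
        have : M l' ≤ 4 * N := by omega
        exact_mod_cast this
      have h9 : (1 : ℝ) ≤ 4 * (N / M l') := by
        rw [← mul_div_assoc, le_div_iff₀ hM0, one_mul]
        exact h8
      have h10 : (M l' : ℝ) = (J l' : ℝ) ^ 4 := by
        have : M l' = J l' ^ 4 := rfl
        exact_mod_cast this
      calc ((B l').card : ℝ) ≤ 5 * J l' * ((N / M l' : ℕ) + 1 : ℝ) := hc'
        _ ≤ 5 * J l' * (N / M l' + 4 * (N / M l')) := by gcongr
        _ = 25 * N * (1 / (J l' : ℝ) ^ 3) := by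
          rw [h10]
          field_simp
          ring
  have hA : N / M l ≤ A.card := count_lower N (M l) (H l) (by omega) hHl
  have hcard : (A.card : ℝ) ≤ (((Finset.range N).filter fun n => Good l n).card : ℝ) +
      ∑ t ∈ Finset.range N, ((B (l + 1 + t)).card : ℝ) := by
    have h1 := (Finset.card_le_card hsub).trans (Finset.card_union_le _ _)
    have h2 : ((Finset.range N).biUnion fun t => B (l + 1 + t)).card ≤
      ∑ t ∈ Finset.range N, (B (l + 1 + t)).card := Finset.card_biUnion_le
    exact_mod_cast h1.trans (by gcongr)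
  have hsum : ∑ t ∈ Finset.range N, ((B (l + 1 + t)).card : ℝ) ≤ 50 * N / (M l : ℝ) ^ 3 := by
    calc ∑ t ∈ Finset.range N, ((B (l + 1 + t)).card : ℝ)
        ≤ ∑ t ∈ Finset.range N, 25 * (N : ℝ) * (1 / (J (l + 1 + t) : ℝ) ^ 3) :=
          Finset.sum_le_sum fun t _ => hB _
      _ = 25 * N * ∑ t ∈ Finset.range N, (1 / (J (l + 1 + t) : ℝ) ^ 3) := by rw [Finset.mul_sum]
      _ ≤ 25 * N * ((2 - 2 * (1 / 2) ^ N) / (M l) ^ 3) := by
          gcongr
          exact sum_bound l N
      _ ≤ 25 * N * (2 / (M l) ^ 3) := by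
          gcongr
          have : (0 : ℝ) ≤ (1 / 2) ^ N := by positivity
          linarith
      _ = _ := by ring
  have hMr : (65536 : ℝ) ≤ M l := by exact_mod_cast hMJ
  have hNr : 4 * (M l : ℝ) ≤ N := by exact_mod_cast hN
  have hfl : (N : ℝ) / M l - 1 ≤ A.card := by
    have h1 : (N : ℝ) / M l < (N / M l : ℕ) + 1 := by
      rw [div_lt_iff₀ (by linarith)]
      have := Nat.lt_div_mul_add (a := N) (b := M l) (by omega)
      have h3 : N < (N / M l + 1) * M l := by
        rw [add_mul, one_mul]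
        exact this
      exact_mod_cast h3
    have h2 : ((N / M l : ℕ) : ℝ) ≤ A.card := by exact_mod_cast hA
    linarith
  have hfin1 : 50 * (N : ℝ) / (M l : ℝ) ^ 3 ≤ N / (4 * M l) := by
    rw [div_le_div_iff₀ (by positivity) (by positivity)]
    nlinarith [mul_nonneg (Nat.cast_nonneg (α := ℝ) N) (Nat.cast_nonneg (α := ℝ) (M l)),
      mul_le_mul hMr hMr (by norm_num) (by linarith : (0:ℝ) ≤ M l)]
  have hfin2 : (1 : ℝ) ≤ N / (4 * M l) := by
    rw [le_div_iff₀ (by positivity)]
    linarith
  have e : (N : ℝ) / M l = N / (4 * M l) + N / (4 * M l) + N / (2 * M l) := by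
    field_simp
    ring
  linarith

/-! ### separability -/

instance sepX : TopologicalSpace.SeparableSpace X := by
  rw [← TopologicalSpace.isSeparable_univ_iff]
  let e : ℕ → X := fun n => mkX (Pi.single n 1) (Fin'_EC ⟨n + 1, fun t ht => by
    rw [Pi.single_apply, if_neg (by omega)]⟩)
  have h1 : TopologicalSpace.IsSeparable (Submodule.span ℝ (Set.range e) : Set X) :=
    (Set.countable_range e).isSeparable.span
  have h2 : {p : X | Fin' p.1.1} ⊆ (Submodule.span ℝ (Set.range e) : Set X) := by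
    rintro p ⟨m, hm⟩
    have e1 : p = ∑ n ∈ Finset.range m, p.1.1 n • e n := by
      apply X_ext
      funext t
      have e2 : ∀ s : Finset ℕ, (∑ n ∈ s, p.1.1 n • e n : X).1.1 t = ∑ n ∈ s, p.1.1 n * (Pi.single n (1 : ℝ) : ℕ → ℝ) t := by
        intro s
        induction s using Finset.induction_on with
        | empty => simp
        | insert a s ha ih =>
          rw [Finset.sum_insert ha, Finset.sum_insert ha, ← ih]
          rfl
      rw [e2]
      simp only [Pi.single_apply, mul_ite, mul_one, mul_zero, Finset.sum_ite_eq, Finset.mem_range]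
      split_ifs with h
      · rfl
      · exact hm _ (by omega)
    rw [e1]
    exact Submodule.sum_mem _ fun n _ => Submodule.smul_mem _ _ (Submodule.subset_span ⟨n, rfl⟩)
  exact h1.closure.mono fun p _ => closure_mono h2 (dense_fin p)

instance : (uniformity X).IsCountablyGenerated := by
  rw [uniformity_subtype]
  infer_instance

instance : SecondCountableTopology X := UniformSpace.secondCountable_of_separable X

/-! ### frequent hypercyclicity -/

theorem fhc : ∃ x : X, ∀ U : Set X, IsOpen U → U.Nonempty →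
    ∃ δ : ℝ, 0 < δ ∧ ∃ N₀ : ℕ, ∀ N : ℕ, N₀ ≤ N →
      δ * (N : ℝ) ≤ (Nat.card {n : ℕ // n < N ∧ (T ^ n) x ∈ U} : ℝ) := by
  classical
  obtain ⟨C, hCD, hCc, hCd⟩ := Dense.exists_countable_dense_subset dense_fin
  obtain ⟨g, hg⟩ := hCc.exists_eq_range hCd.nonempty
  let u : ℕ → ℕ → ℝ := fun l =>
    if ∀ n, l ≤ n → (g (Nat.unpair l).1).1.1 n = 0 then (g (Nat.unpair l).1).1.1 else 0
  let ξ : X := mkX (yy u) (yy_EC u)
  refine ⟨ξ, fun U hU hU0 => ?_⟩
  obtain ⟨v, hvU, hvC⟩ := hCd.inter_open_nonempty U hU hU0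
  have hvD := hCD hvC
  rw [hg] at hvC
  obtain ⟨a, rfl⟩ := hvC
  obtain ⟨m, hm⟩ : Fin' (g a).1.1 := hvD
  have hupos : ∀ b, m ≤ b → u (Nat.pair a b) = (g a).1.1 := by
    intro b hb
    have h1 := Nat.right_le_pair a b
    simp only [u, Nat.unpair_pair]
    rw [if_pos fun n hn => hm n (by omega)]
  let fl : Filter (ℕ × ℕ) := comap Prod.fst atTop ⊓ 𝓟 {bn | Good (Nat.pair a bn.1) bn.2}
  have hfst : Tendsto (fun bn : ℕ × ℕ => bn.1) fl atTop := tendsto_comap.mono_left inf_le_left
  have hpair : Tendsto (fun bn : ℕ × ℕ => Nat.pair a bn.1) fl atTop :=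
    tendsto_atTop_mono (fun bn => Nat.right_le_pair a bn.1) hfst
  have hgood : ∀ᶠ bn in fl, Good (Nat.pair a bn.1) bn.2 :=
    Filter.eventually_of_mem (mem_inf_of_right (mem_principal_self _)) fun _ h => h
  have ht : Tendsto (fun bn : ℕ × ℕ => (T ^ bn.2) ξ) fl (𝓝 (g a)) := by
    refine tendsto_of_step _ _ (fun n => ?_) (fun bn => Nat.pair a bn.1 + 1)
      ((tendsto_add_atTop_nat 1).comp hpair) (fun k => |(g a).1.1 k|) (fun k => ?_)
    · filter_upwards [hgood, hfst.eventually_ge_atTop m, hpair.eventually_ge_atTop n] with bn h1 h2 h3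
      rw [Tpow_fst]
      show yy u (n + bn.2) = _
      have hJ := lt_J (Nat.pair a bn.1)
      rw [add_comm, yy_good u h1 (by omega), hupos _ h2]
    · filter_upwards [hgood, hfst.eventually_ge_atTop m, hpair.eventually_ge_atTop k] with bn h1 h2 h3
      have hJ := lt_J (Nat.pair a bn.1)
      have hp := Nat.right_le_pair a bn.1
      have hval : ∀ i, Nat.pair a bn.1 < i →
          ((T ^ bn.2) ξ).1.1 (J i + k) - (g a).1.1 (J i + k) = (g a).1.1 k := by
        intro i hi
        rw [Tpow_fst]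
        show yy u (J i + k + bn.2) - _ = _
        have h4 := lt_J i
        rw [show J i + k + bn.2 = bn.2 + J i + k by ring, yy_good' u h1 hi (by omega), hupos _ h2,
          hm (J i + k) (by omega), sub_zero]
      refine ⟨fun i hi => ?_, ?_, (g a).1.1 k, le_rfl, fun i hi => hval i (by omega)⟩
      · rw [Tpow_fst]
        show yy u (J i + k + bn.2) = _
        have h4 := J_strictMono.monotone (show i ≤ Nat.pair a bn.1 by omega)
        rw [add_comm, yy_good u h1 (by omega), hupos _ h2]
      · rw [hval _ (by omega)]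
  have hev := ht.eventually (hU.mem_nhds hvU)
  obtain ⟨b, hb⟩ : ∃ b, ∀ n, Good (Nat.pair a b) n → (T ^ n) ξ ∈ U := by
    rw [Filter.eventually_inf_principal, eventually_comap, eventually_atTop] at hev
    obtain ⟨b, hb⟩ := hev
    exact ⟨b, fun n hn => hb b le_rfl (b, n) rfl hn⟩
  have hM : 0 < M (Nat.pair a b) := by
    have h1 := J_ge (Nat.pair a b)
    have h2 := M_big (Nat.pair a b)
    omega
  have hMr : (0 : ℝ) < M (Nat.pair a b) := by exact_mod_cast hM
  refine ⟨1 / (2 * M (Nat.pair a b)), by positivity, 4 * M (Nat.pair a b), fun N hN => ?_⟩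
  have h1 := good_count (Nat.pair a b) N hN
  have h2 : ((Finset.range N).filter fun n => Good (Nat.pair a b) n).card ≤
      Nat.card {n : ℕ // n < N ∧ (T ^ n) ξ ∈ U} := by
    have h3 : Nat.card {n : ℕ // n < N ∧ (T ^ n) ξ ∈ U} =
        ((Finset.range N).filter fun n => (T ^ n) ξ ∈ U).card := by
      exact Nat.subtype_card _ fun n => by simp
    rw [h3]
    refine Finset.card_le_card fun n hn => ?_
    rw [Finset.mem_filter] at hn ⊢
    exact ⟨hn.1, hb n hn.2⟩
  calc _ = (N : ℝ) / (2 * M (Nat.pair a b)) := by ring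
    _ ≤ _ := h1
    _ ≤ _ := by exact_mod_cast h2

/-! ### the criterion fails -/

/-- powers on the chosen preimages -/
lemma T_S {S : X → X} {X₀ : Set X} (hS : ∀ x ∈ X₀, S x ∈ X₀) (hT : ∀ x ∈ X₀, T (S x) = x) {p : X}
    (hp : p ∈ X₀) (m : ℕ) : S^[m] p ∈ X₀ ∧ ∀ n, ((T ^ n) (S^[n + m] p)) = S^[m] p := by
  have h1 : ∀ m, S^[m] p ∈ X₀ := by
    intro m
    induction m with
    | zero => exact hp
    | succ m ih =>
      rw [Function.iterate_succ_apply']
      exact hS _ ih
  refine ⟨h1 m, fun n => ?_⟩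
  induction n generalizing m with
  | zero => simp
  | succ n ih =>
    rw [pow_succ', show n + 1 + m = n + (m + 1) by ring]
    show T ((T ^ n) (S^[n + (m + 1)] p)) = _
    rw [ih, Function.iterate_succ_apply', hT _ (h1 m)]

theorem no_criterion : ¬ ∃ X₀ : Set X, Dense X₀ ∧ ∃ S : X → X, (∀ x ∈ X₀, S x ∈ X₀) ∧
    ∀ x ∈ X₀, Summable (fun n : ℕ => (T ^ n) x) ∧
      Summable (fun n : ℕ => S^[n] x) ∧ T (S x) = x := by
  rintro ⟨X₀, hX₀, S, hS, hall⟩
  have hev0 : Continuous fun q : X => q.1.1 0 :=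
    (continuous_apply 0).comp (continuous_fst.comp continuous_subtype_val)
  obtain ⟨p, hp, hpX⟩ : ∃ p ∈ X₀, p.1.1 0 ≠ 0 := by
    obtain ⟨p, hp1, hp2⟩ := hX₀.exists_mem_open (s := X₀) (U := {q : X | q.1.1 0 ≠ 0})
      (isOpen_ne.preimage hev0)
      ⟨mkX (Pi.single 0 1) (Fin'_EC ⟨1, fun t ht => by rw [Pi.single_apply, if_neg (by omega)]⟩), by
        simp [mkX_fst]⟩
    exact ⟨p, hp1, hp2⟩
  obtain ⟨hs1, hs2, -⟩ := hall p hp
  -- coordinates
  set A : ℝ := |p.1.1 0| with hA
  have hA0 : 0 < A := abs_pos.2 hpX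
  let φ : X →+ ℝ := ⟨⟨fun q => q.1.1 0, rfl⟩, fun _ _ => rfl⟩
  have ha : Summable fun n : ℕ => |p.1.1 n| := by
    have h1 := hs1.map φ hev0
    refine Summable.abs (h1.congr fun n => ?_)
    show ((T ^ n) p).1.1 0 = p.1.1 n
    rw [Tpow_fst, zero_add]
  have hb : Summable fun n : ℕ => |(S^[n] p).1.1 0| := Summable.abs (hs2.map φ hev0)
  have hval1 : ∀ m n, m ≤ n → (S^[m] p).1.1 n = p.1.1 (n - m) := by
    intro m n h
    have h1 := (T_S hS (fun x hx => (hall x hx).2.2) hp 0).2 m
    have h2 : ((T ^ m) (S^[m] p)).1.1 (n - m) = p.1.1 (n - m) := by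
      rw [show S^[m] p = S^[m + 0] p by simp, h1]
      rfl
    rw [← h2, Tpow_fst, Nat.sub_add_cancel h]
  have hval2 : ∀ m n, n ≤ m → (S^[m] p).1.1 n = (S^[m - n] p).1.1 0 := by
    intro m n h
    have h1 := (T_S hS (fun x hx => (hall x hx).2.2) hp (m - n)).2 n
    rw [← h1, Tpow_fst, zero_add, Nat.add_sub_cancel' h]
  -- tails
  have htail : ∀ f : ℕ → ℝ, (∀ n, 0 ≤ f n) → Summable f → ∃ R, ∀ t : Finset ℕ, (∀ n ∈ t, R ≤ n) →
      ∑ n ∈ t, f n ≤ A / 8 := by
    intro f hf0 hf
    obtain ⟨s, hs⟩ := summable_iff_vanishing_norm.1 hf (A / 8) (by positivity)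
    refine ⟨s.sup id + 1, fun t ht => ?_⟩
    have hd : Disjoint t s := by
      rw [Finset.disjoint_left]
      intro n hn hns
      have h1 := ht n hn
      have h2 : id n ≤ s.sup id := Finset.le_sup hns
      simp only [id] at h2
      omega
    exact (le_abs_self _).trans (hs t hd).le
  obtain ⟨R1, hR1⟩ := htail _ (fun n => abs_nonneg _) ha
  obtain ⟨R2, hR2⟩ := htail _ (fun n => abs_nonneg _) hb
  -- the vanishing set
  have hO : {q : X | ‖q.1.2 0‖ < 1} ∈ 𝓝 (0 : X) := by
    have hc : Continuous fun q : X => ‖q.1.2 0‖ :=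
      ((continuous_apply 0).comp (continuous_snd.comp continuous_subtype_val)).norm
    refine (isOpen_lt hc continuous_const).mem_nhds ?_
    show ‖(0 : L1)‖ < 1
    simp
  obtain ⟨s, hs⟩ := summable_iff_vanishing.1 hs2 _ hO
  obtain ⟨i₀, hi₀⟩ : ∃ i₀, ∀ i, i₀ ≤ i → s.sup id + R1 + R2 < J i :=
    eventually_atTop.1 (J_tendsto.eventually_gt_atTop _)
  -- distances
  have hdist : ∀ i i', i₀ ≤ i → i < i' → R1 ≤ J i' - J i ∧ R2 ≤ J i' - J i := by
    intro i i' h1 h2
    have h3 := hi₀ i h1
    have h4 := J_big i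
    have h5 := J_strictMono.monotone (show i + 1 ≤ i' from h2)
    omega
  -- error estimate
  have herr : ∀ (I : Finset ℕ), (∀ i ∈ I, i₀ ≤ i) → ∀ i', i₀ ≤ i' → i' ∉ I →
      |∑ i ∈ I, (S^[J i] p).1.1 (J i')| ≤ A / 4 := by
    intro I hI i' hi' hni
    have hsplit : I = (I.filter fun i => i < i') ∪ (I.filter fun i => i' < i) := by
      ext i
      simp only [Finset.mem_union, Finset.mem_filter]
      constructor
      · intro h
        rcases lt_trichotomy i i' with h2 | h2 | h2
        · exact Or.inl ⟨h, h2⟩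
        · exact absurd (h2 ▸ h) hni
        · exact Or.inr ⟨h, h2⟩
      · rintro (h | h) <;> exact h.1
    have hdisj : Disjoint (I.filter fun i => i < i') (I.filter fun i => i' < i) := by
      rw [Finset.disjoint_left]
      intro i h1 h2
      simp only [Finset.mem_filter] at h1 h2
      omega
    rw [hsplit, Finset.sum_union hdisj]
    have e1 : |∑ i ∈ I.filter fun i => i < i', (S^[J i] p).1.1 (J i')| ≤ A / 8 := by
      refine (Finset.abs_sum_le_sum_abs _ _).trans ?_
      have hinj : Set.InjOn (fun i => J i' - J i) (I.filter fun i => i < i') := by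
        intro i h1 j h2 h3
        simp only [Finset.coe_filter, Set.mem_ofPred_eq] at h1 h2 h3
        have h4 := J_strictMono h1.2
        have h5 := J_strictMono h2.2
        exact J_strictMono.injective (by omega)
      have := hR1 ((I.filter fun i => i < i').image fun i => J i' - J i) (by
        intro n hn
        obtain ⟨i, hi, rfl⟩ := Finset.mem_image.1 hn
        rw [Finset.mem_filter] at hi
        exact (hdist i i' (hI i hi.1) hi.2).1)
      rw [Finset.sum_image hinj] at this
      refine le_trans (Finset.sum_le_sum fun i hi => ?_) this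
      rw [Finset.mem_filter] at hi
      rw [hval1 _ _ (J_strictMono hi.2).le]
    have e2 : |∑ i ∈ I.filter fun i => i' < i, (S^[J i] p).1.1 (J i')| ≤ A / 8 := by
      refine (Finset.abs_sum_le_sum_abs _ _).trans ?_
      have hinj : Set.InjOn (fun i => J i - J i') (I.filter fun i => i' < i) := by
        intro i h1 j h2 h3
        simp only [Finset.coe_filter, Set.mem_ofPred_eq] at h1 h2 h3
        have h4 := J_strictMono h1.2
        have h5 := J_strictMono h2.2
        exact J_strictMono.injective (by omega)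
      have := hR2 ((I.filter fun i => i' < i).image fun i => J i - J i') (by
        intro n hn
        obtain ⟨i, hi, rfl⟩ := Finset.mem_image.1 hn
        rw [Finset.mem_filter] at hi
        exact (hdist i' i hi' hi.2).2)
      rw [Finset.sum_image hinj] at this
      refine le_trans (Finset.sum_le_sum fun i hi => ?_) this
      rw [Finset.mem_filter] at hi
      rw [hval2 _ _ (J_strictMono hi.2).le]
    refine (abs_add_le _ _).trans ?_
    linarith
  -- the sets of even indices
  have hsum1 : ∀ K : ℕ, A / 2 * ∑ r ∈ Finset.range K, al (2 * (i₀ + r)) < 1 := by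
    intro K
    let I : Finset ℕ := (Finset.range K).image fun r => 2 * (i₀ + r)
    have hI : ∀ i ∈ I, i₀ ≤ i := by
      intro i hi
      obtain ⟨r, -, rfl⟩ := Finset.mem_image.1 hi
      omega
    have hIe : ∀ i ∈ I, i + 1 ∉ I := by
      intro i hi h
      obtain ⟨r, -, rfl⟩ := Finset.mem_image.1 hi
      obtain ⟨r', -, h'⟩ := Finset.mem_image.1 h
      omega
    have hd : Disjoint (I.image J) s := by
      rw [Finset.disjoint_left]
      intro n hn hns
      obtain ⟨i, hi, rfl⟩ := Finset.mem_image.1 hn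
      have h1 := hi₀ i (hI i hi)
      have h2 : id (J i) ≤ s.sup id := Finset.le_sup hns
      simp only [id] at h2
      omega
    have hq := hs _ hd
    set q : X := ∑ b ∈ I.image J, S^[b] p with hqdef
    have hq1 : ‖q.1.2 0‖ < 1 := hq
    have hqv : ∀ t, q.1.1 t = ∑ i ∈ I, (S^[J i] p).1.1 t := by
      intro t
      rw [hqdef, Finset.sum_image fun a _ b _ h => J_strictMono.injective h]
      have e2 : ∀ s : Finset ℕ, (∑ n ∈ s, S^[J n] p : X).1.1 t = ∑ n ∈ s, (S^[J n] p).1.1 t := by
        intro s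
        induction s using Finset.induction_on with
        | empty => simp
        | insert a s ha ih =>
          rw [Finset.sum_insert ha, Finset.sum_insert ha, ← ih]
          rfl
      exact e2 I
    have hbig : ∀ i ∈ I, A / 2 * al i ≤ |(q.1.2 0 : ℕ → ℝ) i| := by
      intro i hi
      rw [X_rel q.2]
      unfold wf
      rw [abs_mul, abs_of_pos (al_pos i), mul_comm]
      refine mul_le_mul_of_nonneg_left ?_ (al_pos i).le
      rw [add_zero, add_zero]
      have h1 : |q.1.1 (J (i + 1))| ≤ A / 4 := by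
        rw [hqv]
        exact herr I hI (i + 1) (by have := hI i hi; omega) (hIe i hi)
      have h2 : |q.1.1 (J i) - p.1.1 0| ≤ A / 4 := by
        rw [hqv, ← Finset.sum_erase_add _ _ hi, hval1 _ _ le_rfl, Nat.sub_self, add_sub_cancel_right]
        exact herr (I.erase i) (fun j hj => hI j (Finset.mem_of_mem_erase hj)) i (hI i hi)
          (Finset.notMem_erase i I)
      have h3 : A = |p.1.1 0| := hA
      have h4 : |p.1.1 0| ≤ |q.1.1 (J i) - p.1.1 0| + |q.1.1 (J i) - q.1.1 (J (i + 1))| +
          |q.1.1 (J (i + 1))| := by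
        have : p.1.1 0 = -(q.1.1 (J i) - p.1.1 0) + (q.1.1 (J i) - q.1.1 (J (i + 1))) +
          q.1.1 (J (i + 1)) := by ring
        calc |p.1.1 0| = |-(q.1.1 (J i) - p.1.1 0) + (q.1.1 (J i) - q.1.1 (J (i + 1))) +
          q.1.1 (J (i + 1))| := by rw [← this]
          _ ≤ _ := (abs_add_three _ _ _).trans (by rw [abs_neg])
      linarith
    have h5 := sum_le_norm (q.1.2 0) I
    have h6 : A / 2 * ∑ r ∈ Finset.range K, al (2 * (i₀ + r)) = ∑ i ∈ I, A / 2 * al i := by
      rw [Finset.mul_sum, Finset.sum_image fun a _ b _ h => by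
        have : 2 * (i₀ + a) = 2 * (i₀ + b) := h
        omega]
    rw [h6]
    exact lt_of_le_of_lt ((Finset.sum_le_sum hbig).trans h5) hq1
  -- divergence
  have hdiv : Tendsto (fun K => ∑ r ∈ Finset.range K, al (2 * (i₀ + r))) atTop atTop := by
    have h1 : ¬ Summable fun r : ℕ => (1 : ℝ) / ((r + (i₀ + 1) : ℕ) : ℝ) := by
      intro h
      exact Real.not_summable_one_div_natCast ((summable_nat_add_iff (i₀ + 1)).1 h)
    have h2 : ¬ Summable fun r : ℕ => al (2 * (i₀ + r)) := by
      intro h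
      apply h1
      refine Summable.of_nonneg_of_le (fun r => by positivity) (fun r => ?_) (h.mul_left 2)
      unfold al
      rw [mul_one_div, div_le_div_iff₀ (by positivity) (by positivity)]
      push_cast
      linarith
    exact (not_summable_iff_tendsto_nat_atTop_of_nonneg fun r => (al_pos _).le).1 h2
  obtain ⟨K, hK⟩ := (hdiv.eventually_ge_atTop (2 / A)).exists
  have := hsum1 K
  have h3 : A / 2 * (2 / A) = 1 := by field_simp
  have h4 : A / 2 * (2 / A) ≤ A / 2 * ∑ r ∈ Finset.range K, al (2 * (i₀ + r)) := by gcongr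
  linarith

end Pool.Agent.X38.FHC
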