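import Mathlib

set_option autoImplicit false

namespace Pool.Agent.X38.CoDeg

open Finset

/-! ### A family of colourings under which every large set is rarely incomplete -/

/-- number of colourings of `W` with `l` colours which miss a colour on `A` -/
lemma card_bad {W : Type} [Fintype W] [DecidableEq W] (l : ℕ) [NeZero l] (A : Finset W) :
    (univ.filter fun f : W → ZMod l => A.image f ≠ univ).card
      ≤ l * ((l - 1) ^ A.card * l ^ (Fintype.card W - A.card)) := by
  have h1 : (univ.filter fun f : W → ZMod l => A.image f ≠ univ) ⊆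
      (univ : Finset (ZMod l)).biUnion fun c =>
        Fintype.piFinset fun a : W => if a ∈ A then univ.erase c else univ := by
    intro f hf
    simp only [mem_filter, mem_univ, true_and] at hf
    have : ∃ c, c ∉ A.image f := by
      by_contra hcon
      push Not at hcon
      exact hf (eq_univ_iff_forall.2 hcon)
    obtain ⟨c, hc⟩ := this
    simp only [mem_biUnion, mem_univ, true_and, Fintype.mem_piFinset]
    refine ⟨c, fun a => ?_⟩
    split_ifs with ha
    · refine mem_erase.2 ⟨fun h => hc (mem_image.2 ⟨a, ha, h⟩), mem_univ _⟩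
    · exact mem_univ _
  refine (card_le_card h1).trans ?_
  refine card_biUnion_le.trans ?_
  have h2 : ∀ c ∈ (univ : Finset (ZMod l)),
      (Fintype.piFinset fun a : W => if a ∈ A then (univ : Finset (ZMod l)).erase c else univ).card
        = (l - 1) ^ A.card * l ^ (Fintype.card W - A.card) := by
    intro c _
    rw [Fintype.card_piFinset]
    have h3 : ∀ a : W, (if a ∈ A then (univ : Finset (ZMod l)).erase c else univ).card
        = if a ∈ A then l - 1 else l := by
      intro a
      split_ifs
      · rw [card_erase_of_mem (mem_univ _), card_univ, ZMod.card]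
      · rw [card_univ, ZMod.card]
    rw [prod_congr rfl fun a _ => h3 a, prod_ite, prod_const, prod_const]
    congr 2
    · congr 1
      ext a; simp
    · rw [← card_compl]
      congr 1
      ext a; simp
  rw [sum_congr rfl h2, sum_const, card_univ, ZMod.card, smul_eq_mul]

lemma hash_general {I W : Type} [Fintype I] [Fintype W] [DecidableEq I] [DecidableEq W]
    (l p θ : ℕ) [NeZero l]
    (hz : 4 ^ p * (l * (l - 1) ^ θ) ≤ l ^ θ)
    (hN : (Fintype.card W) ^ θ < 2 ^ (Fintype.card I)) :
    ∃ F : I → W → ZMod l, ∀ A : Finset W, A.card = θ →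
      p * (univ.filter fun r => A.image (F r) ≠ univ).card ≤ Fintype.card I := by
  classical
  by_contra hcon
  push Not at hcon
  set M := Fintype.card I with hM
  set N := Fintype.card W with hNdef
  set Ω := Fintype.card (I → W → ZMod l) with hΩ
  let g : Finset W → (W → ZMod l) → ℕ := fun A f => if A.image f ≠ univ then 4 ^ p else 1
  -- upper bound
  have hup : ∀ A ∈ (univ : Finset W).powersetCard θ,
      ∑ F : I → W → ZMod l, ∏ r, g A (F r) ≤ 2 ^ M * Ω := by
    intro A hA
    have hAc : A.card = θ := (mem_powersetCard.1 hA).2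
    have hθN : θ ≤ N := by rw [← hAc]; exact card_le_univ A
    have h1 : ∑ F : I → W → ZMod l, ∏ r, g A (F r) = (∑ f : W → ZMod l, g A f) ^ M := by
      have := Finset.prod_univ_sum (fun _ : I => (univ : Finset (W → ZMod l)))
        (fun _ f => g A f)
      rw [Fintype.piFinset_univ] at this
      rw [← this, prod_const, card_univ]
    have h2 : ∑ f : W → ZMod l, g A f ≤ 2 * Fintype.card (W → ZMod l) := by
      have h3 : ∀ f : W → ZMod l, g A f ≤ 1 + 4 ^ p * (if A.image f ≠ univ then 1 else 0) := by
        intro f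
        simp only [g]
        split_ifs <;> simp
      refine (sum_le_sum fun f _ => h3 f).trans ?_
      rw [sum_add_distrib, sum_const, card_univ, smul_eq_mul, mul_one, ← mul_sum,
        ← card_filter]
      have h4 := card_bad l A
      rw [hAc] at h4
      have h5 : 4 ^ p * (univ.filter fun f : W → ZMod l => A.image f ≠ univ).card
          ≤ Fintype.card (W → ZMod l) := by
        calc 4 ^ p * (univ.filter fun f : W → ZMod l => A.image f ≠ univ).card
            ≤ 4 ^ p * (l * ((l - 1) ^ θ * l ^ (Fintype.card W - θ))) := Nat.mul_le_mul_left _ h4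
          _ = (4 ^ p * (l * (l - 1) ^ θ)) * l ^ (Fintype.card W - θ) := by ring
          _ ≤ l ^ θ * l ^ (Fintype.card W - θ) := Nat.mul_le_mul_right _ hz
          _ = l ^ Fintype.card W := by rw [← pow_add]; congr 1; omega
          _ = Fintype.card (W → ZMod l) := by rw [Fintype.card_fun, ZMod.card]
      omega
    rw [h1]
    calc (∑ f : W → ZMod l, g A f) ^ M ≤ (2 * Fintype.card (W → ZMod l)) ^ M :=
          Nat.pow_le_pow_left h2 _
      _ = 2 ^ M * Ω := by
          rw [mul_pow, hΩ, Fintype.card_fun (α := I)]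
  have hup2 : ∑ A ∈ (univ : Finset W).powersetCard θ, ∑ F : I → W → ZMod l, ∏ r, g A (F r)
      < 2 ^ M * (2 ^ M * Ω) := by
    refine (sum_le_sum hup).trans_lt ?_
    rw [sum_const, smul_eq_mul, card_powersetCard, card_univ]
    have hΩpos : 0 < Ω := Fintype.card_pos
    have h6 : N.choose θ < 2 ^ M := (Nat.choose_le_pow _ _).trans_lt hN
    exact Nat.mul_lt_mul_of_pos_right h6 (by positivity)
  -- lower bound
  rw [sum_comm] at hup2
  have hlow : ∀ F : I → W → ZMod l, 4 ^ M ≤
      ∑ A ∈ (univ : Finset W).powersetCard θ, ∏ r, g A (F r) := by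
    intro F
    obtain ⟨A, hA, hAM⟩ := hcon F
    have hmem : A ∈ (univ : Finset W).powersetCard θ := mem_powersetCard.2 ⟨subset_univ _, hA⟩
    refine le_trans ?_ (single_le_sum (f := fun A => ∏ r, g A (F r))
      (fun _ _ => Nat.zero_le _) hmem)
    have : ∏ r, g A (F r) = (4 ^ p) ^ (univ.filter fun r => A.image (F r) ≠ univ).card := by
      simp only [g]
      rw [prod_ite, prod_const, prod_const_one, mul_one]
    rw [this, ← pow_mul]
    exact Nat.pow_le_pow_right (by norm_num) hAM.le
  have := sum_le_sum fun F (_ : F ∈ (univ : Finset (I → W → ZMod l))) => hlow F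
  rw [sum_const, card_univ, smul_eq_mul] at this
  have h7 : Ω * 4 ^ M < 2 ^ M * (2 ^ M * Ω) := this.trans_lt hup2
  have h8 : 2 ^ M * (2 ^ M * Ω) = Ω * 4 ^ M := by
    rw [show (4 : ℕ) = 2 * 2 from rfl, mul_pow]; ring
  omega

lemma exists_theta (l p : ℕ) (hl : 2 ≤ l) : ∃ θ : ℕ, 4 ^ p * (l * (l - 1) ^ θ) ≤ l ^ θ := by
  have hl0 : (0 : ℝ) < l := by exact_mod_cast (by omega : 0 < l)
  have h1 : ((l : ℝ) - 1) / l < 1 := by
    rw [div_lt_one hl0]; linarith
  have h0 : 0 ≤ ((l : ℝ) - 1) / l := by
    apply div_nonneg _ hl0.le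
    have : (2 : ℝ) ≤ l := by exact_mod_cast hl
    linarith
  have hpos : (0 : ℝ) < 1 / (4 ^ p * l) := by positivity
  obtain ⟨θ, hθ⟩ := exists_pow_lt_of_lt_one hpos h1
  refine ⟨θ, ?_⟩
  rw [div_pow, div_lt_div_iff₀ (by positivity) (by positivity)] at hθ
  have : ((4 ^ p * (l * (l - 1) ^ θ) : ℕ) : ℝ) ≤ ((l ^ θ : ℕ) : ℝ) := by
    push_cast [Nat.cast_sub (by omega : 1 ≤ l)]
    nlinarith
  exact_mod_cast this

lemma eventually_small (c θ : ℕ) : ∀ᶠ M : ℕ in Filter.atTop, (M * c) ^ θ < 2 ^ M := by
  have h := tendsto_pow_const_div_const_pow_of_one_lt θ (r := (2 : ℝ)) (by norm_num)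
  have hpos : (0 : ℝ) < 1 / ((c : ℝ) ^ θ + 1) := by positivity
  filter_upwards [h.eventually (gt_mem_nhds hpos)] with M hM
  rw [div_lt_div_iff₀ (by positivity) (by positivity)] at hM
  have : (((M * c) ^ θ : ℕ) : ℝ) < ((2 ^ M : ℕ) : ℝ) := by
    push_cast
    rw [mul_pow]
    have : (0 : ℝ) ≤ (M : ℝ) ^ θ := by positivity
    nlinarith
  exact_mod_cast this

end Pool.Agent.X38.CoDeg
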