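import Mathlib

set_option autoImplicit false

namespace Pool.Agent.X38.CoDeg

open Finset

/-! ### A labelling rule for profiles -/

/-- truncated excess of a profile -/
def exc {m : ℕ} (θ : ℕ) (t : Fin m → ℕ) (j : Fin m) : ℕ := t j - θ

/-- total excess -/
def tot {m : ℕ} (θ : ℕ) (t : Fin m → ℕ) : ℕ := ∑ j, exc θ t j

/-- excess of the parts before `a` -/
def pre {m : ℕ} (θ : ℕ) (t : Fin m → ℕ) (a : ℕ) : ℕ := ∑ j : Fin m, if (j : ℕ) < a then exc θ t j else 0

/-- the hash of a profile, a residue modulo `2m` -/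
def hsh {m : ℕ} (t : Fin m → ℕ) : ℕ := ((2 * m - 1) * ∑ j : Fin m, (j : ℕ) * t j) % (2 * m)

/-- `j` is a label of the profile `t` -/
def IsLab {m : ℕ} (θ : ℕ) (t : Fin m → ℕ) (j : Fin m) : Prop :=
  2 * m * pre θ t j ≤ hsh t * tot θ t ∧ hsh t * tot θ t < 2 * m * pre θ t (j + 1)

lemma pre_zero {m : ℕ} (θ : ℕ) (t : Fin m → ℕ) : pre θ t 0 = 0 := by simp [pre]

lemma pre_m {m : ℕ} (θ : ℕ) (t : Fin m → ℕ) : pre θ t m = tot θ t := by
  unfold pre tot
  refine sum_congr rfl fun j _ => ?_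
  rw [if_pos j.2]

lemma pre_succ {m : ℕ} (θ : ℕ) (t : Fin m → ℕ) (j : Fin m) :
    pre θ t (j + 1) = pre θ t j + exc θ t j := by
  unfold pre
  have h : ∀ i : Fin m, (if (i : ℕ) < (j : ℕ) + 1 then exc θ t i else 0)
      = (if (i : ℕ) < j then exc θ t i else 0) + (if i = j then exc θ t i else 0) := by
    intro i
    by_cases h1 : i = j
    · subst h1; simp
    · have h2 : (i : ℕ) ≠ j := fun h => h1 (Fin.ext h)
      by_cases h3 : (i : ℕ) < j
      · rw [if_pos (by omega), if_pos h3, if_neg h1]; rfl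
      · rw [if_neg (by omega), if_neg h3, if_neg h1]
  rw [sum_congr rfl fun i _ => h i, sum_add_distrib]
  simp

lemma pre_mono {m : ℕ} (θ : ℕ) (t : Fin m → ℕ) {a b : ℕ} (h : a ≤ b) : pre θ t a ≤ pre θ t b := by
  unfold pre
  refine sum_le_sum fun i _ => ?_
  split_ifs <;> first | exact le_rfl | omega

lemma hsh_lt {m : ℕ} (hm : 0 < m) (t : Fin m → ℕ) : hsh t < 2 * m :=
  Nat.mod_lt _ (by omega)

/-- every profile of positive excess has a label -/
lemma exists_lab {m : ℕ} (hm : 0 < m) (θ : ℕ) (t : Fin m → ℕ) (ht : 0 < tot θ t) :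
    ∃ j, IsLab θ t j := by
  by_contra hcon
  push Not at hcon
  have key : ∀ a : ℕ, a ≤ m → 2 * m * pre θ t a ≤ hsh t * tot θ t := by
    intro a
    induction a with
    | zero => intro _; rw [pre_zero]; simp
    | succ a ih =>
      intro ha
      by_contra h
      push Not at h
      exact hcon ⟨a, by omega⟩ ⟨ih (by omega), h⟩
  have h1 := key m le_rfl
  rw [pre_m] at h1
  have h2 := hsh_lt hm t
  exact absurd h1 (not_le.2 (Nat.mul_lt_mul_of_pos_right h2 ht))

lemma IsLab.exc_pos {m : ℕ} {θ : ℕ} {t : Fin m → ℕ} {j : Fin m} (h : IsLab θ t j) : θ < t j := by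
  have h1 := h.1.trans_lt h.2
  rw [pre_succ] at h1
  have h2 : 0 < exc θ t j := by
    by_contra h3
    have : exc θ t j = 0 := by omega
    rw [this, Nat.add_zero] at h1
    exact lt_irrefl _ h1
  unfold exc at h2
  omega

/-- add two at `j` -/
def bump {m : ℕ} (s : Fin m → ℕ) (j : Fin m) : Fin m → ℕ := fun i => if i = j then s i + 2 else s i

lemma pre_bump {m : ℕ} (θ : ℕ) (s : Fin m → ℕ) (j : Fin m) : pre θ (bump s j) j = pre θ s j := by
  unfold pre
  refine sum_congr rfl fun i _ => ?_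
  split_ifs with h
  · unfold exc bump
    have : i ≠ j := fun h' => by subst h'; omega
    rw [if_neg this]
  · rfl

lemma exc_bump_self {m : ℕ} (θ : ℕ) (s : Fin m → ℕ) (j : Fin m) :
    ∃ d ≤ 2, exc θ (bump s j) j = exc θ s j + d ∧ tot θ (bump s j) = tot θ s + d := by
  refine ⟨exc θ (bump s j) j - exc θ s j, ?_, ?_, ?_⟩
  · unfold exc bump; simp; omega
  · unfold exc bump; simp; omega
  · unfold tot
    rw [← add_sum_erase _ _ (mem_univ j), ← add_sum_erase _ _ (mem_univ j)]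
    have h : ∑ x ∈ univ.erase j, exc θ (bump s j) x = ∑ x ∈ univ.erase j, exc θ s x := by
      refine sum_congr rfl fun i hi => ?_
      unfold exc bump
      rw [if_neg (mem_erase.1 hi).1]
    rw [h]
    have : exc θ s j ≤ exc θ (bump s j) j := by unfold exc bump; simp; omega
    omega

lemma hsh_bump {m : ℕ} (hm : 0 < m) (s : Fin m → ℕ) (j : Fin m) :
    (hsh (bump s j) = hsh s - 2 * j ∧ 2 * (j : ℕ) ≤ hsh s) ∨
      (hsh (bump s j) = hsh s + 2 * m - 2 * j ∧ hsh s < 2 * (j : ℕ)) := by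
  have hj := j.2
  have h1 : ∑ i : Fin m, (i : ℕ) * bump s j i = ∑ i : Fin m, (i : ℕ) * s i + 2 * j := by
    rw [← add_sum_erase _ _ (mem_univ j), ← add_sum_erase (a := j) univ (fun i : Fin m => (i : ℕ) * s i) (mem_univ j)]
    have h : ∑ x ∈ univ.erase j, (x : ℕ) * bump s j x = ∑ x ∈ univ.erase j, (x : ℕ) * s x := by
      refine sum_congr rfl fun i hi => ?_
      unfold bump
      rw [if_neg (mem_erase.1 hi).1]
    rw [h]
    unfold bump
    simp
    ring
  have h2 := hsh_lt hm s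
  have h3 := hsh_lt hm (bump s j)
  unfold hsh at *
  rw [h1] at *
  set X := ∑ i : Fin m, (i : ℕ) * s i with hX
  have h4 : (2 * m - 1) * (X + 2 * j) = (2 * m - 1) * X + (2 * m - 1) * (2 * j) := by ring
  -- (2m-1)(2j) + 2j = 2m * 2j
  have h5 : (2 * m - 1) * (2 * (j : ℕ)) + 2 * j = 2 * m * (2 * j) := by
    have : 2 * m - 1 + 1 = 2 * m := by omega
    calc (2 * m - 1) * (2 * (j : ℕ)) + 2 * j = (2 * m - 1 + 1) * (2 * j) := by ring
      _ = _ := by rw [this]
  set Y := (2 * m - 1) * X with hY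
  set Z := (2 * m - 1) * (X + 2 * j) with hZ
  have h6 : (Z + 2 * j) % (2 * m) = Y % (2 * m) := by
    have : Z + 2 * j = Y + 2 * m * (2 * j) := by rw [h4, ← h5]; ring
    rw [this, Nat.add_mul_mod_self_left]
  have h7 : (Z % (2 * m) + 2 * j) % (2 * m) = Y % (2 * m) := by
    rw [← h6, Nat.mod_add_mod]
  by_cases h8 : Z % (2 * m) + 2 * j < 2 * m
  · left
    rw [Nat.mod_eq_of_lt h8] at h7
    omega
  · right
    have h9 : (Z % (2 * m) + 2 * j) % (2 * m) = Z % (2 * m) + 2 * j - 2 * m := by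
      rw [Nat.mod_eq_sub_mod (by omega), Nat.mod_eq_of_lt (by omega)]
    rw [h9] at h7
    omega

lemma lab_unique_aux {m : ℕ} (θ : ℕ) (s : Fin m → ℕ) (hs : 2 * m ≤ tot θ s)
    {j j' : Fin m} (hjj : j < j') (hj : IsLab θ (bump s j) j) (hj' : IsLab θ (bump s j') j')
    (hu : hsh (bump s j') + 2 ≤ hsh (bump s j)) (hlt : hsh (bump s j) < 2 * m) : False := by
  obtain ⟨d, hd, hd1, hd2⟩ := exc_bump_self θ s j
  obtain ⟨d', hd', -, hd2'⟩ := exc_bump_self θ s j'
  have h1 := hj.2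
  have h2 := hj'.1
  rw [pre_bump] at h2
  rw [pre_succ, pre_bump, hd1, hd2] at h1
  rw [hd2'] at h2
  have h3 : pre θ s j + exc θ s j ≤ pre θ s j' := by
    rw [← pre_succ]
    exact pre_mono θ s (by exact Nat.succ_le_of_lt hjj)
  set u := hsh (bump s j) with hu0
  set u' := hsh (bump s j') with hu0'
  set Q := tot θ s with hQ
  set P := pre θ s j + exc θ s j with hP
  have h4 : 2 * m * (pre θ s j + (exc θ s j + d)) ≤ 2 * m * pre θ s j' + 2 * m * d := by
    have : pre θ s j + (exc θ s j + d) ≤ pre θ s j' + d := by omega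
    calc _ ≤ 2 * m * (pre θ s j' + d) := Nat.mul_le_mul_left _ this
      _ = _ := by ring
  have h5 : u * (Q + d) < u' * (Q + d') + 2 * m * d := by omega
  have h6 : u' * (Q + d') ≤ (u - 2) * (Q + 2) := Nat.mul_le_mul (by omega) (by omega)
  obtain ⟨v, hv⟩ : ∃ v, u = v + 2 := ⟨u - 2, by omega⟩
  rw [hv] at h5 h6 hlt
  simp only [Nat.add_sub_cancel] at h6
  obtain ⟨c, hc⟩ : ∃ c, 2 * m = v + 2 + c := ⟨2 * m - (v + 2), by omega⟩
  -- (v+2)(Q+d) < v(Q+2) + 2m d
  have h7 : (v + 2) * (Q + d) < v * (Q + 2) + (v + 2 + c) * d := by rw [← hc]; omega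
  have h8 : c * d ≤ c * 2 := Nat.mul_le_mul_left _ hd
  nlinarith

/-- **At most two labels are attracted by adding two elements to a part.** -/
lemma card_lab_le {m : ℕ} (hm : 0 < m) (θ : ℕ) (s : Fin m → ℕ) (hs : 2 * m ≤ tot θ s)
    [DecidablePred fun j : Fin m => IsLab θ (bump s j) j] :
    (univ.filter fun j : Fin m => IsLab θ (bump s j) j).card ≤ 2 := by
  classical
  have h1 : (univ.filter fun j : Fin m => IsLab θ (bump s j) j)
      = (univ.filter fun j : Fin m => IsLab θ (bump s j) j ∧ 2 * (j : ℕ) ≤ hsh s) ∪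
        (univ.filter fun j : Fin m => IsLab θ (bump s j) j ∧ hsh s < 2 * (j : ℕ)) := by
    ext j
    simp only [mem_filter, mem_univ, true_and, mem_union]
    constructor
    · intro h
      by_cases h2 : 2 * (j : ℕ) ≤ hsh s
      · exact Or.inl ⟨h, h2⟩
      · exact Or.inr ⟨h, by omega⟩
    · rintro (h | h) <;> exact h.1
  rw [h1]
  have aux : ∀ j j' : Fin m, j < j' → IsLab θ (bump s j) j → IsLab θ (bump s j') j' →
      ((2 * (j : ℕ) ≤ hsh s ∧ 2 * (j' : ℕ) ≤ hsh s) ∨ (hsh s < 2 * (j : ℕ) ∧ hsh s < 2 * (j' : ℕ))) →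
      False := by
    intro j j' hjj hj hj' hb
    have hlt : (j : ℕ) < j' := hjj
    have hj2 := j'.2
    refine lab_unique_aux θ s hs hjj hj hj' ?_ (hsh_lt hm _)
    have e1 := hsh_bump hm s j
    have e2 := hsh_bump hm s j'
    have e3 := hsh_lt hm s
    omega
  refine (card_union_le _ _).trans ?_
  have c1 : (univ.filter fun j : Fin m => IsLab θ (bump s j) j ∧ 2 * (j : ℕ) ≤ hsh s).card ≤ 1 := by
    rw [card_le_one]
    intro a ha b hb
    simp only [mem_filter, mem_univ, true_and] at ha hb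
    by_contra hab
    rcases lt_or_gt_of_ne hab with h | h
    · exact aux a b h ha.1 hb.1 (Or.inl ⟨ha.2, hb.2⟩)
    · exact aux b a h hb.1 ha.1 (Or.inl ⟨hb.2, ha.2⟩)
  have c2 : (univ.filter fun j : Fin m => IsLab θ (bump s j) j ∧ hsh s < 2 * (j : ℕ)).card ≤ 1 := by
    rw [card_le_one]
    intro a ha b hb
    simp only [mem_filter, mem_univ, true_and] at ha hb
    by_contra hab
    rcases lt_or_gt_of_ne hab with h | h
    · exact aux a b h ha.1 hb.1 (Or.inr ⟨ha.2, hb.2⟩)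
    · exact aux b a h hb.1 ha.1 (Or.inr ⟨hb.2, ha.2⟩)
  omega

end Pool.Agent.X38.CoDeg
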