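import Pool.Agent.X38.CoDegA
import Pool.Agent.X38.CoDegB

set_option autoImplicit false

namespace Pool.Agent.X38.CoDeg

open Finset

variable {m M l : ℕ} [NeZero M] [NeZero l]

/-- the hitting systems -/
def InSys (F : ZMod M → ZMod M × ZMod l → ZMod l) (c : ZMod M × ZMod l)
    (A : Finset (ZMod M × ZMod l)) : Prop :=
  A.image (F c.1) ≠ univ ∨ ∑ a ∈ A, F c.1 a = c.2

lemma InSys.hit (F : ZMod M → ZMod M × ZMod l → ZMod l) (c : ZMod M × ZMod l)
    (U : Finset (ZMod M × ZMod l)) (hU : U.Nonempty) : ∃ w ∈ U, InSys F c (U.erase w) := by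
  by_cases h : U.image (F c.1) = univ
  · have h1 : (∑ a ∈ U, F c.1 a) - c.2 ∈ U.image (F c.1) := by rw [h]; exact mem_univ _
    obtain ⟨w, hw, hwe⟩ := mem_image.1 h1
    refine ⟨w, hw, Or.inr ?_⟩
    have h2 := add_sum_erase U (fun a => F c.1 a) hw
    have h3 : ∑ a ∈ U.erase w, F c.1 a = ∑ a ∈ U, F c.1 a - F c.1 w := by
      rw [← h2]; ring
    rw [h3, hwe]; ring
  · obtain ⟨w, hw⟩ := hU
    refine ⟨w, hw, Or.inl fun h2 => h ?_⟩
    rw [eq_univ_iff_forall] at h2 ⊢
    intro x
    exact image_subset_image (erase_subset _ _) (h2 x)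

open Classical in
lemma count_sys (F : ZMod M → ZMod M × ZMod l → ZMod l) (A : Finset (ZMod M × ZMod l))
    (hA : l * (univ.filter fun r => A.image (F r) ≠ univ).card ≤ M) :
    (univ.filter fun c : ZMod M × ZMod l => InSys F c A).card ≤ 2 * M := by
  have h1 : (univ.filter fun c : ZMod M × ZMod l => InSys F c A) ⊆
      (univ.filter fun r => A.image (F r) ≠ univ) ×ˢ (univ : Finset (ZMod l)) ∪
        univ.image fun r => (r, ∑ a ∈ A, F r a) := by
    intro c hc
    simp only [mem_filter, mem_univ, true_and] at hc
    rcases hc with h | h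
    · refine mem_union_left _ (mem_product.2 ⟨?_, mem_univ _⟩)
      simpa using h
    · refine mem_union_right _ (mem_image.2 ⟨c.1, mem_univ _, ?_⟩)
      rw [h]
  refine (card_le_card h1).trans ((card_union_le _ _).trans ?_)
  have h2 : (univ.image fun r : ZMod M => (r, ∑ a ∈ A, F r a)).card ≤ M := by
    refine card_image_le.trans ?_
    rw [card_univ, ZMod.card]
  rw [card_product, card_univ, ZMod.card]
  rw [mul_comm] at hA
  omega

/-- the part of `e` in part `i` -/
def slice (e : Finset (Fin m × (ZMod M × ZMod l))) (i : Fin m) : Finset (ZMod M × ZMod l) :=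
  univ.filter fun w => (i, w) ∈ e

/-- the rest of `e` -/
def rest (e : Finset (Fin m × (ZMod M × ZMod l))) (i : Fin m) :
    Finset (Fin m × (ZMod M × ZMod l)) := e.filter fun v => v.1 ≠ i

/-- index of a set -/
def idx (R : Finset (Fin m × (ZMod M × ZMod l))) : ZMod M × ZMod l := ∑ v ∈ R, v.2

/-- profile -/
def prof (e : Finset (Fin m × (ZMod M × ZMod l))) (i : Fin m) : ℕ := (slice e i).card

lemma sum_prof (e : Finset (Fin m × (ZMod M × ZMod l))) : ∑ i, prof e i = e.card := by
  rw [card_eq_sum_card_fiberwise (f := fun v => v.1) (t := (univ : Finset (Fin m)))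
    (fun _ _ => mem_coe.2 (mem_univ _))]
  refine sum_congr rfl fun i _ => ?_
  unfold prof
  have : (e.filter fun v => v.1 = i) = (slice e i).image fun w => (i, w) := by
    ext ⟨j, w⟩
    simp only [slice, mem_filter, mem_image, mem_univ, true_and, Prod.mk.injEq]
    constructor
    · rintro ⟨h1, h2⟩
      subst h2
      exact ⟨w, h1, rfl, rfl⟩
    · rintro ⟨w', h1, h2, h3⟩
      subst h2; subst h3
      exact ⟨h1, rfl⟩
  rw [this, card_image_of_injective]
  intro a b h
  exact (Prod.mk.injEq _ _ _ _ ▸ h).2

/-- add one at `i` -/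
def bump1 (s : Fin m → ℕ) (i : Fin m) : Fin m → ℕ := fun i' => if i' = i then s i' + 1 else s i'

/-- the non-edges -/
def NonEdge (θ : ℕ) (F : ZMod M → ZMod M × ZMod l → ZMod l)
    (e : Finset (Fin m × (ZMod M × ZMod l))) : Prop :=
  ∃ i, IsLab θ (bump1 (prof e) i) i ∧ InSys F (idx (rest e i)) (slice e i)

lemma slice_erase_self (T : Finset (Fin m × (ZMod M × ZMod l))) (i : Fin m) (w : ZMod M × ZMod l) :
    slice (T.erase (i, w)) i = (slice T i).erase w := by
  ext x
  simp only [slice, mem_filter, mem_univ, true_and, mem_erase, ne_eq, Prod.mk.injEq]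

lemma slice_erase_ne (T : Finset (Fin m × (ZMod M × ZMod l))) (i i' : Fin m)
    (w : ZMod M × ZMod l) (h : i' ≠ i) : slice (T.erase (i, w)) i' = slice T i' := by
  ext x
  simp only [slice, mem_filter, mem_univ, true_and, mem_erase, ne_eq, Prod.mk.injEq, h, false_and,
    not_false_eq_true]

lemma rest_erase (T : Finset (Fin m × (ZMod M × ZMod l))) (i : Fin m) (w : ZMod M × ZMod l) :
    rest (T.erase (i, w)) i = rest T i := by
  ext ⟨j, x⟩
  simp only [rest, mem_filter, mem_erase, ne_eq, Prod.mk.injEq]
  tauto

/-- every large set contains a non-edge -/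
lemma hit (hm : 0 < m) (θ : ℕ) (F : ZMod M → ZMod M × ZMod l → ZMod l)
    (T : Finset (Fin m × (ZMod M × ZMod l))) (hT : 0 < tot θ (prof T)) :
    ∃ v ∈ T, NonEdge θ F (T.erase v) := by
  obtain ⟨i, hi⟩ := exists_lab hm θ (prof T) hT
  have hpos := hi.exc_pos
  have hne : (slice T i).Nonempty := by
    rw [← card_pos]
    have : θ < (slice T i).card := hpos
    omega
  obtain ⟨w, hw, hsys⟩ := InSys.hit F (idx (rest T i)) (slice T i) hne
  refine ⟨(i, w), ?_, i, ?_, ?_⟩
  · simpa [slice] using hw
  · have : bump1 (prof (T.erase (i, w))) i = prof T := by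
      funext i'
      unfold bump1 prof
      by_cases h : i' = i
      · subst h
        rw [if_pos rfl, slice_erase_self, card_erase_of_mem hw]
        have : 0 < (slice T i').card := card_pos.2 hne
        omega
      · rw [if_neg h, slice_erase_ne _ _ _ _ h]
    rw [this]
    exact hi
  · rw [rest_erase, slice_erase_self]
    exact hsys

lemma slice_insert_self (S : Finset (Fin m × (ZMod M × ZMod l))) (j : Fin m)
    (y : ZMod M × ZMod l) : slice (insert (j, y) S) j = insert y (slice S j) := by
  ext x
  simp only [slice, mem_filter, mem_univ, true_and, mem_insert, Prod.mk.injEq]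

lemma slice_insert_ne (S : Finset (Fin m × (ZMod M × ZMod l))) (i j : Fin m)
    (y : ZMod M × ZMod l) (h : i ≠ j) : slice (insert (j, y) S) i = slice S i := by
  ext x
  simp only [slice, mem_filter, mem_univ, true_and, mem_insert, Prod.mk.injEq, h, false_and,
    false_or]

lemma rest_insert_ne (S : Finset (Fin m × (ZMod M × ZMod l))) (i j : Fin m)
    (y : ZMod M × ZMod l) (h : j ≠ i) : rest (insert (j, y) S) i = insert (j, y) (rest S i) := by
  unfold rest
  rw [filter_insert, if_pos h]

open Classical in
/-- the number of `v` completing `S` to a non-edge is small -/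
lemma few_nonedges (hm : 0 < m) (θ : ℕ) (F : ZMod M → ZMod M × ZMod l → ZMod l)
    (hF : ∀ A : Finset (ZMod M × ZMod l), A.card = θ →
      l * (univ.filter fun r => A.image (F r) ≠ univ).card ≤ M)
    (S : Finset (Fin m × (ZMod M × ZMod l))) (hS : 2 * m ≤ tot θ (prof S)) :
    (univ.filter fun v : Fin m × (ZMod M × ZMod l) => v ∉ S ∧ NonEdge θ F (insert v S)).card
      ≤ 2 * (M * l) + m * (m * (2 * M)) := by
  -- a general bound for the hitting systems
  have hcount : ∀ A : Finset (ZMod M × ZMod l), θ ≤ A.card → ∀ c0 : ZMod M × ZMod l,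
      (univ.filter fun y : ZMod M × ZMod l => InSys F (y + c0) A).card ≤ 2 * M := by
    intro A hA c0
    obtain ⟨B, hBA, hB⟩ := exists_subset_card_eq hA
    have h1 : l * (univ.filter fun r => A.image (F r) ≠ univ).card ≤ M := by
      refine le_trans (Nat.mul_le_mul_left _ (card_le_card ?_)) (hF B hB)
      intro r hr
      simp only [mem_filter, mem_univ, true_and] at hr ⊢
      intro h
      apply hr
      rw [eq_univ_iff_forall] at h ⊢
      intro x
      exact image_subset_image hBA (h x)
    refine le_trans ?_ (count_sys F A h1)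
    refine card_le_card_of_injOn (fun y => y + c0) ?_ ?_
    · intro y hy
      simpa using hy
    · intro a _ b _ h
      exact add_right_cancel h
  have hsub : (univ.filter fun v : Fin m × (ZMod M × ZMod l) => v ∉ S ∧ NonEdge θ F (insert v S))
      ⊆ (univ.filter fun j : Fin m => IsLab θ (bump (prof S) j) j) ×ˢ
          (univ : Finset (ZMod M × ZMod l)) ∪
        (univ : Finset (Fin m)) ×ˢ ((univ : Finset (Fin m)).filter (fun i => θ ≤ (slice S i).card)).biUnion
          (fun i => univ.filter fun y : ZMod M × ZMod l =>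
            InSys F (y + idx (rest S i)) (slice S i)) := by
    rintro ⟨j, y⟩ hv
    simp only [mem_filter, mem_univ, true_and] at hv
    obtain ⟨hnot, i, hlab, hsys⟩ := hv
    by_cases hij : j = i
    · subst hij
      refine mem_union_left _ (mem_product.2 ⟨?_, mem_univ _⟩)
      simp only [mem_filter, mem_univ, true_and]
      have : bump1 (prof (insert (j, y) S)) j = bump (prof S) j := by
        funext i'
        unfold bump1 bump prof
        by_cases h : i' = j
        · subst h
          rw [if_pos rfl, if_pos rfl, slice_insert_self, card_insert_of_notMem]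
          simpa [slice] using hnot
        · rw [if_neg h, if_neg h, slice_insert_ne _ _ _ _ h]
      rw [← this]
      exact hlab
    · refine mem_union_right _ (mem_product.2 ⟨mem_univ _, ?_⟩)
      rw [mem_biUnion]
      have hs : slice (insert (j, y) S) i = slice S i := slice_insert_ne _ _ _ _ (Ne.symm hij)
      refine ⟨i, ?_, ?_⟩
      · simp only [mem_filter, mem_univ, true_and]
        have h1 := hlab.exc_pos
        unfold bump1 prof at h1
        rw [if_pos rfl, hs] at h1
        omega
      · simp only [mem_filter, mem_univ, true_and]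
        rw [hs, rest_insert_ne _ _ _ _ hij] at hsys
        unfold idx at hsys ⊢
        rw [sum_insert] at hsys
        · exact hsys
        · intro h
          exact hnot (mem_filter.1 h).1
  refine (card_le_card hsub).trans ((card_union_le _ _).trans ?_)
  rw [card_product, card_product, card_univ, card_univ, Fintype.card_prod, ZMod.card, ZMod.card,
    Fintype.card_fin]
  refine add_le_add ?_ ?_
  · exact Nat.mul_le_mul_right _ (card_lab_le hm θ (prof S) hS)
  · refine Nat.mul_le_mul_left _ ?_
    refine card_biUnion_le.trans ?_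
    calc _ ≤ ∑ i ∈ (univ : Finset (Fin m)).filter (fun i => θ ≤ (slice S i).card), 2 * M := by
          refine sum_le_sum fun i hi => ?_
          exact hcount _ (mem_filter.1 hi).2 _
      _ = ((univ : Finset (Fin m)).filter (fun i => θ ≤ (slice S i).card)).card * (2 * M) := by
          rw [sum_const, smul_eq_mul]
      _ ≤ m * (2 * M) := by
          refine Nat.mul_le_mul_right _ ?_
          refine (card_le_univ _).trans ?_
          rw [Fintype.card_fin]

lemma tot_ge (θ : ℕ) (e : Finset (Fin m × (ZMod M × ZMod l))) :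
    e.card ≤ tot θ (prof e) + m * θ := by
  rw [← sum_prof e]
  unfold tot
  have : m * θ = ∑ _i : Fin m, θ := by simp
  rw [this, ← sum_add_distrib]
  refine sum_le_sum fun i _ => ?_
  unfold exc
  omega

end Pool.Agent.X38.CoDeg
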