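import Pool.Agent.H474R2.PG.Final

set_option autoImplicit false

/-!
# The error term in the asymptotic formula for the primes `n^2+1`, in arithmetic progressions

From the long strings of composite values of an irreducible polynomial (`Pool.Agent.H474R2.PG.Final`).
-/

namespace Pool.Agent.X38.NSq

open Polynomial Finset MeasureTheory

/-- the number of `1 ≤ n ≤ N`, `n ≡ a` modulo `q`, with `n^2+1` prime -/
def P (q a N : ℕ) : ℕ := ((Icc 1 N).filter (fun n => n ≡ a [MOD q] ∧ (n ^ 2 + 1).Prime)).card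

/-- the polynomial `(q x + a)^2 + 1` -/
noncomputable def F (q a : ℕ) : ℤ[X] := (C (q : ℤ) * X + C (a : ℤ)) ^ 2 + 1

lemma F_eval (q a : ℕ) (x : ℤ) : (F q a).eval x = (q * x + a) ^ 2 + 1 := by simp [F]

lemma F_eq (q a : ℕ) : F q a = C ((q : ℤ) ^ 2) * X ^ 2 + C (2 * q * a : ℤ) * X + C ((a : ℤ) ^ 2 + 1) := by
  simp only [F, map_pow, map_mul, map_add, map_one, map_ofNat]
  ring

lemma F_deg (q a : ℕ) (hq : 1 ≤ q) : (F q a).natDegree = 2 := by
  rw [F_eq]
  exact natDegree_quadratic (by positivity)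

lemma F_lead (q a : ℕ) (hq : 1 ≤ q) : 0 < (F q a).leadingCoeff := by
  rw [F_eq, leadingCoeff_quadratic (by positivity)]
  positivity

lemma F_prim (q a : ℕ) (hqa : Nat.Coprime q (a ^ 2 + 1)) : (F q a).IsPrimitive := by
  intro r hr
  rw [C_dvd_iff_dvd_coeff] at hr
  have h0 := hr 0
  have h2 := hr 2
  rw [F_eq] at h0 h2
  simp only [coeff_add, coeff_C_mul, coeff_X_pow, coeff_X, coeff_C] at h0 h2
  norm_num at h0 h2
  have hc : IsCoprime ((q : ℤ) ^ 2) ((a : ℤ) ^ 2 + 1) := by
    apply IsCoprime.pow_left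
    have := Nat.isCoprime_iff_coprime.2 hqa
    push_cast at this
    exact this
  exact hc.isUnit_of_dvd' h2 h0

lemma F_irr (q a : ℕ) (hq : 1 ≤ q) (hqa : Nat.Coprime q (a ^ 2 + 1)) : Irreducible (F q a) := by
  rw [IsPrimitive.Int.irreducible_iff_irreducible_map_cast (F_prim q a hqa)]
  have hinj : Function.Injective (Int.castRingHom ℚ) := Int.cast_injective
  have hdeg : ((F q a).map (Int.castRingHom ℚ)).natDegree = 2 := by
    rw [natDegree_map_eq_of_injective hinj, F_deg q a hq]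
  rw [irreducible_iff_roots_eq_zero_of_degree_le_three (by rw [hdeg]) (by rw [hdeg]; norm_num)]
  rw [Multiset.eq_zero_iff_forall_notMem]
  intro x hx
  have h := (mem_roots'.1 hx).2
  simp [F, IsRoot] at h
  nlinarith [sq_nonneg ((q : ℚ) * x + a)]

/-- long intervals without primes `n^2+1` -/
theorem gap (q a : ℕ) (hq : 1 ≤ q) (hqa : Nat.Coprime q (a ^ 2 + 1)) :
    ∃ c : ℝ, 0 < c ∧ ∃ Y₀ : ℝ, ∀ Y : ℝ, Y₀ ≤ Y → ∀ M : ℕ, Y ≤ M →
    ∃ x : ℕ, M < x ∧ (x : ℝ) + c * Real.log Y * Real.log (Real.log Y) ≤ M + Y ∧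
      ∀ k : ℕ, (k : ℝ) ≤ c * Real.log Y * Real.log (Real.log Y) → ¬ ((q * (x + k) + a) ^ 2 + 1).Prime := by
  obtain ⟨c, hc, Y₀, h⟩ := Pool.Agent.H474R2.PG.composite_strings (F q a) (F_irr q a hq hqa)
    (by rw [F_deg q a hq]; norm_num) (F_lead q a hq)
  refine ⟨c, hc, Y₀, fun Y hY M hM => ?_⟩
  obtain ⟨x, hx, hx2, hk⟩ := h Y hY M (by exact_mod_cast hM)
  lift x to ℕ using (by have := Int.natCast_nonneg M; omega)
  refine ⟨x, by exact_mod_cast hx, by exact_mod_cast hx2, fun k hk2 hp => ?_⟩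
  obtain ⟨p, hp1, -, hp3, hp4⟩ := hk k hk2
  rw [F_eval] at hp3 hp4
  have e : ((q : ℤ) * ((x : ℤ) + (k : ℤ)) + a) ^ 2 + 1 = (((q * (x + k) + a) ^ 2 + 1 : ℕ) : ℤ) := by
    push_cast; ring
  rw [e] at hp3 hp4
  have h1 : p ∣ (q * (x + k) + a) ^ 2 + 1 := by exact_mod_cast hp3
  have h2 : p < (q * (x + k) + a) ^ 2 + 1 := by exact_mod_cast hp4
  rcases (Nat.dvd_prime hp).1 h1 with h3 | h3
  · exact hp1.one_lt.ne' h3
  · omega

lemma P_eq_of_gap {q a u v : ℕ} (huv : u ≤ v) (h : ∀ n, u < n → n ≤ v → n ≡ a [MOD q] → ¬ (n ^ 2 + 1).Prime) :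
    P q a v = P q a u := by
  unfold P
  congr 1
  ext n
  simp only [mem_filter, mem_Icc]
  constructor
  · rintro ⟨h1, h3, h4⟩
    refine ⟨⟨h1.1, ?_⟩, h3, h4⟩
    by_contra h5
    exact h n (by omega) h1.2 h3 h4
  · rintro ⟨h1, h3, h4⟩
    exact ⟨⟨h1.1, by omega⟩, h3, h4⟩

/-- the integral of `1 / log t` from `2` -/
noncomputable def L (x : ℝ) : ℝ := ∫ t in (2 : ℝ)..x, 1 / Real.log t

lemma L_int {a b : ℝ} (ha : 2 ≤ a) (hb : 2 ≤ b) :
    IntervalIntegrable (fun t : ℝ => 1 / Real.log t) volume a b := by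
  apply ContinuousOn.intervalIntegrable
  intro t ht
  have ht2 : 2 ≤ t := by
    rcases le_total a b with h | h
    · rw [Set.uIcc_of_le h] at ht; linarith [ht.1]
    · rw [Set.uIcc_of_ge h] at ht; linarith [ht.1]
  have hl : 0 < Real.log t := Real.log_pos (by linarith)
  apply ContinuousAt.continuousWithinAt
  exact continuousAt_const.div (Real.continuousAt_log (by linarith)) hl.ne'

lemma L_sub {a b : ℝ} (ha : 2 ≤ a) (hab : a ≤ b) :
    (b - a) / Real.log b ≤ L b - L a := by
  unfold L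
  rw [intervalIntegral.integral_interval_sub_left (L_int le_rfl (ha.trans hab)) (L_int le_rfl ha)]
  have h1 : (b - a) / Real.log b = ∫ _t in a..b, 1 / Real.log b := by
    rw [intervalIntegral.integral_const, smul_eq_mul]; ring
  rw [h1]
  apply intervalIntegral.integral_mono_on hab (by simp) (L_int ha (ha.trans hab))
  intro t ht
  have ht0 : 2 ≤ t := ha.trans ht.1
  have hl : 0 < Real.log t := Real.log_pos (by linarith)
  exact one_div_le_one_div_of_le hl (Real.log_le_log (by linarith) ht.2)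

/-- **Lower bound for the error term.** -/
theorem omega (q a : ℕ) (hq : 1 ≤ q) (hqa : Nat.Coprime q (a ^ 2 + 1)) :
    ∃ c : ℝ, 0 < c ∧ ∃ Y₀ : ℝ, ∀ (C Y : ℝ) (x : ℕ), 0 ≤ C → Y₀ ≤ Y → Y ≤ x →
    ∃ N : ℕ, x ≤ N ∧ (N : ℝ) ≤ x + Y ∧
      c * C * (Real.log Y / Real.log x) * Real.log (Real.log Y) ≤ |(P q a N : ℝ) - C * L N| := by
  obtain ⟨c, hc, Y₀, h⟩ := gap q a hq hqa
  refine ⟨c / 16, by positivity, max (2 * q * Y₀) (4 * q ^ 2 + 2 * (q + a) + Real.exp 4 + 2), fun C Y x hC hY hYx => ?_⟩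
  have hq1 : (1 : ℝ) ≤ q := by exact_mod_cast hq
  have ha0 : (0 : ℝ) ≤ a := Nat.cast_nonneg _
  have hY1 : 2 * q * Y₀ ≤ Y := (le_max_left _ _).trans hY
  have hY2 : 4 * (q : ℝ) ^ 2 + 2 * (q + a) + Real.exp 4 + 2 ≤ Y := (le_max_right _ _).trans hY
  have he4 := Real.exp_pos 4
  have hYpos : 0 < Y := by nlinarith
  have hlogY : 4 ≤ Real.log Y := by
    rw [Real.le_log_iff_exp_le hYpos]
    nlinarith
  set Y' : ℝ := Y / (2 * q) with hY'
  have hqY' : q * Y' = Y / 2 := by rw [hY']; field_simp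
  have hY'0 : Y₀ ≤ Y' := by
    rw [hY', le_div_iff₀ (by positivity)]; linarith
  have hY'pos : 0 < Y' := by positivity
  -- the logarithms
  have hl2q : Real.log (2 * q) ≤ Real.log Y / 2 := by
    have h1 : (2 * q : ℝ) ^ 2 ≤ Y := by nlinarith
    have h2 := Real.log_le_log (by positivity) h1
    rw [Real.log_pow] at h2
    push_cast at h2
    linarith
  have hlY' : Real.log Y / 2 ≤ Real.log Y' := by
    rw [hY', Real.log_div (by positivity) (by positivity)]
    linarith
  have hllY : 0 < Real.log (Real.log Y) := Real.log_pos (by linarith)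
  have hllY' : Real.log (Real.log Y) / 2 ≤ Real.log (Real.log Y') := by
    have h1 : Real.log (Real.log Y / 2) ≤ Real.log (Real.log Y') := Real.log_le_log (by linarith) hlY'
    have h2 : Real.log (Real.log Y / 2) = Real.log (Real.log Y) - Real.log 2 := Real.log_div (by linarith) (by norm_num)
    have h3 : 2 * Real.log 2 ≤ Real.log (Real.log Y) := by
      have h4 : (2 : ℝ) ^ 2 ≤ Real.log Y := by norm_num; exact hlogY
      have h5 := Real.log_le_log (by norm_num) h4
      rw [Real.log_pow] at h5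
      exact_mod_cast h5
    linarith
  set H : ℝ := c * Real.log Y' * Real.log (Real.log Y') with hH
  have hH1 : c / 4 * (Real.log Y * Real.log (Real.log Y)) ≤ H := by
    have h1 : Real.log Y / 2 * (Real.log (Real.log Y) / 2) ≤ Real.log Y' * Real.log (Real.log Y') :=
      mul_le_mul hlY' hllY' (by linarith) (by linarith)
    rw [hH]
    nlinarith
  have hH0 : 0 < H := lt_of_lt_of_le (by positivity) hH1
  -- the gap
  set M : ℕ := x / q + 1 with hM
  have hMq : x < q * M := by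
    rw [hM]
    exact Nat.lt_mul_div_succ x (by omega)
  have hMq2 : q * M ≤ x + q := by
    rw [hM, mul_add, mul_one]
    have := Nat.mul_div_le x q
    omega
  have hMY : Y' ≤ M := by
    have h1 : (x : ℝ) < q * M := by exact_mod_cast hMq
    have h2 : q * Y' ≤ q * M := by rw [hqY']; linarith
    exact le_of_mul_le_mul_left h2 (by linarith)
  obtain ⟨y, hy1, hy2, hy3⟩ := h Y' hY'0 M hMY
  rw [← hH] at hy2 hy3
  set K : ℕ := ⌊H⌋₊ with hK
  have hK1 : (K : ℝ) ≤ H := Nat.floor_le hH0.le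
  have hK2 : H < K + 1 := Nat.lt_floor_add_one H
  set u : ℕ := q * y + a - 1 with hu
  set v : ℕ := q * (y + K) + a with hv
  have hqy : q * M < q * y := Nat.mul_lt_mul_of_pos_left hy1 (by omega)
  have hxu : x ≤ u := by omega
  have huv : u ≤ v := by
    have : q * y ≤ q * (y + K) := Nat.mul_le_mul_left _ (by omega)
    omega
  have hPuv : P q a v = P q a u := by
    apply P_eq_of_gap huv
    intro n hn1 hn2 hn3 hp
    have hna : a ≤ n := by omega
    obtain ⟨m, hm⟩ := (Nat.modEq_iff_dvd' hna).1 hn3.symm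
    have hnm : n = q * m + a := by omega
    have hm1 : y ≤ m := by
      by_contra h4
      have h5 : m + 1 ≤ y := by omega
      have h6 : q * (m + 1) ≤ q * y := Nat.mul_le_mul_left _ h5
      rw [mul_add, mul_one] at h6
      omega
    have hm2 : m ≤ y + K := by
      by_contra h4
      have h5 : y + K + 1 ≤ m := by omega
      have h6 : q * (y + K + 1) ≤ q * m := Nat.mul_le_mul_left _ h5
      rw [mul_add q (y + K) 1, mul_one] at h6
      omega
    apply hy3 (m - y) ?_
    · rw [show y + (m - y) = m by omega, ← hnm]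
      exact hp
    · have h7 : m - y ≤ K := by omega
      have h8 : ((m - y : ℕ) : ℝ) ≤ K := by exact_mod_cast h7
      linarith
  have hvx : (v : ℝ) ≤ x + Y := by
    have h1 : (q : ℝ) * M ≤ x + q := by exact_mod_cast hMq2
    have h2 : (v : ℝ) = q * (y + K) + a := by rw [hv]; push_cast; ring
    have h3 : (y : ℝ) + K ≤ M + Y' := by linarith
    have h4 : (q : ℝ) * (y + K) ≤ q * (M + Y') := mul_le_mul_of_nonneg_left h3 (by linarith)
    rw [mul_add (q : ℝ) (M : ℝ) Y', hqY'] at h4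
    have h5 : 2 * ((q : ℝ) + a) ≤ Y := by nlinarith [sq_nonneg (q : ℝ)]
    linarith
  have huvr : (u : ℝ) ≤ v := by exact_mod_cast huv
  have hxur : (x : ℝ) ≤ u := by exact_mod_cast hxu
  have hx2 : (2 : ℝ) ≤ x := by nlinarith
  have hlx : 0 < Real.log x := Real.log_pos (by linarith)
  have hlv : Real.log v ≤ 2 * Real.log x := by
    have h1 : (v : ℝ) ≤ (x : ℝ) ^ 2 := by nlinarith
    have h2 := Real.log_le_log (by linarith) h1
    rw [Real.log_pow] at h2
    exact_mod_cast h2
  have hlv0 : 0 < Real.log v := Real.log_pos (by linarith)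
  have hLuv := L_sub (a := (u : ℝ)) (b := (v : ℝ)) (by linarith) huvr
  have hd : H ≤ (v : ℝ) - u := by
    have h1 : ((u : ℕ) : ℝ) = q * y + a - 1 := by
      rw [hu, Nat.cast_sub (by omega)]; push_cast; ring
    have h2 : ((v : ℕ) : ℝ) = q * y + q * K + a := by
      rw [hv]; push_cast; ring
    have hK0 : (0 : ℝ) ≤ K := Nat.cast_nonneg _
    have h3 : (K : ℝ) ≤ q * K := le_mul_of_one_le_left hK0 hq1
    rw [h1, h2]
    linarith
  have hL2 : H / (2 * Real.log x) ≤ L v - L u := by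
    refine le_trans ?_ hLuv
    calc H / (2 * Real.log x) ≤ ((v : ℝ) - u) / (2 * Real.log x) := by gcongr
      _ ≤ ((v : ℝ) - u) / Real.log v := div_le_div_of_nonneg_left (by linarith) hlv0 hlv
  have hL3 : c / 8 * (Real.log Y / Real.log x) * Real.log (Real.log Y) ≤ L v - L u := by
    refine le_trans ?_ hL2
    rw [le_div_iff₀ (by positivity)]
    have h1 : c / 8 * (Real.log Y / Real.log x) * Real.log (Real.log Y) * (2 * Real.log x) =
        c / 4 * (Real.log Y * Real.log (Real.log Y)) := by field_simp; ring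
    rw [h1]
    exact hH1
  have htar : c / 16 * C * (Real.log Y / Real.log x) * Real.log (Real.log Y) =
      C * (c / 8 * (Real.log Y / Real.log x) * Real.log (Real.log Y)) / 2 := by ring
  have hdiff : C * (c / 8 * (Real.log Y / Real.log x) * Real.log (Real.log Y)) ≤
      ((P q a u : ℝ) - C * L u) - ((P q a v : ℝ) - C * L v) := by
    have h1 := mul_le_mul_of_nonneg_left hL3 hC
    rw [mul_sub] at h1
    rw [hPuv]
    linarith
  rw [htar]
  by_cases hcase : C * (c / 8 * (Real.log Y / Real.log x) * Real.log (Real.log Y)) / 2 ≤ |(P q a v : ℝ) - C * L v|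
  · exact ⟨v, by omega, hvx, hcase⟩
  · refine ⟨u, hxu, by linarith, ?_⟩
    push Not at hcase
    have h1 := neg_abs_le ((P q a v : ℝ) - C * L v)
    have h2 := le_abs_self ((P q a u : ℝ) - C * L u)
    linarith

end Pool.Agent.X38.NSq
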