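import Mathlib

open MeasureTheory Set

namespace Pool.Agent.X38.Rad

/-- the length integral is bounded by the variation (form needed here) -/
theorem lintegral_deriv_lt_top (g : ℝ → ℂ) (h : eVariationOn g (Ico (0 : ℝ) 1) ≠ ⊤) :
    ∫⁻ r in Ioo (0 : ℝ) 1, ‖deriv g r‖ₑ ≠ ⊤ := by
  set s : Set ℝ := Ico (0 : ℝ) 1 with hs
  set V : ℝ → ℝ := fun t => (eVariationOn g (s ∩ Iic t)).toReal with hV
  have hfin : ∀ t, eVariationOn g (s ∩ Iic t) ≠ ⊤ := fun t =>
    ne_top_of_le_ne_top h (eVariationOn.mono _ inter_subset_left)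
  have hmono : Monotone V := by
    intro x y hxy
    apply ENNReal.toReal_mono (hfin y)
    apply eVariationOn.mono
    exact inter_subset_inter_right _ (Iic_subset_Iic.2 hxy)
  have hkey : ∀ x ∈ s, ∀ y ∈ s, x ≤ y → ‖g y - g x‖ ≤ V y - V x := by
    intro x hx y hy hxy
    have hu : eVariationOn g (s ∩ Iic x) + eVariationOn g (s ∩ Icc x y)
        ≤ eVariationOn g (s ∩ Iic y) := by
      refine (eVariationOn.add_le_union g ?_).trans (eVariationOn.mono _ ?_)
      · intro a ha b hb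
        exact ha.2.trans hb.2.1
      · rintro z (hz | hz)
        · exact ⟨hz.1, hz.2.trans hxy⟩
        · exact ⟨hz.1, hz.2.2⟩
    have hd : edist (g y) (g x) ≤ eVariationOn g (s ∩ Icc x y) :=
      eVariationOn.edist_le g ⟨hy, hxy, le_refl _⟩ ⟨hx, le_refl _, hxy⟩
    have h2 : eVariationOn g (s ∩ Iic x) + edist (g y) (g x) ≤ eVariationOn g (s ∩ Iic y) :=
      (add_le_add_right hd _).trans hu
    have h3 := ENNReal.toReal_mono (hfin y) h2
    rw [ENNReal.toReal_add (hfin x) (edist_ne_top _ _), edist_dist,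
      ENNReal.toReal_ofReal dist_nonneg, dist_eq_norm] at h3
    simp only [hV]
    linarith
  obtain ⟨G, hG1, hG2, hG3⟩ :=
    (hmono.monotoneOn (Icc (0:ℝ) 1)).exists_tendsto_deriv_liminf_lintegral_enorm_le zero_le_one
  have hVint : ∫⁻ r in Ioo (0 : ℝ) 1, ‖deriv V r‖ₑ ≠ ⊤ := by
    have := (hmono.monotoneOn (uIcc (0:ℝ) 1)).intervalIntegrable_deriv
    rw [intervalIntegrable_iff_integrableOn_Ioo_of_le zero_le_one] at this
    exact this.2.ne
  refine ne_top_of_le_ne_top hVint ?_
  apply lintegral_mono_ae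
  rw [ae_restrict_iff' measurableSet_Ioo]
  filter_upwards [hmono.ae_differentiableAt] with x hx hxm
  by_cases hgx : DifferentiableAt ℝ g x
  · have h1 := hgx.hasDerivAt
    have h2 := hx.hasDerivAt
    have hVnn : 0 ≤ deriv V x := hmono.deriv_nonneg
    have : ‖deriv g x‖ ≤ deriv V x := by
      rw [hasDerivAt_iff_tendsto_slope] at h1 h2
      have h1' : Filter.Tendsto (fun y => ‖slope g x y‖) (nhdsWithin x (Ioi x)) (nhds ‖deriv g x‖) :=
        (h1.mono_left (nhdsWithin_mono _ (fun y hy => ne_of_gt hy))).norm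
      have h2' : Filter.Tendsto (fun y => slope V x y) (nhdsWithin x (Ioi x)) (nhds (deriv V x)) :=
        (h2.mono_left (nhdsWithin_mono _ (fun y hy => ne_of_gt hy)))
      refine le_of_tendsto_of_tendsto h1' h2' ?_
      have : Ioo x 1 ∈ nhdsWithin x (Ioi x) := Ioo_mem_nhdsGT hxm.2
      filter_upwards [this] with y hy
      have hpos : 0 < y - x := sub_pos.2 hy.1
      rw [slope_def_module, slope_def_field, norm_smul, Real.norm_eq_abs, abs_inv, abs_of_pos hpos,
        inv_mul_eq_div]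
      gcongr
      exact hkey x ⟨hxm.1.le, hxm.2⟩ y ⟨hxm.1.le.trans hy.1.le, hy.2⟩ hy.1.le
    rw [← ofReal_norm, ← ofReal_norm, Real.norm_of_nonneg hVnn]
    exact ENNReal.ofReal_le_ofReal this
  · rw [deriv_zero_of_not_differentiableAt hgx]
    simp

end Pool.Agent.X38.Rad
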