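import Mathlib

/-!
# Total termination of term rewriting systems: definitions

Signatures, first-order terms, term rewriting systems, total termination, disjoint unions.
-/

set_option autoImplicit false

namespace Pool.Agent.X38.TT

universe u v w

/-- A signature: a type of function symbols, each with an arity. -/
structure Sig where
  /-- the function symbols -/
  Sym : Type u
  /-- the arity of a symbol -/
  ar : Sym → ℕ

/-- First-order terms over the signature `S` with variables in `V`. -/
inductive Term (S : Sig.{u}) (V : Type v) : Type (max u v)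
  | var : V → Term S V
  | app : (f : S.Sym) → (Fin (S.ar f) → Term S V) → Term S V

/-- Ground terms: terms without variables. -/
abbrev Ground (S : Sig.{u}) : Type u := Term S Empty

namespace Term

variable {S : Sig.{u}} {V : Type v} {W : Type w}

/-- Simultaneous substitution of terms for the variables. -/
def subst (σ : V → Term S W) : Term S V → Term S W
  | var x => σ x
  | app f ts => app f (fun i => (ts i).subst σ)

/-- The number of occurrences of the variable `x` in a term. -/
def occ [DecidableEq V] (x : V) : Term S V → ℕ
  | var y => if y = x then 1 else 0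
  | app _ ts => ∑ i, (ts i).occ x

end Term

/-- The signature has a constant. -/
def Sig.HasConst (S : Sig.{u}) : Prop := ∃ c : S.Sym, S.ar c = 0

/-- A term rewriting system over `S` (with variables `0, 1, 2, …`): a set of rules `(l, r)` such
that `l` is not a variable and every variable of `r` occurs in `l`. -/
structure TRS (S : Sig.{u}) where
  /-- the rules `l → r`, as pairs `(l, r)` -/
  rules : Set (Term S ℕ × Term S ℕ)
  lhs_not_var : ∀ p ∈ rules, ∀ x : ℕ, p.1 ≠ Term.var x
  var_subset : ∀ p ∈ rules, ∀ x : ℕ, p.2.occ x ≠ 0 → p.1.occ x ≠ 0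

/-- Some rule is duplicating: a variable occurs more often on the right than on the left. -/
def TRS.Duplicating {S : Sig.{u}} (R : TRS S) : Prop :=
  ∃ p ∈ R.rules, ∃ x : ℕ, p.1.occ x < p.2.occ x

/-- `lt` is monotonic: replacing an argument by a smaller one makes the whole term smaller. -/
def Monotonic {S : Sig.{u}} (lt : Ground S → Ground S → Prop) : Prop :=
  ∀ (f : S.Sym) (ts : Fin (S.ar f) → Ground S) (i : Fin (S.ar f)) (s t : Ground S), lt s t →
    lt (Term.app f (Function.update ts i s)) (Term.app f (Function.update ts i t))

/-- `R` is totally terminating: there is a monotonic well-ordering `lt` of the ground terms with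
`rσ < lσ` for all rules `l → r` and all ground substitutions `σ`. -/
def TRS.TotallyTerminating {S : Sig.{u}} (R : TRS S) : Prop :=
  ∃ lt : Ground S → Ground S → Prop, IsWellOrder (Ground S) lt ∧ Monotonic lt ∧
    ∀ p ∈ R.rules, ∀ σ : ℕ → Ground S, lt (p.2.subst σ) (p.1.subst σ)

/-- The disjoint union of two signatures. -/
@[reducible] def Sig.sum (S₁ : Sig.{u}) (S₂ : Sig.{v}) : Sig.{max u v} where
  Sym := S₁.Sym ⊕ S₂.Sym
  ar := Sum.elim S₁.ar S₂.ar

namespace Term

variable {S₁ : Sig.{u}} {S₂ : Sig.{v}} {V : Type w}

/-- A term over `S₁` seen as a term over the disjoint union. -/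
def inl : Term S₁ V → Term (S₁.sum S₂) V
  | var x => var x
  | app f ts => app (S := S₁.sum S₂) (Sum.inl f) (fun i => (ts i).inl)

/-- A term over `S₂` seen as a term over the disjoint union. -/
def inr : Term S₂ V → Term (S₁.sum S₂) V
  | var x => var x
  | app f ts => app (S := S₁.sum S₂) (Sum.inr f) (fun i => (ts i).inr)

theorem occ_inl [DecidableEq V] (x : V) (t : Term S₁ V) :
    (t.inl : Term (S₁.sum S₂) V).occ x = t.occ x := by
  induction t with
  | var y => rfl
  | app f ts ih => exact Finset.sum_congr rfl (fun i _ => ih i)

theorem occ_inr [DecidableEq V] (x : V) (t : Term S₂ V) :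
    (t.inr : Term (S₁.sum S₂) V).occ x = t.occ x := by
  induction t with
  | var y => rfl
  | app f ts ih => exact Finset.sum_congr rfl (fun i _ => ih i)

end Term

/-- The union of two term rewriting systems over disjoint signatures. -/
def TRS.union {S₁ : Sig.{u}} {S₂ : Sig.{v}} (R₁ : TRS S₁) (R₂ : TRS S₂) : TRS (S₁.sum S₂) where
  rules := (fun p => (p.1.inl, p.2.inl)) '' R₁.rules ∪ (fun p => (p.1.inr, p.2.inr)) '' R₂.rules
  lhs_not_var := by
    rintro p (⟨q, hq, rfl⟩ | ⟨q, hq, rfl⟩) x h
    · have := R₁.lhs_not_var q hq x
      cases hq1 : q.1 with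
      | var y =>
        simp only [hq1, Term.inl, Term.var.injEq] at h
        exact this (by rw [hq1, h])
      | app f ts => simp [hq1, Term.inl] at h
    · have := R₂.lhs_not_var q hq x
      cases hq1 : q.1 with
      | var y =>
        simp only [hq1, Term.inr, Term.var.injEq] at h
        exact this (by rw [hq1, h])
      | app f ts => simp [hq1, Term.inr] at h
  var_subset := by
    rintro p (⟨q, hq, rfl⟩ | ⟨q, hq, rfl⟩) x h
    · simp only [Term.occ_inl] at h ⊢
      exact R₁.var_subset q hq x h
    · simp only [Term.occ_inr] at h ⊢
      exact R₂.var_subset q hq x h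

end Pool.Agent.X38.TT
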