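import Pool.Agent.X38.TTDefs

/-!
# Models and total termination

Well-ordered strictly monotone algebras, evaluation, and: a system with a compatible well-ordered
monotone algebra is totally terminating.
-/

set_option autoImplicit false

namespace Pool.Agent.X38.TT

universe u v w

/-! ## Shortlex lemmas -/

section Shortlex

variable {α : Type u} {r : α → α → Prop}

theorem lex_append_right {s t : List α} (h : List.Lex r s t) (hl : s.length = t.length)
    (p q : List α) : List.Lex r (s ++ p) (t ++ q) := by
  induction h with
  | nil => simp at hl
  | cons _ ih => exact List.Lex.cons (ih (by simpa using hl))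
  | rel h => exact List.Lex.rel h

theorem shortlex_mid {s t : List α} (h : List.Shortlex r s t) (p q : List α) :
    List.Shortlex r (p ++ s ++ q) (p ++ t ++ q) := by
  rw [List.shortlex_def] at h ⊢
  rcases h with h | ⟨h1, h2⟩
  · left
    simp only [List.length_append]
    omega
  · right
    refine ⟨by simp only [List.length_append]; omega, ?_⟩
    rw [List.append_assoc, List.append_assoc]
    exact List.Lex.append_left r (lex_append_right h2 h1 q q) p

theorem flatten_update (n : ℕ) (g : Fin n → List α) (i : Fin n) :
    ∃ p q : List α, ∀ w : List α, (List.ofFn (Function.update g i w)).flatten = p ++ w ++ q := by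
  induction n with
  | zero => exact i.elim0
  | succ n ih =>
    refine Fin.cases ?_ (fun k => ?_) i
    · refine ⟨[], (List.ofFn (fun j : Fin n => g j.succ)).flatten, fun w => ?_⟩
      rw [List.ofFn_succ]
      simp only [Function.update_self, List.flatten_cons, List.nil_append]
      congr 3
    · obtain ⟨p, q, hpq⟩ := ih (fun j => g j.succ) k
      refine ⟨g 0 ++ p, q, fun w => ?_⟩
      rw [List.ofFn_succ, List.flatten_cons]
      have h1 : Function.update g k.succ w 0 = g 0 := by
        rw [Function.update_of_ne]
        exact (Fin.succ_ne_zero k).symm
      have h2 : (fun j : Fin n => Function.update g k.succ w j.succ)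
          = Function.update (fun j : Fin n => g j.succ) k w := by
        funext j
        by_cases hj : j = k
        · subst hj; simp
        · rw [Function.update_of_ne hj, Function.update_of_ne]
          exact fun h => hj (Fin.succ_injective _ h)
      rw [h1, h2, hpq]
      simp only [List.append_assoc]

theorem shortlex_flatten_update {n : ℕ} (g : Fin n → List α) (i : Fin n) {s t : List α}
    (h : List.Shortlex r s t) :
    List.Shortlex r (List.ofFn (Function.update g i s)).flatten
      (List.ofFn (Function.update g i t)).flatten := by
  obtain ⟨p, q, hpq⟩ := flatten_update n g i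
  rw [hpq, hpq]
  exact shortlex_mid h p q

instance shortlex_trans [IsTrans α r] : IsTrans (List α) (List.Shortlex r) where
  trans := by
    intro a b c hab hbc
    rw [List.shortlex_def] at *
    rcases hab with h | ⟨h1, h2⟩ <;> rcases hbc with h' | ⟨h1', h2'⟩
    · left; omega
    · left; omega
    · left; omega
    · right
      exact ⟨by omega, List.lex_trans (fun h h' => _root_.trans h h') h2 h2'⟩

instance shortlex_isWellOrder [IsWellOrder α r] : IsWellOrder (List α) (List.Shortlex r) where
  wf := List.Shortlex.wf (IsWellFounded.wf)

end Shortlex

/-! ## Polish notation -/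

section Code

variable {S : Sig.{u}}

/-- Polish (prefix) notation of a ground term. -/
def code : Ground S → List S.Sym
  | .var x => x.elim
  | .app f ts => f :: (List.ofFn (fun i => code (ts i))).flatten

theorem code_aux (n : ℕ) (ts us : Fin n → Ground S)
    (h : ∀ i, ∀ (t : Ground S) (l₁ l₂ : List S.Sym), code (ts i) ++ l₁ = code t ++ l₂ →
      ts i = t ∧ l₁ = l₂) (l₁ l₂ : List S.Sym)
    (e : (List.ofFn (fun i => code (ts i))).flatten ++ l₁
      = (List.ofFn (fun i => code (us i))).flatten ++ l₂) : ts = us ∧ l₁ = l₂ := by
  induction n generalizing l₁ l₂ with
  | zero =>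
    simp only [List.ofFn_zero, List.flatten_nil, List.nil_append] at e
    exact ⟨funext (fun i => i.elim0), e⟩
  | succ n ih =>
    rw [List.ofFn_succ, List.ofFn_succ, List.flatten_cons, List.flatten_cons,
      List.append_assoc, List.append_assoc] at e
    obtain ⟨h0, h1⟩ := h 0 _ _ _ e
    obtain ⟨h2, h3⟩ := ih (fun i => ts i.succ) (fun i => us i.succ) (fun i => h i.succ) _ _ h1
    refine ⟨?_, h3⟩
    funext i
    refine Fin.cases h0 (fun j => ?_) i
    exact congrFun h2 j

theorem code_append_inj (s : Ground S) : ∀ (t : Ground S) (l₁ l₂ : List S.Sym),
    code s ++ l₁ = code t ++ l₂ → s = t ∧ l₁ = l₂ := by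
  induction s with
  | var x => exact x.elim
  | app f ts ih =>
    intro t l₁ l₂ e
    cases t with
    | var x => exact x.elim
    | app g us =>
      simp only [code, List.cons_append, List.cons.injEq] at e
      obtain ⟨e1, e2⟩ := e
      subst e1
      obtain ⟨h1, h2⟩ := code_aux _ ts us ih l₁ l₂ e2
      exact ⟨by rw [h1], h2⟩

theorem code_injective : Function.Injective (code : Ground S → List S.Sym) := by
  intro s t h
  exact (code_append_inj s t [] [] (by simpa using h)).1

instance ground_countable [Countable S.Sym] : Countable (Ground S) :=
  code_injective.countable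

end Code

/-! ## Algebras -/

/-- A strictly monotone algebra on a set with a relation. -/
structure Alg (S : Sig.{u}) {A : Type v} (lt : A → A → Prop) where
  op : (f : S.Sym) → (Fin (S.ar f) → A) → A
  mono : ∀ (f : S.Sym) (x : Fin (S.ar f) → A) (i : Fin (S.ar f)) (a b : A), lt a b →
    lt (op f (Function.update x i a)) (op f (Function.update x i b))

namespace Alg

variable {S : Sig.{u}} {A : Type v} {lt : A → A → Prop} {V : Type w}

/-- Evaluation of a term. -/
def eval (M : Alg S lt) (v : V → A) : Term S V → A
  | .var x => v x
  | .app f ts => M.op f (fun i => M.eval v (ts i))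

/-- Compatibility of an algebra with a term rewriting system. -/
def Compat (M : Alg S lt) (R : TRS S) : Prop :=
  ∀ p ∈ R.rules, ∀ v : ℕ → A, lt (M.eval v p.2) (M.eval v p.1)

theorem eval_subst {W : Type w} (M : Alg S lt) (v : W → A) (σ : V → Term S W) (t : Term S V) :
    M.eval v (t.subst σ) = M.eval (fun x => M.eval v (σ x)) t := by
  induction t with
  | var x => rfl
  | app f ts ih =>
    simp only [Term.subst, eval]
    congr 1
    funext i
    exact ih i

/-- The ground term algebra of a monotonic relation. -/
def ground {r : Ground S → Ground S → Prop} (h : Monotonic r) : Alg S r where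
  op f ts := .app f ts
  mono f x i a b hab := h f x i a b hab

theorem eval_ground {r : Ground S → Ground S → Prop} (h : Monotonic r) (σ : V → Ground S)
    (t : Term S V) : (ground h).eval σ t = t.subst σ := by
  induction t with
  | var x => rfl
  | app f ts ih =>
    simp only [Term.subst, eval, ground]
    congr 1
    funext i
    exact ih i

/-- A system with a compatible well-ordered monotone algebra is totally terminating. -/
theorem totallyTerminating (M : Alg S lt) [IsWellOrder A lt] {R : TRS S} (hM : M.Compat R) :
    R.TotallyTerminating := by
  classical
  let ev : Ground S → A := M.eval (fun x : Empty => x.elim)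
  let φ : Ground S → A × List S.Sym := fun t => (ev t, code t)
  have hφ : Function.Injective φ := fun s t h => code_injective (Prod.ext_iff.1 h).2
  let rel : A × List S.Sym → A × List S.Sym → Prop :=
    Prod.Lex lt (List.Shortlex (WellOrderingRel : S.Sym → S.Sym → Prop))
  refine ⟨fun s t => rel (φ s) (φ t), ?_, ?_, ?_⟩
  · exact (RelEmbedding.preimage ⟨φ, hφ⟩ rel).isWellOrder
  · intro f ts i s t hst
    have e1 : ∀ w : Ground S, ev (.app f (Function.update ts i w))
        = M.op f (Function.update (fun j => ev (ts j)) i (ev w)) := by
      intro w
      change M.op f _ = _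
      congr 1
      funext j
      by_cases hj : j = i
      · subst hj; simp [ev]
      · simp [Function.update_of_ne hj, ev]
    have e2 : ∀ w : Ground S, code (.app f (Function.update ts i w))
        = f :: (List.ofFn (Function.update (fun j => code (ts j)) i (code w))).flatten := by
      intro w
      change f :: _ = _
      congr 3
      funext j
      by_cases hj : j = i
      · subst hj; simp
      · simp [Function.update_of_ne hj]
    simp only [rel, φ, Prod.lex_def, e1, e2] at hst ⊢
    rcases hst with h | ⟨h1, h2⟩
    · exact Or.inl (M.mono f _ i _ _ h)
    · refine Or.inr ⟨by rw [h1], ?_⟩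
      have := shortlex_mid (shortlex_flatten_update (fun j => code (ts j)) i h2) [f] []
      simpa using this
  · intro p hp σ
    have h := hM p hp (fun x => ev (σ x))
    simp only [rel, φ, Prod.lex_def]
    left
    simp only [ev, eval_subst] at h ⊢
    exact h

end Alg

end Pool.Agent.X38.TT
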