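import Pool.Agent.X38.TTModel

/-!
# Total termination is not modular over uncountable signatures

A system over an uncountable signature all of whose well-ordered models have cofinality `ω₁`, and a
system over a countable signature all of whose well-ordered models have cofinality `ω`.
-/

set_option autoImplicit false

namespace Pool.Agent.X38.TT

open Cardinal Ordinal

/-! ## The two forcing arguments -/

section Forcing

theorem countable_below {T I : Type*} [LinearOrder T] [WellFoundedLT T] [LinearOrder I]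
    [WellFoundedLT I] (d : I → T) (b : T → T) (g : T → T → T → T) (a : ℕ → T → T)
    (h : I → T → T) (y : ℕ → I → T → T) (z : I → ℕ → T → T)
    (gm : ∀ s s' t t' r r', s ≤ s' → t ≤ t' → r ≤ r' → g s t r ≤ g s' t' r') (bm : Monotone b)
    (r2 : ∀ n i j x, i < j → g (y n j x) (a n x) (a n x) < g (y n i x) (h i x) (h j x))
    (r3 : ∀ i n x, g (z i (n + 1) x) (h i x) (b x) < g (z i n x) (a n x) (b (d i))) (x : T) :
    {i | d i ≤ x}.Countable := by
  have hsub : {i | d i ≤ x} ⊆ ⋃ n : ℕ, {i | h i x ≤ a n x} := by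
    intro i hi
    rw [Set.mem_iUnion]
    by_contra hcon
    push Not at hcon
    have hcon' : ∀ n, a n x < h i x := fun n => not_le.1 (hcon n)
    have hz : StrictAnti (fun n => z i n x) := by
      apply strictAnti_nat_of_succ_lt
      intro n
      by_contra hle
      rw [not_lt] at hle
      exact absurd (r3 i n x) (not_lt.2 (gm _ _ _ _ _ _ hle (hcon' n).le (bm hi)))
    exact not_strictAnti_of_wellFoundedLT _ hz
  refine (Set.countable_iUnion (fun n => ?_)).mono hsub
  apply Set.Finite.countable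
  have hanti : StrictAnti (fun i : {i | h i x ≤ a n x} => y n i.1 x) := by
    intro i j hij
    by_contra hle
    rw [not_lt] at hle
    exact absurd (r2 n i.1 j.1 x hij) (not_lt.2 (gm _ _ _ _ _ _ hle i.2 j.2))
  have : WellFoundedGT {i | h i x ≤ a n x} :=
    ⟨Subrelation.wf (fun {i j} (hij : j < i) => hanti hij)
      (InvImage.wf (fun i : {i | h i x ≤ a n x} => y n i.1 x) wellFounded_lt)⟩
  have : Finite {i | h i x ≤ a n x} := Finite.of_wellFoundedLT_wellFoundedGT _
  exact Set.toFinite _

theorem exists_above {T : Type*} [LinearOrder T] [WellFoundedLT T] (c : ℕ → T)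
    (u : ℕ → T → T) (g : T → T → T) (gm : ∀ s s' t t', s ≤ s' → t ≤ t' → g s t ≤ g s' t')
    (r : ∀ n x, g (u (n + 1) x) x < g (u n x) (c n)) (x : T) : ∃ n, x < c n := by
  by_contra hcon
  push Not at hcon
  have hz : StrictAnti (fun n => u n x) := by
    apply strictAnti_nat_of_succ_lt
    intro n
    by_contra hle
    rw [not_lt] at hle
    exact absurd (r n x) (not_lt.2 (gm _ _ _ _ hle (hcon n)))
  exact not_strictAnti_of_wellFoundedLT _ hz

end Forcing

/-! ## The carrier of the model: a well-order of type `ω₁` -/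

/-- A well-order of type `ω₁`. -/
abbrev M1 : Type := (ω_ (1 : Ordinal.{0})).ToType

instance : Uncountable M1 := by
  rw [← Cardinal.aleph0_lt_mk_iff, Cardinal.mk_toType, ← Cardinal.ord_aleph, Cardinal.card_ord]
  exact aleph0_lt_aleph_one

theorem countable_Iio (x : M1) : (Set.Iio x).Countable := by
  rw [← Cardinal.le_aleph0_iff_set_countable]
  have h1 : (Ordinal.typein (α := M1) (· < ·) x).card = #{y // y < x} := card_typein x
  have h2 : Ordinal.typein (α := M1) (· < ·) x < ω_ 1 := typein_lt_self x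
  have h3 : (Ordinal.typein (α := M1) (· < ·) x).card < ℵ₁ := by
    rw [← Cardinal.lt_ord, Cardinal.ord_aleph]
    exact h2
  rw [h1, lt_aleph_one_iff] at h3
  exact h3

theorem countable_Iic (x : M1) : (Set.Iic x).Countable := by
  rw [← Set.Iio_insert]
  exact (countable_Iio x).insert x

theorem exists_gt_countable (s : Set M1) (hs : s.Countable) : ∃ m, ∀ x ∈ s, x < m := by
  by_contra hcon
  push Not at hcon
  have : (Set.univ : Set M1) ⊆ ⋃ x ∈ s, Set.Iic x := by
    intro m _
    obtain ⟨x, hx, hmx⟩ := hcon m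
    simp only [Set.mem_iUnion]
    exact ⟨x, hx, hmx⟩
  have h2 : (Set.univ : Set M1).Countable := (hs.biUnion (fun x _ => countable_Iic x)).mono this
  exact Set.not_countable_univ h2

theorem exists_good (P : Type) (r : P → P → Prop) (wf : WellFounded r)
    (hc : ∀ p, {q | r q p}.Countable) (Good : M1 → Prop) (hG : ∀ m, ∃ w, m < w ∧ Good w) :
    ∃ f : P → M1, (∀ p, Good (f p)) ∧ ∀ p q, r p q → f p < f q := by
  classical
  have step : ∀ (p : P) (ih : ∀ q, r q p → M1), ∃ w, Good w ∧ ∀ q (h : r q p), ih q h < w := by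
    intro p ih
    have : (Set.range (fun q : {q | r q p} => ih q.1 q.2)).Countable := by
      have := (hc p).to_subtype
      exact Set.countable_range _
    obtain ⟨m, hm⟩ := exists_gt_countable _ this
    obtain ⟨w, hmw, hw⟩ := hG m
    exact ⟨w, hw, fun q h => (hm _ ⟨⟨q, h⟩, rfl⟩).trans hmw⟩
  choose F hF1 hF2 using step
  refine ⟨wf.fix F, fun p => ?_, fun p q h => ?_⟩
  · rw [wf.fix_eq]; exact hF1 _ _
  · conv_rhs => rw [wf.fix_eq]
    exact hF2 q (fun q' _ => wf.fix F q') p h

theorem le_apply {g : M1 → M1} (hg : ∀ a b, a < b → g a < g b) (a : M1) : a ≤ g a := by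
  induction a using WellFoundedLT.induction with
  | ind a ih =>
    by_contra h
    rw [not_le] at h
    exact absurd (hg _ _ h) (not_lt.2 (ih _ h))

theorem exists_G : ∃ G : M1 → M1 → M1 → M1,
    (∀ s s' t r, s < s' → G s t r < G s' t r) ∧ (∀ s t t' r, t < t' → G s t r < G s t' r) ∧
    (∀ s t r r', r < r' → G s t r < G s t r') := by
  obtain ⟨f, -, hf⟩ := exists_good (M1 × M1 × M1) (· < ·) wellFounded_lt (by
    intro p
    refine Set.Countable.mono (s₂ := Set.Iic p.1 ×ˢ Set.Iic p.2.1 ×ˢ Set.Iic p.2.2) ?_ ?_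
    · intro q hq
      have := le_of_lt (Set.mem_ofPred.1 hq)
      exact ⟨this.1, this.2.1, this.2.2⟩
    · exact (countable_Iic _).prod ((countable_Iic _).prod (countable_Iic _)))
    (fun _ => True) (by
      intro m
      obtain ⟨w, hw⟩ := exists_gt_countable {m} (Set.countable_singleton m)
      exact ⟨w, hw m rfl, trivial⟩)
  refine ⟨fun s t r => f (s, t, r), ?_, ?_, ?_⟩
  · intro s s' t r h
    exact hf _ _ (by simp [Prod.mk_lt_mk, h, h.le])
  · intro s t t' r h
    exact hf _ _ (by simp [Prod.mk_lt_mk, h, h.le])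
  · intro s t r r' h
    exact hf _ _ (by simp [Prod.mk_lt_mk, h, h.le])

/-! ## The data of the model -/

/-- The data of the model: a ternary strictly monotone function and closed levels. -/
structure Data where
  G : M1 → M1 → M1 → M1
  G1 : ∀ s s' t r, s < s' → G s t r < G s' t r
  G2 : ∀ s t t' r, t < t' → G s t r < G s t' r
  G3 : ∀ s t r r', r < r' → G s t r < G s t r'
  W : M1 → WithTop ℕ → M1
  closed : ∀ x k s t r, s < W x k → t < W x k → r < W x k → G s t r < W x k
  W1 : ∀ x x' k l, x < x' → W x k < W x' l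
  W2 : ∀ x k l, k < l → W x k < W x l

theorem exists_data : Nonempty Data := by
  obtain ⟨G, G1, G2, G3⟩ := exists_G
  have hmono : ∀ s s' t t' r r', s ≤ s' → t ≤ t' → r ≤ r' → G s t r ≤ G s' t' r' := by
    intro s s' t t' r r' hs ht hr
    calc G s t r ≤ G s' t r := by
          rcases hs.lt_or_eq with h | h
          · exact (G1 _ _ _ _ h).le
          · rw [h]
      _ ≤ G s' t' r := by
          rcases ht.lt_or_eq with h | h
          · exact (G2 _ _ _ _ h).le
          · rw [h]
      _ ≤ G s' t' r' := by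
          rcases hr.lt_or_eq with h | h
          · exact (G3 _ _ _ _ h).le
          · rw [h]
  obtain ⟨f, hf1, hf2⟩ := exists_good (M1 × WithTop ℕ) (Prod.Lex (· < ·) (· < ·))
    (IsWellFounded.wf) (by
      intro p
      refine Set.Countable.mono (s₂ := Set.Iic p.1 ×ˢ Set.univ) ?_ ?_
      · intro q hq
        rw [Set.mem_ofPred, Prod.lex_def] at hq
        refine ⟨?_, Set.mem_univ _⟩
        rcases hq with h | ⟨h, _⟩
        · exact h.le
        · exact h.le
      · have : Countable (WithTop ℕ) := inferInstanceAs (Countable (Option ℕ))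
        exact (countable_Iic _).prod Set.countable_univ)
    (fun w => ∀ s t r, s < w → t < w → r < w → G s t r < w) (by
      intro m
      have step : ∀ m : M1, ∃ m', m < m' ∧ ∀ s t r, s ≤ m → t ≤ m → r ≤ m → G s t r < m' := by
        intro m
        obtain ⟨m', hm'⟩ := exists_gt_countable
          ({m} ∪ (fun p : M1 × M1 × M1 => G p.1 p.2.1 p.2.2) ''
            (Set.Iic m ×ˢ Set.Iic m ×ˢ Set.Iic m))
          ((Set.countable_singleton m).union
            (((countable_Iic _).prod ((countable_Iic _).prod (countable_Iic _))).image _))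
        refine ⟨m', hm' m (Or.inl rfl), fun s t r hs ht hr => ?_⟩
        exact hm' _ (Or.inr ⟨(s, t, r), ⟨hs, ht, hr⟩, rfl⟩)
      choose F hF1 hF2 using step
      let q : ℕ → M1 := fun k => F^[k] m
      have hq : ∀ k, q (k + 1) = F (q k) := fun k => Function.iterate_succ_apply' F k m
      have hqm : Monotone q := monotone_nat_of_le_succ (fun k => by rw [hq]; exact (hF1 _).le)
      obtain ⟨b, hb⟩ := exists_gt_countable (Set.range q) (Set.countable_range q)
      have hne : {w | ∀ k, q k < w}.Nonempty := ⟨b, fun k => hb _ ⟨k, rfl⟩⟩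
      have hmin := WellFounded.min_mem (wellFounded_lt (α := M1)) _ hne
      set w := WellFounded.min (wellFounded_lt (α := M1)) _ hne with hw
      have hlt : ∀ s, s < w → ∃ k, s ≤ q k := by
        intro s hs
        by_contra hcon
        push Not at hcon
        exact WellFounded.not_lt_min (wellFounded_lt (α := M1)) {w | ∀ k, q k < w} hcon hs
      refine ⟨w, hmin 0, fun s t r hs ht hr => ?_⟩
      obtain ⟨k1, h1⟩ := hlt s hs
      obtain ⟨k2, h2⟩ := hlt t ht
      obtain ⟨k3, h3⟩ := hlt r hr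
      have hk1 : q k1 ≤ q (k1 + k2 + k3) := hqm (by omega)
      have hk2 : q k2 ≤ q (k1 + k2 + k3) := hqm (by omega)
      have hk3 : q k3 ≤ q (k1 + k2 + k3) := hqm (by omega)
      have h4 := hF2 (q (k1 + k2 + k3)) s t r (h1.trans hk1) (h2.trans hk2) (h3.trans hk3)
      rw [← hq] at h4
      exact h4.trans (hmin _))
  exact ⟨⟨G, G1, G2, G3, fun x k => f (x, k), fun x k => hf1 (x, k),
    fun x x' k l h => hf2 _ _ (Prod.Lex.left _ _ h),
    fun x k l h => hf2 _ _ (Prod.Lex.right _ h)⟩⟩

namespace Data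

variable (D : Data)

theorem le1 (s t r : M1) : s ≤ D.G s t r := le_apply (g := fun s => D.G s t r)
  (fun a b h => D.G1 a b t r h) s
theorem le2 (s t r : M1) : t ≤ D.G s t r := le_apply (g := fun t => D.G s t r)
  (fun a b h => D.G2 s a b r h) t
theorem le3 (s t r : M1) : r ≤ D.G s t r := le_apply (g := fun r => D.G s t r)
  (fun a b h => D.G3 s t a b h) r

theorem lt1 (s t r t' : M1) (h : t' < t) : s < D.G s t r :=
  lt_of_le_of_lt (D.le1 s t' r) (D.G2 _ _ _ _ h)

/-- The block of `x`. -/
def Blk (x v : M1) : Prop := D.W x 0 ≤ v ∧ ∀ x', x < x' → v < D.W x' 0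

theorem blk_lt {u : M1 → M1} (hu : ∀ x, D.Blk x (u x)) (x x' : M1) (h : x < x') : u x < u x' :=
  lt_of_lt_of_le ((hu x).2 x' h) (hu x').1

theorem blk_W (x : M1) (k : WithTop ℕ) : D.Blk x (D.W x k) := by
  refine ⟨?_, fun x' h => D.W1 _ _ _ _ h⟩
  rcases eq_or_ne k 0 with h | h
  · rw [h]
  · exact (D.W2 x 0 k (pos_iff_ne_zero.2 h)).le

theorem blk_G {x s t r : M1} (hs : D.Blk x s) (ht : D.Blk x t) (hr : D.Blk x r) :
    D.Blk x (D.G s t r) :=
  ⟨hs.1.trans (D.le1 _ _ _), fun x' h => D.closed _ _ _ _ _ (hs.2 x' h) (ht.2 x' h) (hr.2 x' h)⟩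

theorem blk_iter {x t r : M1} (ht : D.Blk x t) (hr : D.Blk x r) (k : ℕ) {v : M1}
    (hv : D.Blk x v) : D.Blk x ((fun v => D.G v t r)^[k] v) := by
  induction k with
  | zero => exact hv
  | succ k ih => rw [Function.iterate_succ_apply']; exact D.blk_G ih ht hr

theorem iter_lt {x t r : M1} {l : WithTop ℕ} (ht : t < D.W x l) (hr : r < D.W x l) (k : ℕ)
    {v : M1} (hv : v < D.W x l) : (fun v => D.G v t r)^[k] v < D.W x l := by
  induction k with
  | zero => exact hv
  | succ k ih => rw [Function.iterate_succ_apply']; exact D.closed _ _ _ _ _ ih ht hr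

theorem iter_mono (t r v : M1) {k l : ℕ} (h : k ≤ l) :
    (fun v => D.G v t r)^[k] v ≤ (fun v => D.G v t r)^[l] v := by
  have : Monotone (fun k => (fun v => D.G v t r)^[k] v) := by
    apply monotone_nat_of_le_succ
    intro k
    rw [Function.iterate_succ_apply']
    exact D.le1 _ _ _
  exact this h

end Data

/-- An injection of `Iic x` into the natural numbers. -/
noncomputable def phi (x : M1) : M1 → ℕ :=
  Classical.choose (Set.countable_iff_exists_injOn.1 (countable_Iic x))

theorem phi_inj (x : M1) : Set.InjOn (phi x) (Set.Iic x) :=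
  Classical.choose_spec (Set.countable_iff_exists_injOn.1 (countable_Iic x))

namespace Data

variable (D : Data)

open Classical in
/-- The functions `h i`. -/
noncomputable def h (i x : M1) : M1 :=
  if i ≤ x then D.W x ((2 * phi x i + 2 : ℕ) : WithTop ℕ) else D.W x ⊤

/-- The functions `a n`. -/
noncomputable def a (n : ℕ) (x : M1) : M1 := D.W x ((2 * n + 3 : ℕ) : WithTop ℕ)

/-- The function `b`. -/
noncomputable def b (x : M1) : M1 := D.W x 0

/-- Elements of the `n`-th fibre. -/
def fib (n : ℕ) (x i : M1) : Set M1 := {k | k ≤ x ∧ phi x k ≤ n ∧ i ≤ k}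

/-- The functions `y n i`. -/
noncomputable def y (n : ℕ) (i x : M1) : M1 :=
  (fun v => D.G v (D.a n x) (D.a n x))^[(fib n x i).ncard] (D.a n x)

open Classical in
/-- The functions `z i n`. -/
noncomputable def z (i : M1) (n : ℕ) (x : M1) : M1 :=
  if i ≤ x then (fun v => D.G v (D.h i x) (D.b x))^[phi x i - n] (D.h i x) else D.W x ⊤

theorem blk_a (n : ℕ) (x : M1) : D.Blk x (D.a n x) := D.blk_W _ _
theorem blk_b (x : M1) : D.Blk x (D.b x) := D.blk_W _ _
theorem blk_h (i x : M1) : D.Blk x (D.h i x) := by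
  unfold h; split_ifs <;> exact D.blk_W _ _
theorem blk_y (n : ℕ) (i x : M1) : D.Blk x (D.y n i x) :=
  D.blk_iter (D.blk_a _ _) (D.blk_a _ _) _ (D.blk_a _ _)
theorem blk_z (i : M1) (n : ℕ) (x : M1) : D.Blk x (D.z i n x) := by
  unfold z
  split_ifs
  · exact D.blk_iter (D.blk_h _ _) (D.blk_b _) _ (D.blk_h _ _)
  · exact D.blk_W _ _

theorem h_pos (i x : M1) : D.W x 0 < D.h i x := by
  unfold h
  split_ifs
  · exact D.W2 _ _ _ (by exact_mod_cast Nat.succ_pos _)
  · exact D.W2 _ _ _ (WithTop.top_pos)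

theorem a_pos (n : ℕ) (x : M1) : D.W x 0 < D.a n x :=
  D.W2 _ _ _ (by exact_mod_cast Nat.succ_pos _)

theorem fib_finite (n : ℕ) (x i : M1) : (fib n x i).Finite := by
  apply Set.Finite.of_injOn (f := phi x) (t := Set.Iic n)
  · intro k hk; exact hk.2.1
  · intro k hk l hl hkl
    exact phi_inj x hk.1 hl.1 hkl
  · exact Set.finite_Iic n

theorem rule2 (n : ℕ) (i j x : M1) (hij : i < j) :
    D.G (D.y n j x) (D.a n x) (D.a n x) < D.G (D.y n i x) (D.h i x) (D.h j x) := by
  by_cases hF : (i ≤ x ∧ phi x i ≤ n) ∧ (j ≤ x ∧ phi x j ≤ n)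
  · obtain ⟨⟨hi1, hi2⟩, hj1, hj2⟩ := hF
    have hlt : (fib n x j).ncard + 1 ≤ (fib n x i).ncard := by
      apply Nat.succ_le_of_lt
      apply Set.ncard_lt_ncard _ (fib_finite n x i)
      refine ⟨fun k hk => ⟨hk.1, hk.2.1, hij.le.trans hk.2.2⟩, fun hcon => ?_⟩
      have : i ∈ fib n x j := hcon ⟨hi1, hi2, le_rfl⟩
      exact absurd this.2.2 (not_le.2 hij)
    calc D.G (D.y n j x) (D.a n x) (D.a n x)
        = (fun v => D.G v (D.a n x) (D.a n x))^[(fib n x j).ncard + 1] (D.a n x) := by
          rw [Function.iterate_succ_apply']; rfl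
      _ ≤ D.y n i x := D.iter_mono _ _ _ hlt
      _ < _ := D.lt1 _ _ _ _ (D.h_pos i x)
  · have key : ∀ k : M1, ¬ (k ≤ x ∧ phi x k ≤ n) →
        D.W x ((2 * n + 4 : ℕ) : WithTop ℕ) ≤ D.h k x := by
      intro k hk
      unfold h
      split_ifs with h1
      · have h2 : n < phi x k := by
          by_contra h3
          exact hk ⟨h1, not_lt.1 h3⟩
        rcases Nat.lt_or_ge (2 * n + 4) (2 * phi x k + 2) with h3 | h3
        · exact (D.W2 _ _ _ (by exact_mod_cast h3)).le
        · have : 2 * phi x k + 2 = 2 * n + 4 := by omega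
          rw [this]
      · exact (D.W2 _ _ _ (WithTop.coe_lt_top _)).le
    have ha : D.a n x < D.W x ((2 * n + 4 : ℕ) : WithTop ℕ) :=
      D.W2 _ _ _ (by exact_mod_cast Nat.lt_succ_self _)
    have hlt : D.G (D.y n j x) (D.a n x) (D.a n x) < D.W x ((2 * n + 4 : ℕ) : WithTop ℕ) :=
      D.closed _ _ _ _ _ (D.iter_lt ha ha _ ha) ha ha
    rw [not_and_or] at hF
    rcases hF with hF | hF
    · exact (hlt.trans_le (key _ hF)).trans_le (D.le2 _ _ _)
    · exact (hlt.trans_le (key _ hF)).trans_le (D.le3 _ _ _)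

theorem rule3 (i : M1) (n : ℕ) (x : M1) :
    D.G (D.z i (n + 1) x) (D.h i x) (D.b x) < D.G (D.z i n x) (D.a n x) (D.b i) := by
  by_cases hi : i ≤ x
  · rcases Nat.lt_or_ge n (phi x i) with hn | hn
    · have h1 : D.G (D.z i (n + 1) x) (D.h i x) (D.b x) = D.z i n x := by
        unfold z
        rw [if_pos hi, if_pos hi]
        have : phi x i - n = (phi x i - (n + 1)) + 1 := by omega
        rw [this, Function.iterate_succ_apply']
      rw [h1]
      exact D.lt1 _ _ _ _ (D.a_pos n x)
    · have h1 : D.z i (n + 1) x = D.h i x := by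
        unfold z
        rw [if_pos hi]
        have : phi x i - (n + 1) = 0 := by omega
        rw [this]; rfl
      rw [h1]
      have h2 : D.h i x < D.a n x := by
        unfold h a
        rw [if_pos hi]
        exact D.W2 _ _ _ (by
          have : 2 * phi x i + 2 < 2 * n + 3 := by omega
          exact_mod_cast this)
      exact (D.closed _ _ _ _ _ h2 h2 (D.a_pos n x)).trans_le (D.le2 _ _ _)
  · have h1 : D.z i (n + 1) x = D.W x ⊤ := by unfold z; rw [if_neg hi]
    have h2 : D.h i x = D.W x ⊤ := by unfold h; rw [if_neg hi]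
    rw [h1, h2]
    have h3 : D.W x ⊤ < D.b i := D.W1 _ _ _ _ (not_le.1 hi)
    have h4 : D.b x < D.b i := D.W1 _ _ _ _ (not_le.1 hi)
    exact (D.closed _ _ _ _ _ h3 h3 h4).trans_le (D.le3 _ _ _)

end Data

end Pool.Agent.X38.TT
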