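import Pool.Agent.X38.TTModel

/-!
# Total termination is modular over countable signatures

Every countable well-ordered monotone algebra can be blown up to one of order type `ω_ω`
(the initial ordinal of `ℵ_ω`); two such blow ups can be amalgamated on one carrier.
-/

set_option autoImplicit false

namespace Pool.Agent.X38.TT

universe u v w

open Cardinal Ordinal

/-! ## Well-orders of type `κ.ord` -/

theorem type_eq_ord {K : Type w} (r : K → K → Prop) [IsWellOrder K r] (κ : Cardinal.{w})
    (h1 : ∀ c, #{c' // r c' c} < κ) (h2 : κ ≤ #K) : Ordinal.type r = κ.ord := by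
  apply le_antisymm
  · by_contra h
    rw [not_le] at h
    obtain ⟨c, hc⟩ := typein_surj r h
    have h3 := h1 c
    have h4 : (typein r c).card = #{c' // r c' c} := card_typein c
    rw [hc, card_ord] at h4
    rw [← h4] at h3
    exact lt_irrefl _ h3
  · rw [Cardinal.ord_le, card_type]
    exact h2

/-! ## A level function -/

theorem not_lt_apply {A : Type u} {lt : A → A → Prop} [IsWellOrder A lt] (g : A → A)
    (hg : ∀ a b, lt a b → lt (g a) (g b)) (a : A) : ¬ lt (g a) a := by
  induction a using IsWellFounded.induction lt with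
  | ind a ih =>
    intro h
    exact ih _ h (hg _ _ h)

theorem exists_level {A : Type u} (lt : A → A → Prop) [IsWellOrder A lt] [Countable A]
    [Nonempty A] : ∃ n : A × ℕ → ℕ,
      (∀ p q, ¬ Prod.Lex lt (· < ·) q p → n p ≤ n q) ∧ ∀ k, ∃ p, k ≤ n p := by
  classical
  obtain ⟨e, he⟩ := exists_surjective_nat (A × ℕ)
  set L : A × ℕ → A × ℕ → Prop := Prod.Lex lt (· < ·) with hL
  have hex : ∀ p, ∃ k, ¬ L (e k) p := by
    intro p
    obtain ⟨k, hk⟩ := he p
    exact ⟨k, by rw [hk]; exact irrefl p⟩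
  refine ⟨fun p => Nat.find (hex p), ?_, ?_⟩
  · intro p q hqp
    apply Nat.find_min'
    intro h
    apply Nat.find_spec (hex q)
    change L (e (Nat.find (hex q))) p at h
    rcases trichotomous_of L p q with h1 | h1 | h1
    · exact _root_.trans h h1
    · exact h1 ▸ h
    · exact absurd h1 hqp
  · intro k
    have : ∀ k : ℕ, ∃ m, ∀ j < k, L (e j) m := by
      intro k
      induction k with
      | zero => exact ⟨e 0, fun j hj => absurd hj (Nat.not_lt_zero _)⟩
      | succ k ih =>
        obtain ⟨m, hm⟩ := ih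
        by_cases h : L (e k) m
        · refine ⟨m, fun j hj => ?_⟩
          rcases Nat.lt_succ_iff_lt_or_eq.1 hj with h1 | h1
          · exact hm j h1
          · rw [h1]; exact h
        · refine ⟨((e k).1, (e k).2 + 1), fun j hj => ?_⟩
          have hk : L (e k) ((e k).1, (e k).2 + 1) := by
            rw [hL, Prod.lex_def]
            exact Or.inr ⟨rfl, Nat.lt_succ_self _⟩
          rcases Nat.lt_succ_iff_lt_or_eq.1 hj with h1 | h1
          · rcases trichotomous_of L m (e k) with h2 | h2 | h2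
            · exact _root_.trans (_root_.trans (hm j h1) h2) hk
            · rw [← h2] at hk ⊢
              exact _root_.trans (hm j h1) hk
            · exact absurd h2 h
          · rw [h1]; exact hk
    obtain ⟨m, hm⟩ := this k
    refine ⟨m, ?_⟩
    rw [Nat.le_find_iff]
    intro j hj h
    exact h (hm j hj)

/-! ## The blow up -/

section Blow

variable {A : Type u} (lt : A → A → Prop) (n : A × ℕ → ℕ)

/-- The carrier of the blow up. -/
@[reducible] def Car (n : A × ℕ → ℕ) : Type (u + 1) :=
  {p : (A × ℕ) × List Ordinal.{u} // ∀ w ∈ p.2, w < (ℵ_ (n p.1 : Ordinal.{u})).ord}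

/-- The order of the blow up: lexicographic, lists are compared by the shortlex order. -/
def carLt : Car n → Car n → Prop :=
  InvImage (Prod.Lex (Prod.Lex lt (· < ·)) (List.Shortlex (· < ·))) Subtype.val

instance carLt_isWellOrder [IsWellOrder A lt] : IsWellOrder (Car n) (carLt lt n) :=
  (RelEmbedding.preimage ⟨(Subtype.val : Car n → _), Subtype.val_injective⟩
    (Prod.Lex (Prod.Lex lt (· < ·)) (List.Shortlex (· < ·)))).isWellOrder

theorem carLt_iff (c d : Car n) : carLt lt n c d ↔
    (lt c.1.1.1 d.1.1.1 ∨ c.1.1.1 = d.1.1.1 ∧ c.1.1.2 < d.1.1.2) ∨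
      (c.1.1 = d.1.1 ∧ List.Shortlex (· < ·) c.1.2 d.1.2) := by
  simp only [carLt, InvImage, Prod.lex_def]

theorem mk_lists (k : ℕ) :
    #{l : List Ordinal.{u} | ∀ w ∈ l, w ∈ Set.Iio (ℵ_ (k : Ordinal.{u})).ord}
      ≤ ℵ_ (k : Ordinal.{u+1}) := by
  rw [← Set.range_list_map_coe]
  refine Cardinal.mk_range_le.trans ?_
  have hcard : #(Set.Iio (ℵ_ (k : Ordinal.{u})).ord) = ℵ_ (k : Ordinal.{u+1}) := by
    rw [Cardinal.mk_Iio_ordinal, card_ord, lift_aleph]
    simp
  have : Infinite (Set.Iio (ℵ_ (k : Ordinal.{u})).ord) := by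
    rw [Cardinal.infinite_iff, hcard]
    exact aleph0_le_aleph _
  rw [Cardinal.mk_list_eq_mk, hcard]

theorem type_carLt [IsWellOrder A lt] [Countable A]
    (hn : ∀ p q, ¬ Prod.Lex lt (· < ·) q p → n p ≤ n q) (hk : ∀ k, ∃ p, k ≤ n p) :
    Ordinal.type (carLt lt n) = (ℵ_ (ω : Ordinal.{u+1})).ord := by
  apply type_eq_ord
  · intro c
    have h0 : ℵ_ (n c.1.1 : Ordinal.{u+1}) < ℵ_ (ω : Ordinal.{u+1}) := by
      rw [aleph_lt_aleph]
      exact natCast_lt_omega0 _
    refine lt_of_le_of_lt ?_ h0
    let B := {l : List Ordinal.{u} | ∀ w ∈ l, w ∈ Set.Iio (ℵ_ (n c.1.1 : Ordinal.{u})).ord}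
    have hle : ∀ c' : {c' // carLt lt n c' c}, n c'.1.1.1 ≤ n c.1.1 := by
      rintro ⟨c', hc'⟩
      apply hn
      intro h
      have h2 : carLt lt n c c' := Prod.Lex.left _ _ h
      exact asymm hc' h2
    let g : {c' // carLt lt n c' c} → (A × ℕ) × B := fun c' =>
      (c'.1.1.1, ⟨c'.1.1.2, fun w hw => lt_of_lt_of_le (c'.1.2 w hw) (by
        rw [ord_le_ord, aleph_le_aleph]
        exact_mod_cast hle c')⟩)
    have hg : Function.Injective g := by
      rintro ⟨⟨⟨a, l⟩, h1⟩, h1'⟩ ⟨⟨⟨b, m⟩, h2⟩, h2'⟩ h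
      simp only [g, Prod.mk.injEq] at h
      obtain ⟨rfl, h3⟩ := h
      have h4 : l = m := congrArg Subtype.val h3
      subst h4
      rfl
    refine (Cardinal.mk_le_of_injective hg).trans ?_
    rw [Cardinal.mk_prod]
    have hB : Cardinal.lift.{u} #B ≤ ℵ_ (n c.1.1 : Ordinal.{u+1}) := by
      have := mk_lists.{u} (n c.1.1)
      rw [Cardinal.lift_id'.{u, u + 1}]
      exact this
    have hA : Cardinal.lift.{u+1} #(A × ℕ) ≤ ℵ₀ := by
      rw [Cardinal.lift_le_aleph0]
      exact Cardinal.mk_le_aleph0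
    calc _ ≤ ℵ₀ * ℵ_ (n c.1.1 : Ordinal.{u+1}) := mul_le_mul' hA hB
      _ = _ := Cardinal.aleph0_mul_eq (aleph0_le_aleph _)
  · by_contra h
    rw [not_le] at h
    have hlim : Order.IsSuccLimit (ω : Ordinal.{u+1}) := isSuccLimit_omega0
    rw [aleph_limit hlim] at h
    obtain ⟨⟨o, ho⟩, h2⟩ := exists_lt_of_lt_ciSup' h
    obtain ⟨k, rfl⟩ := lt_omega0.1 ho
    obtain ⟨p, hp⟩ := hk k
    apply not_le_of_gt h2
    have hcard : #(Set.Iio (ℵ_ (k : Ordinal.{u})).ord) = ℵ_ (k : Ordinal.{u+1}) := by
      rw [Cardinal.mk_Iio_ordinal, card_ord, lift_aleph]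
      simp
    rw [← hcard]
    let g : Set.Iio (ℵ_ (k : Ordinal.{u})).ord → Car n := fun w => ⟨(p, [w.1]), by
      intro x hx
      simp only [List.mem_singleton] at hx
      subst hx
      refine lt_of_lt_of_le w.2 ?_
      rw [ord_le_ord, aleph_le_aleph]
      exact_mod_cast hp⟩
    have hg : Function.Injective g := by
      intro a b hab
      have := congrArg (fun c : Car n => c.1.2) hab
      simp only [g, List.cons.injEq, and_true] at this
      exact Subtype.ext this
    exact Cardinal.mk_le_of_injective hg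

variable {S : Sig.{u}} {lt n}

/-- The blow up of an algebra. -/
def blow [IsWellOrder A lt] (M : Alg S lt)
    (hn : ∀ p q, ¬ Prod.Lex lt (· < ·) q p → n p ≤ n q) : Alg S (carLt lt n) where
  op f x := ⟨((M.op f (fun i => (x i).1.1.1), ∑ i, (x i).1.1.2),
      (List.ofFn (fun i => (x i).1.2)).flatten), by
    intro w hw
    simp only [List.mem_flatten, List.mem_ofFn] at hw
    obtain ⟨l, ⟨i, rfl⟩, hw⟩ := hw
    refine lt_of_lt_of_le ((x i).2 w hw) ?_
    rw [ord_le_ord, aleph_le_aleph]
    norm_cast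
    apply hn
    intro h
    rw [Prod.lex_def] at h
    rcases h with h | ⟨_, h⟩
    · have := not_lt_apply (lt := lt)
        (fun a => M.op f (Function.update (fun i => (x i).1.1.1) i a))
        (fun a b hab => M.mono f _ i a b hab) (x i).1.1.1
      simp only [Function.update_eq_self] at this
      exact this h
    · have h3 : (x i).1.1.2 ≤ ∑ j, (x j).1.1.2 :=
        Finset.single_le_sum (f := fun j => (x j).1.1.2) (fun j _ => Nat.zero_le _)
          (Finset.mem_univ i)
      exact absurd h (not_lt.2 h3)⟩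
  mono f x i a b hab := by
    classical
    have k1 : ∀ c : Car n, (fun j => (Function.update x i c j).1.1.1)
        = Function.update (fun j => (x j).1.1.1) i c.1.1.1 := by
      intro c
      funext j
      by_cases hj : j = i
      · subst hj; simp
      · simp [Function.update_of_ne hj]
    have k2 : ∀ c : Car n, (fun j => (Function.update x i c j).1.1.2)
        = Function.update (fun j => (x j).1.1.2) i c.1.1.2 := by
      intro c
      funext j
      by_cases hj : j = i
      · subst hj; simp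
      · simp [Function.update_of_ne hj]
    have k3 : ∀ c : Car n, (fun j => (Function.update x i c j).1.2)
        = Function.update (fun j => (x j).1.2) i c.1.2 := by
      intro c
      funext j
      by_cases hj : j = i
      · subst hj; simp
      · simp [Function.update_of_ne hj]
    rw [carLt_iff] at hab ⊢
    simp only [k1, k3]
    rcases hab with (h | ⟨h1, h2⟩) | ⟨h1, h2⟩
    · exact Or.inl (Or.inl (M.mono f _ i _ _ h))
    · left; right
      refine ⟨by rw [h1], ?_⟩
      apply Finset.sum_lt_sum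
      · intro j _
        by_cases hj : j = i
        · subst hj; simpa using h2.le
        · simp [Function.update_of_ne hj]
      · exact ⟨i, Finset.mem_univ i, by simpa using h2⟩
    · right
      refine ⟨?_, shortlex_flatten_update _ i h2⟩
      have h3 : (fun j => (Function.update x i a j).1.1.2)
          = (fun j => (Function.update x i b j).1.1.2) := by
        rw [k2, k2, h1]
      rw [h1]
      simp only [Prod.mk.injEq, true_and]
      exact Finset.sum_congr rfl (fun j _ => congrFun h3 j)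

theorem blow_eval_fst [IsWellOrder A lt] (M : Alg S lt)
    (hn : ∀ p q, ¬ Prod.Lex lt (· < ·) q p → n p ≤ n q) {V : Type w} (v : V → Car n)
    (t : Term S V) : ((blow M hn).eval v t).1.1.1 = M.eval (fun x => (v x).1.1.1) t := by
  induction t with
  | var x => rfl
  | app f ts ih =>
    simp only [Alg.eval, blow]
    congr 1
    funext i
    exact ih i

theorem blow_compat [IsWellOrder A lt] (M : Alg S lt)
    (hn : ∀ p q, ¬ Prod.Lex lt (· < ·) q p → n p ≤ n q) {R : TRS S} (hM : M.Compat R) :
    (blow M hn).Compat R := by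
  intro p hp v
  rw [carLt_iff, blow_eval_fst, blow_eval_fst]
  exact Or.inl (Or.inl (hM p hp _))

end Blow

/-! ## Amalgamation -/

section Amalgam

variable {S₁ : Sig.{u}} {S₂ : Sig.{v}} {K₁ K₂ : Type w} {r₁ : K₁ → K₁ → Prop}
  {r₂ : K₂ → K₂ → Prop}

/-- Two algebras with isomorphic carriers give an algebra for the union of the signatures. -/
def amalgam (M₁ : Alg S₁ r₁) (M₂ : Alg S₂ r₂) (e : r₁ ≃r r₂) : Alg (S₁.sum S₂) r₁ where
  op f := match f with
    | Sum.inl f => fun x => M₁.op f x
    | Sum.inr g => fun x => e.symm (M₂.op g (fun i => e (x i)))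
  mono f x i a b hab := by
    match f with
    | Sum.inl f => exact M₁.mono f x i a b hab
    | Sum.inr g =>
      have key : ∀ (m : ℕ) (x : Fin m → K₁) (i : Fin m) (c : K₁),
          (fun j : Fin m => e (Function.update x i c j))
          = Function.update (fun j => e (x j)) i (e c) := by
        intro m x i c
        funext j
        by_cases hj : j = i
        · subst hj; simp
        · simp [Function.update_of_ne hj]
      change r₁ (e.symm (M₂.op g _)) (e.symm (M₂.op g _))
      rw [e.symm.map_rel_iff]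
      have h := M₂.mono g (fun j => e (x j)) i (e a) (e b) (e.map_rel_iff.2 hab)
      have ka := key (S₂.ar g) x i a
      have kb := key (S₂.ar g) x i b
      rw [← ka, ← kb] at h
      exact h

theorem amalgam_eval_inl (M₁ : Alg S₁ r₁) (M₂ : Alg S₂ r₂) (e : r₁ ≃r r₂) {V : Type*}
    (v : V → K₁) (t : Term S₁ V) : (amalgam M₁ M₂ e).eval v t.inl = M₁.eval v t := by
  induction t with
  | var x => rfl
  | app f ts ih =>
    change M₁.op f _ = M₁.op f _
    congr 1
    funext i
    exact ih i

theorem amalgam_eval_inr (M₁ : Alg S₁ r₁) (M₂ : Alg S₂ r₂) (e : r₁ ≃r r₂) {V : Type*}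
    (v : V → K₁) (t : Term S₂ V) :
    (amalgam M₁ M₂ e).eval v t.inr = e.symm (M₂.eval (fun x => e (v x)) t) := by
  induction t with
  | var x => exact (e.symm_apply_apply _).symm
  | app f ts ih =>
    change e.symm (M₂.op f _) = e.symm (M₂.op f _)
    congr 2
    funext i
    have := ih i
    change e ((amalgam M₁ M₂ e).eval v (ts i).inr) = _
    rw [this, e.apply_symm_apply]

theorem amalgam_compat (M₁ : Alg S₁ r₁) (M₂ : Alg S₂ r₂) (e : r₁ ≃r r₂) {R₁ : TRS S₁}
    {R₂ : TRS S₂} (h₁ : M₁.Compat R₁) (h₂ : M₂.Compat R₂) :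
    (amalgam M₁ M₂ e).Compat (R₁.union R₂) := by
  rintro p (⟨q, hq, rfl⟩ | ⟨q, hq, rfl⟩) v
  · simp only [amalgam_eval_inl]
    exact h₁ q hq v
  · simp only [amalgam_eval_inr]
    rw [e.symm.map_rel_iff]
    exact h₂ q hq _

end Amalgam

/-- **Total termination is modular for disjoint term rewriting systems over countable
signatures.** -/
theorem modular_of_countable (S₁ S₂ : Sig.{u}) [Countable S₁.Sym] [Countable S₂.Sym]
    (hc₁ : S₁.HasConst) (hc₂ : S₂.HasConst) (R₁ : TRS S₁) (R₂ : TRS S₂)
    (h₁ : R₁.TotallyTerminating) (h₂ : R₂.TotallyTerminating) :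
    (R₁.union R₂).TotallyTerminating := by
  obtain ⟨lt₁, wo₁, mono₁, hR₁⟩ := h₁
  obtain ⟨lt₂, wo₂, mono₂, hR₂⟩ := h₂
  obtain ⟨c₁, hc₁⟩ := hc₁
  obtain ⟨c₂, hc₂⟩ := hc₂
  have : Nonempty (Ground S₁) := ⟨.app c₁ (fun i => (Fin.cast hc₁ i).elim0)⟩
  have : Nonempty (Ground S₂) := ⟨.app c₂ (fun i => (Fin.cast hc₂ i).elim0)⟩
  obtain ⟨n₁, hn₁, hk₁⟩ := exists_level lt₁
  obtain ⟨n₂, hn₂, hk₂⟩ := exists_level lt₂
  have C₁ : (Alg.ground mono₁).Compat R₁ := by
    intro p hp v
    rw [Alg.eval_ground, Alg.eval_ground]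
    exact hR₁ p hp v
  have C₂ : (Alg.ground mono₂).Compat R₂ := by
    intro p hp v
    rw [Alg.eval_ground, Alg.eval_ground]
    exact hR₂ p hp v
  have ht : Ordinal.type (carLt lt₁ n₁) = Ordinal.type (carLt lt₂ n₂) := by
    rw [type_carLt lt₁ n₁ hn₁ hk₁, type_carLt lt₂ n₂ hn₂ hk₂]
  obtain ⟨e⟩ := Ordinal.type_eq.1 ht
  exact (amalgam (blow (Alg.ground mono₁) hn₁) (blow (Alg.ground mono₂) hn₂) e).totallyTerminating
    (amalgam_compat _ _ e (blow_compat _ hn₁ C₁) (blow_compat _ hn₂ C₂))

end Pool.Agent.X38.TT
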