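import Mathlib

set_option autoImplicit false
open Filter Topology Set MeasureTheory

namespace Pool.Agent.X38.WP

/-- the comparison function -/
noncomputable def g (t : ℝ) : ℝ :=
  |t| * (Real.pi / 2 - Real.arctan |t|) + Real.log (1 + t ^ 2) / 2

theorem arccot_le {t : ℝ} (ht : 0 < t) : Real.pi / 2 - Real.arctan t ≤ 1 / t := by
  have h := Real.arctan_inv_of_pos ht
  rw [← h]
  have h2 : 0 ≤ t⁻¹ := by positivity
  have : Real.arctan t⁻¹ ≤ t⁻¹ := by
    have := Real.le_tan (Real.arctan_nonneg.2 h2) (Real.arctan_lt_pi_div_two _)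
    rwa [Real.tan_arctan] at this
  simpa using this

/-- the primitive of `log sin` -/
noncomputable def L (x : ℝ) : ℝ := - ∫ t in (Real.pi / 2)..x, Real.log (Real.sin t)

theorem L_half : L (Real.pi / 2) = 0 := by simp [L]

theorem L_deriv {x : ℝ} (h0 : 0 < x) (h1 : x < Real.pi) :
    HasDerivAt L (-Real.log (Real.sin x)) x := by
  unfold L
  have hs : Real.sin x ≠ 0 := (Real.sin_pos_of_pos_of_lt_pi h0 h1).ne'
  have hc : ContinuousAt (fun t => Real.log (Real.sin t)) x :=
    Real.continuous_sin.continuousAt.log hs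
  refine (intervalIntegral.integral_hasDerivAt_right ?_ ?_ hc).neg
  · exact intervalIntegrable_log_sin
  · exact (Real.measurable_log.comp Real.measurable_sin).stronglyMeasurable.stronglyMeasurableAtFilter

theorem L_ge {x : ℝ} (h0 : 0 ≤ x) : -(Real.log 2 * Real.pi / 2) ≤ L x := by
  have h := integral_log_sin_zero_pi_div_two
  have hi : ∀ a b : ℝ, IntervalIntegrable (fun t => Real.log (Real.sin t)) volume a b :=
    fun a b => intervalIntegrable_log_sin
  have h2 := intervalIntegral.integral_add_adjacent_intervals (hi 0 x) (hi x (Real.pi / 2))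
  have h3 : 0 ≤ ∫ t in (0:ℝ)..x, -Real.log (Real.sin t) := by
    apply intervalIntegral.integral_nonneg_of_forall h0
    intro t
    rw [← Real.log_abs, neg_nonneg]
    exact Real.log_nonpos (abs_nonneg _) (Real.abs_sin_le_one t)
  rw [intervalIntegral.integral_neg] at h3
  have h4 : L x = ∫ t in x..(Real.pi/2), Real.log (Real.sin t) := by
    unfold L
    rw [intervalIntegral.integral_symm, neg_neg]
  rw [h4]
  linarith

/-- the derivative computation behind the half arc estimate -/
theorem T_deriv {n a M : ℝ} (hn : 0 < n) {F C : ℝ → ℝ} {C1 s : ℝ}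
    (hF : HasDerivAt F (n / 2 * C s) s) (hC : HasDerivAt C C1 s) :
    HasDerivAt (fun s => (s - a) * (F s - M)
      - n / 4 * ((s - a) - 2 / n * (Real.pi / 2 - Real.arctan (C s))) ^ 2 * C s
      + ((s - a) - 2 / n * (Real.pi / 2 - Real.arctan (C s))) * Real.log (1 + C s ^ 2) / 2
      + 2 / n * L (Real.pi / 2 - Real.arctan (C s)))
      ((F s - M) + C s * (Real.pi / 2 - Real.arctan (C s)) + Real.log (1 + C s ^ 2) / 2
        - n / 4 * ((s - a) - 2 / n * (Real.pi / 2 - Real.arctan (C s))) ^ 2 * C1) s := by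
  have hx : HasDerivAt (fun s => s - a) 1 s := (hasDerivAt_id s).sub_const a
  have hp : HasDerivAt (fun s => Real.pi / 2 - Real.arctan (C s)) (-(1 / (1 + C s ^ 2) * C1)) s := by
    have := hC.arctan
    simpa using this.const_sub (Real.pi / 2)
  have he := hx.sub (hp.const_mul (2 / n))
  have hpos : 0 < 1 + C s ^ 2 := by positivity
  have hl : HasDerivAt (fun s => Real.log (1 + C s ^ 2)) ((2 * C s * C1) / (1 + C s ^ 2)) s := by
    have := ((hC.pow 2).const_add 1).log hpos.ne'
    simpa using this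
  have hsin : Real.sin (Real.pi / 2 - Real.arctan (C s)) = 1 / Real.sqrt (1 + C s ^ 2) := by
    rw [Real.sin_pi_div_two_sub, Real.cos_arctan]
  have hL := (L_deriv (x := Real.pi / 2 - Real.arctan (C s))
    (by linarith [Real.arctan_lt_pi_div_two (C s)])
    (by linarith [Real.neg_pi_div_two_lt_arctan (C s)])).comp s hp
  rw [hsin, Real.log_div one_ne_zero (by positivity), Real.log_one, Real.log_sqrt hpos.le] at hL
  have h1 := hx.mul (hF.sub_const M)
  have h2 := ((he.pow 2).const_mul (n / 4)).mul hC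
  have h3 := (he.mul hl).div_const 2
  have h4 := hL.const_mul (2 / n)
  have h5 := ((h1.sub h2).add h3).add h4
  refine h5.congr_deriv ?_
  simp only [Pi.sub_apply, Pi.pow_apply, Nat.cast_ofNat, Nat.add_one_sub_one, pow_one, zero_sub]
  generalize Real.pi / 2 - Real.arctan (C s) = p
  generalize Real.log (1 + C s ^ 2) = l
  generalize F s = f
  generalize C s = c at *
  have hn' : n ≠ 0 := hn.ne'
  have hp' : 1 + c ^ 2 ≠ 0 := hpos.ne'
  field_simp
  ring


theorem E_tendsto {n a M κ : ℝ} (hn : 0 < n) (F C : ℝ → ℝ) (hκ : 0 < κ)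
    (h1 : Tendsto (fun s => (s - a) * C s) (𝓝[>] a) (𝓝 κ))
    (h2 : Tendsto (fun s => (s - a) * F s) (𝓝[>] a) (𝓝 0)) :
    Tendsto (fun s => (s - a) * (F s - M)
      - n / 4 * ((s - a) - 2 / n * (Real.pi / 2 - Real.arctan (C s))) ^ 2 * C s
      + ((s - a) - 2 / n * (Real.pi / 2 - Real.arctan (C s))) * Real.log (1 + C s ^ 2) / 2)
      (𝓝[>] a) (𝓝 0) := by
  have hx : Tendsto (fun s => s - a) (𝓝[>] a) (𝓝 0) := by
    have : Tendsto (fun s => s - a) (𝓝 a) (𝓝 (a - a)) := (continuous_id.sub continuous_const).tendsto a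
    rw [sub_self] at this
    exact this.mono_left nhdsWithin_le_nhds
  have hpos : ∀ᶠ s in 𝓝[>] a, 0 < s - a := by
    filter_upwards [self_mem_nhdsWithin] with s hs
    exact sub_pos.2 hs
  have hA : Tendsto (fun s => (s - a) * (F s - M)) (𝓝[>] a) (𝓝 0) := by
    have := h2.sub (hx.mul_const M)
    simpa [mul_sub] using this
  have hlog : Tendsto (fun s => (s - a) * Real.log (1 + C s ^ 2)) (𝓝[>] a) (𝓝 0) := by
    have q1 : Tendsto (fun s => Real.log ((s - a) ^ 2 + ((s - a) * C s) ^ 2)) (𝓝[>] a)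
        (𝓝 (Real.log (0 ^ 2 + κ ^ 2))) := by
      apply Tendsto.log ((hx.pow 2).add (h1.pow 2))
      positivity
    have q2 := hx.mul q1
    have q3 : Tendsto (fun s => (s - a) * Real.log (s - a)) (𝓝[>] a) (𝓝 0) := by
      have := (Real.continuous_mul_log.tendsto 0).comp hx
      simpa [Function.comp_def] using this
    have q4 := q2.sub (q3.const_mul 2)
    simp only [zero_mul, mul_zero, sub_zero] at q4
    refine q4.congr' ?_
    filter_upwards [hpos] with s hs
    have e1 : (s - a) ^ 2 + ((s - a) * C s) ^ 2 = (s - a) ^ 2 * (1 + C s ^ 2) := by ring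
    rw [e1, Real.log_mul (by positivity) (by positivity), Real.log_pow]
    push_cast
    ring
  -- bound on e
  set K : ℝ := 1 + 4 / (n * κ) with hK
  have hKpos : 0 < K := by positivity
  have hbig : ∀ᶠ s in 𝓝[>] a, κ / 2 < (s - a) * C s :=
    h1.eventually_const_lt (by linarith)
  have he : ∀ᶠ s in 𝓝[>] a,
      |(s - a) - 2 / n * (Real.pi / 2 - Real.arctan (C s))| ≤ K * (s - a) := by
    filter_upwards [hpos, hbig] with s hs hb
    have hCs : 0 < C s := by
      by_contra hcon
      push Not at hcon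
      have : (s - a) * C s ≤ 0 := mul_nonpos_of_nonneg_of_nonpos hs.le hcon
      linarith
    have p0 : 0 ≤ Real.pi / 2 - Real.arctan (C s) := by
      linarith [Real.arctan_lt_pi_div_two (C s)]
    have p1 : Real.pi / 2 - Real.arctan (C s) ≤ 2 * (s - a) / κ := by
      refine (arccot_le hCs).trans ?_
      rw [div_le_div_iff₀ hCs hκ]
      linarith
    have p2 : 2 / n * (Real.pi / 2 - Real.arctan (C s)) ≤ 4 / (n * κ) * (s - a) := by
      calc 2 / n * (Real.pi / 2 - Real.arctan (C s)) ≤ 2 / n * (2 * (s - a) / κ) := by gcongr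
        _ = 4 / (n * κ) * (s - a) := by field_simp; ring
    have p3 : 0 ≤ 2 / n * (Real.pi / 2 - Real.arctan (C s)) := by positivity
    rw [abs_le]
    constructor <;> rw [hK] <;> nlinarith [hs]
  have hB : Tendsto (fun s => n / 4 * ((s - a) - 2 / n * (Real.pi / 2 - Real.arctan (C s))) ^ 2 * C s)
      (𝓝[>] a) (𝓝 0) := by
    have hb : Tendsto (fun s => n / 4 * K ^ 2 * ((s - a) * ((s - a) * C s))) (𝓝[>] a) (𝓝 0) := by
      have := (hx.mul h1).const_mul (n / 4 * K ^ 2)
      simpa using this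
    refine squeeze_zero_norm' ?_ hb
    filter_upwards [hpos, hbig, he] with s hs hb he
    have hCs : 0 < C s := by
      by_contra hcon
      push Not at hcon
      have : (s - a) * C s ≤ 0 := mul_nonpos_of_nonneg_of_nonpos hs.le hcon
      linarith
    have hsq : ((s - a) - 2 / n * (Real.pi / 2 - Real.arctan (C s))) ^ 2 ≤ (K * (s - a)) ^ 2 := by
      rw [← sq_abs]
      exact pow_le_pow_left₀ (abs_nonneg _) he 2
    rw [Real.norm_of_nonneg (by positivity)]
    calc _ ≤ n / 4 * (K * (s - a)) ^ 2 * C s := by gcongr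
      _ = _ := by ring
  have hD : Tendsto (fun s => ((s - a) - 2 / n * (Real.pi / 2 - Real.arctan (C s)))
      * Real.log (1 + C s ^ 2) / 2) (𝓝[>] a) (𝓝 0) := by
    have hb : Tendsto (fun s => K / 2 * ((s - a) * Real.log (1 + C s ^ 2))) (𝓝[>] a) (𝓝 0) := by
      have := hlog.const_mul (K / 2)
      simpa using this
    refine squeeze_zero_norm' ?_ hb
    filter_upwards [he] with s he
    have hl : 0 ≤ Real.log (1 + C s ^ 2) := Real.log_nonneg (by nlinarith [sq_nonneg (C s)])
    rw [Real.norm_eq_abs, abs_div, abs_mul, abs_of_nonneg hl, abs_of_pos (by norm_num : (0:ℝ) < 2)]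
    calc _ ≤ K * (s - a) * Real.log (1 + C s ^ 2) / 2 := by gcongr
      _ = _ := by ring
  have := (hA.sub hB).add hD
  simpa using this

theorem half {n a ζ M κ : ℝ} (hn : 0 < n) (haz : a < ζ) (F C C1 : ℝ → ℝ)
    (hF : ∀ s ∈ Ioc a ζ, HasDerivAt F (n / 2 * C s) s)
    (hC : ∀ s ∈ Ioc a ζ, HasDerivAt C (C1 s) s)
    (hC1 : ∀ s ∈ Ioc a ζ, C1 s ≤ 0)
    (hz : C ζ = 0) (hM : F ζ ≤ M) (hκ : 0 < κ)
    (h1 : Tendsto (fun s => (s - a) * C s) (𝓝[>] a) (𝓝 κ))
    (h2 : Tendsto (fun s => (s - a) * F s) (𝓝[>] a) (𝓝 0))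
    (hint : IntervalIntegrable (fun s => F s + g (C s)) volume a ζ) :
    ∫ s in a..ζ, (F s + g (C s)) ≤ M * (ζ - a) + Real.pi / n * Real.log 2 := by
  have hCnn : ∀ s ∈ Ioc a ζ, 0 ≤ C s := by
    intro s hs
    have hanti : AntitoneOn C (Icc s ζ) := by
      apply antitoneOn_of_deriv_nonpos (convex_Icc s ζ)
      · intro u hu
        exact (hC u ⟨hs.1.trans_le hu.1, hu.2⟩).continuousAt.continuousWithinAt
      · intro u hu
        rw [interior_Icc] at hu
        exact (hC u ⟨hs.1.trans hu.1, hu.2.le⟩).differentiableAt.differentiableWithinAt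
      · intro u hu
        rw [interior_Icc] at hu
        rw [(hC u ⟨hs.1.trans hu.1, hu.2.le⟩).deriv]
        exact hC1 u ⟨hs.1.trans hu.1, hu.2.le⟩
    have := hanti (left_mem_Icc.2 hs.2) (right_mem_Icc.2 hs.2) hs.2
    rwa [hz] at this
  set T : ℝ → ℝ := fun s => (s - a) * (F s - M)
      - n / 4 * ((s - a) - 2 / n * (Real.pi / 2 - Real.arctan (C s))) ^ 2 * C s
      + ((s - a) - 2 / n * (Real.pi / 2 - Real.arctan (C s))) * Real.log (1 + C s ^ 2) / 2
      + 2 / n * L (Real.pi / 2 - Real.arctan (C s)) with hT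
  have hTd : ∀ s ∈ Ioc a ζ, HasDerivAt T ((F s - M) + C s * (Real.pi / 2 - Real.arctan (C s))
      + Real.log (1 + C s ^ 2) / 2
      - n / 4 * ((s - a) - 2 / n * (Real.pi / 2 - Real.arctan (C s))) ^ 2 * C1 s) s :=
    fun s hs => T_deriv hn (hF s hs) (hC s hs)
  have hTz : T ζ ≤ 0 := by
    simp only [hT, hz, Real.arctan_zero, sub_zero, L_half]
    norm_num
    exact mul_nonpos_of_nonneg_of_nonpos (by linarith) (by linarith)
  have key : ∀ s ∈ Ioo a ζ, ∫ u in s..ζ, (F u + g (C u)) ≤ M * (ζ - s)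
      - ((s - a) * (F s - M)
      - n / 4 * ((s - a) - 2 / n * (Real.pi / 2 - Real.arctan (C s))) ^ 2 * C s
      + ((s - a) - 2 / n * (Real.pi / 2 - Real.arctan (C s))) * Real.log (1 + C s ^ 2) / 2)
      + Real.pi / n * Real.log 2 := by
    intro s hs
    have hsub : ∀ u ∈ Icc s ζ, u ∈ Ioc a ζ := fun u hu => ⟨hs.1.trans_le hu.1, hu.2⟩
    have hint' : IntervalIntegrable (fun s => F s + g (C s)) volume s ζ :=
      hint.mono_set (by
        rw [uIcc_of_le haz.le, uIcc_of_le hs.2.le]
        exact Icc_subset_Icc_left hs.1.le)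
    have hfin := intervalIntegral.integral_le_sub_of_hasDeriv_right_of_le (g := T)
      (φ := fun u => F u + g (C u) - M) hs.2.le
      (fun u hu => (hTd u (hsub u hu)).continuousAt.continuousWithinAt)
      (fun u hu => (hTd u (hsub u (Ioo_subset_Icc_self hu))).hasDerivWithinAt)
      (by
        have := hint'.sub (intervalIntegrable_const (c := M))
        rwa [intervalIntegrable_iff_integrableOn_Icc_of_le hs.2.le] at this)
      (by
        intro u hu
        have hu' := hsub u (Ioo_subset_Icc_self hu)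
        have q1 := hC1 u hu'
        have q2 := hCnn u hu'
        have q3 : 0 ≤ - (n / 4 * ((u - a) - 2 / n * (Real.pi / 2 - Real.arctan (C u))) ^ 2 * C1 u) := by
          have : 0 ≤ n / 4 * ((u - a) - 2 / n * (Real.pi / 2 - Real.arctan (C u))) ^ 2 := by positivity
          nlinarith
        simp only [g, abs_of_nonneg q2]
        linarith)
    rw [intervalIntegral.integral_sub hint' intervalIntegrable_const,
      intervalIntegral.integral_const, smul_eq_mul] at hfin
    have hLs := L_ge (x := Real.pi / 2 - Real.arctan (C s))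
      (by linarith [Real.arctan_lt_pi_div_two (C s)])
    have hLs' : -(Real.pi / n * Real.log 2) ≤ 2 / n * L (Real.pi / 2 - Real.arctan (C s)) := by
      have : 2 / n * (-(Real.log 2 * Real.pi / 2)) ≤ 2 / n * L (Real.pi / 2 - Real.arctan (C s)) := by
        gcongr
      calc _ = 2 / n * (-(Real.log 2 * Real.pi / 2)) := by field_simp
        _ ≤ _ := this
    have hTs : T s = (s - a) * (F s - M)
      - n / 4 * ((s - a) - 2 / n * (Real.pi / 2 - Real.arctan (C s))) ^ 2 * C s
      + ((s - a) - 2 / n * (Real.pi / 2 - Real.arctan (C s))) * Real.log (1 + C s ^ 2) / 2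
      + 2 / n * L (Real.pi / 2 - Real.arctan (C s)) := rfl
    linarith
  have hlimL : Tendsto (fun s => ∫ u in s..ζ, (F u + g (C u))) (𝓝[>] a)
      (𝓝 (∫ u in a..ζ, (F u + g (C u)))) := by
    have hc := intervalIntegral.continuousOn_primitive_interval_left
      (a := a) (b := ζ) (μ := volume) (f := fun u => F u + g (C u)) (by
        rw [uIcc_of_le haz.le]
        exact (intervalIntegrable_iff_integrableOn_Icc_of_le haz.le).1 hint)
    have := (hc a left_mem_uIcc).mono_left (nhdsWithin_mono a (s := Ioo a ζ) (by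
      rw [uIcc_of_le haz.le]; exact Ioo_subset_Icc_self))
    rwa [nhdsWithin_Ioo_eq_nhdsGT haz] at this
  have hlimR : Tendsto (fun s => M * (ζ - s)
      - ((s - a) * (F s - M)
      - n / 4 * ((s - a) - 2 / n * (Real.pi / 2 - Real.arctan (C s))) ^ 2 * C s
      + ((s - a) - 2 / n * (Real.pi / 2 - Real.arctan (C s))) * Real.log (1 + C s ^ 2) / 2)
      + Real.pi / n * Real.log 2) (𝓝[>] a) (𝓝 (M * (ζ - a) - 0 + Real.pi / n * Real.log 2)) := by
    apply Tendsto.add_const
    apply Tendsto.sub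
    · have : Tendsto (fun s => M * (ζ - s)) (𝓝 a) (𝓝 (M * (ζ - a))) :=
        (continuous_const.mul (continuous_const.sub continuous_id)).tendsto a
      exact this.mono_left nhdsWithin_le_nhds
    · exact E_tendsto hn F C hκ h1 h2
  rw [sub_zero] at hlimR
  refine le_of_tendsto_of_tendsto hlimL hlimR ?_
  filter_upwards [Ioo_mem_nhdsGT haz] with s hs
  exact key s hs




variable {ι : Type*} [Fintype ι]

/-- logarithm of the weighted product of distances, in terms of angles -/
noncomputable def FF (q θ : ι → ℝ) (s : ℝ) : ℝ := ∑ j, q j * Real.log (2 * Real.sin ((s - θ j) / 2))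

/-- weighted sum of cotangents -/
noncomputable def CC (n : ℝ) (q θ : ι → ℝ) (s : ℝ) : ℝ :=
  (∑ j, q j * (Real.cos ((s - θ j) / 2) / Real.sin ((s - θ j) / 2))) / n

noncomputable def C1 (n : ℝ) (q θ : ι → ℝ) (s : ℝ) : ℝ :=
  (∑ j, q j * (-(1 / 2) / Real.sin ((s - θ j) / 2) ^ 2)) / n

theorem term_sin (t s : ℝ) : HasDerivAt (fun s => Real.sin ((s - t) / 2))
    (Real.cos ((s - t) / 2) * (1 / 2)) s := by
  have h : HasDerivAt (fun s => (s - t) / 2) (1 / 2) s := ((hasDerivAt_id s).sub_const t).div_const 2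
  exact h.sin

theorem term_cos (t s : ℝ) : HasDerivAt (fun s => Real.cos ((s - t) / 2))
    (-Real.sin ((s - t) / 2) * (1 / 2)) s := by
  have h : HasDerivAt (fun s => (s - t) / 2) (1 / 2) s := ((hasDerivAt_id s).sub_const t).div_const 2
  exact h.cos

theorem FF_deriv {n : ℝ} (hn : n ≠ 0) {q θ : ι → ℝ} {s : ℝ} (hs : ∀ j, Real.sin ((s - θ j) / 2) ≠ 0) :
    HasDerivAt (FF q θ) (n / 2 * CC n q θ s) s := by
  have h : HasDerivAt (FF q θ) (∑ j, q j * ((2 * (Real.cos ((s - θ j) / 2) * (1 / 2)))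
      / (2 * Real.sin ((s - θ j) / 2)))) s := by
    unfold FF
    apply HasDerivAt.fun_sum
    intro j _
    apply HasDerivAt.const_mul
    apply HasDerivAt.log
    · exact (term_sin (θ j) s).const_mul 2
    · simpa using hs j
  refine h.congr_deriv ?_
  unfold CC
  rw [mul_div_assoc', mul_comm (n / 2), ← mul_div_assoc', div_right_comm, div_self hn, mul_one_div,
    Finset.sum_div]
  refine Finset.sum_congr rfl fun j _ => ?_
  have := hs j
  field_simp

theorem CC_deriv {n : ℝ} {q θ : ι → ℝ} {s : ℝ} (hs : ∀ j, Real.sin ((s - θ j) / 2) ≠ 0) :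
    HasDerivAt (CC n q θ) (C1 n q θ s) s := by
  unfold CC C1
  apply HasDerivAt.div_const
  apply HasDerivAt.fun_sum
  intro j _
  apply HasDerivAt.const_mul
  refine ((term_cos (θ j) s).div (term_sin (θ j) s) (hs j)).congr_deriv ?_
  have := Real.sin_sq_add_cos_sq ((s - θ j) / 2)
  congr 1
  linear_combination (-1 / 2 : ℝ) * this

theorem C1_nonpos {n : ℝ} (hn : 0 < n) {q θ : ι → ℝ} (hq : ∀ j, 0 ≤ q j) (s : ℝ) :
    C1 n q θ s ≤ 0 := by
  unfold C1
  apply div_nonpos_of_nonpos_of_nonneg _ hn.le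
  apply Finset.sum_nonpos
  intro j _
  apply mul_nonpos_of_nonneg_of_nonpos (hq j)
  apply div_nonpos_of_nonpos_of_nonneg (by norm_num) (sq_nonneg _)

/-- behaviour near a node -/
theorem ratio_tendsto {a t : ℝ} (h : Real.sin ((a - t) / 2) = 0) :
    Tendsto (fun s => Real.sin ((s - t) / 2) / (s - a)) (𝓝[>] a) (𝓝 (Real.cos ((a - t) / 2) / 2)) := by
  have h1 := (hasDerivAt_iff_tendsto_slope.1 (term_sin t a)).mono_left
    (nhdsWithin_mono a (fun x (hx : a < x) => (ne_of_gt hx : x ≠ a)))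
  refine (h1.congr ?_).trans (by rw [mul_one_div])
  intro s
  rw [slope_def_field, h, sub_zero]

theorem cos_ne {x : ℝ} (h : Real.sin x = 0) : Real.cos x ≠ 0 := by
  intro h2
  have := Real.sin_sq_add_cos_sq x
  rw [h, h2] at this
  norm_num at this

theorem sub_tendsto (a : ℝ) : Tendsto (fun s => s - a) (𝓝[>] a) (𝓝 0) := by
  have : Tendsto (fun s => s - a) (𝓝 a) (𝓝 (a - a)) := (continuous_id.sub continuous_const).tendsto a
  rw [sub_self] at this
  exact this.mono_left nhdsWithin_le_nhds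

theorem cont_sin (t a : ℝ) : Tendsto (fun s => Real.sin ((s - t) / 2)) (𝓝[>] a)
    (𝓝 (Real.sin ((a - t) / 2))) :=
  (term_sin t a).continuousAt.tendsto.mono_left nhdsWithin_le_nhds

theorem cont_cos (t a : ℝ) : Tendsto (fun s => Real.cos ((s - t) / 2)) (𝓝[>] a)
    (𝓝 (Real.cos ((a - t) / 2))) :=
  (term_cos t a).continuousAt.tendsto.mono_left nhdsWithin_le_nhds

theorem CC_limit [DecidableEq ι] {n a : ℝ} (q θ : ι → ℝ) (j0 : ι)
    (h0 : Real.sin ((a - θ j0) / 2) = 0) (h1 : ∀ j, j ≠ j0 → Real.sin ((a - θ j) / 2) ≠ 0) :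
    Tendsto (fun s => (s - a) * CC n q θ s) (𝓝[>] a) (𝓝 (2 * q j0 / n)) := by
  have hterm : ∀ j, Tendsto (fun s => (s - a) * (q j * (Real.cos ((s - θ j) / 2) /
      Real.sin ((s - θ j) / 2)))) (𝓝[>] a) (𝓝 (if j = j0 then 2 * q j0 else 0)) := by
    intro j
    split_ifs with hj
    · subst hj
      have hr := (ratio_tendsto h0).inv₀ (div_ne_zero (cos_ne h0) two_ne_zero)
      have := ((hr.mul (cont_cos (θ j) a)).const_mul (q j))
      refine (this.congr ?_).trans ?_
      · intro s
        rw [inv_div]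
        ring
      · have hc := cos_ne h0
        rw [show q j * ((Real.cos ((a - θ j) / 2) / 2)⁻¹ * Real.cos ((a - θ j) / 2)) = 2 * q j by
          field_simp]
    · have := (sub_tendsto a).mul (((cont_cos (θ j) a).div (cont_sin (θ j) a) (h1 j hj)).const_mul (q j))
      rwa [zero_mul] at this
  have hsum := (tendsto_finsetSum Finset.univ fun j _ => hterm j).div_const n
  rw [Finset.sum_ite_eq' Finset.univ j0, if_pos (Finset.mem_univ _)] at hsum
  refine hsum.congr ?_
  intro s
  unfold CC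
  rw [← Finset.mul_sum, mul_div_assoc]

theorem FF_limit [DecidableEq ι] {a : ℝ} (q θ : ι → ℝ) (j0 : ι)
    (h0 : Real.sin ((a - θ j0) / 2) = 0) (h1 : ∀ j, j ≠ j0 → Real.sin ((a - θ j) / 2) ≠ 0) :
    Tendsto (fun s => (s - a) * FF q θ s) (𝓝[>] a) (𝓝 0) := by
  have hterm : ∀ j, Tendsto (fun s => (s - a) * (q j * Real.log (2 * Real.sin ((s - θ j) / 2))))
      (𝓝[>] a) (𝓝 0) := by
    intro j
    by_cases hj : j = j0
    · subst hj
      have hr := ((ratio_tendsto h0).const_mul 2).log (by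
        have := cos_ne h0
        field_simp
        exact this)
      have h3 := (sub_tendsto a).mul hr
      have h4 : Tendsto (fun s => (s - a) * Real.log (s - a)) (𝓝[>] a) (𝓝 0) := by
        have := (Real.continuous_mul_log.tendsto 0).comp (sub_tendsto a)
        simpa [Function.comp_def] using this
      have h5 := (h3.add h4).const_mul (q j)
      rw [zero_mul, add_zero, mul_zero] at h5
      refine h5.congr' ?_
      have hne : ∀ᶠ s in 𝓝[>] a, Real.sin ((s - θ j) / 2) / (s - a) ≠ 0 :=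
        (ratio_tendsto h0).eventually_ne (div_ne_zero (cos_ne h0) two_ne_zero)
      filter_upwards [self_mem_nhdsWithin, hne] with s hs hn
      have hs' : s - a ≠ 0 := (sub_pos.2 hs).ne'
      have e : 2 * Real.sin ((s - θ j) / 2) = 2 * (Real.sin ((s - θ j) / 2) / (s - a)) * (s - a) := by
        field_simp
      rw [e, Real.log_mul (mul_ne_zero two_ne_zero hn) hs']
      ring
    · have := (sub_tendsto a).mul ((((cont_sin (θ j) a).const_mul 2).log
        (mul_ne_zero two_ne_zero (h1 j hj))).const_mul (q j))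
      rwa [zero_mul] at this
  have hsum := tendsto_finsetSum Finset.univ fun j _ => hterm j
  rw [Finset.sum_const_zero] at hsum
  refine hsum.congr ?_
  intro s
  unfold FF
  rw [← Finset.mul_sum]



theorem g_neg (t : ℝ) : g (-t) = g t := by simp [g]

theorem g_nonneg (t : ℝ) : 0 ≤ g t := by
  unfold g
  have h1 : 0 ≤ Real.pi / 2 - Real.arctan |t| := by linarith [Real.arctan_lt_pi_div_two |t|]
  have h2 : 0 ≤ Real.log (1 + t ^ 2) := Real.log_nonneg (by nlinarith [sq_nonneg t])
  positivity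

theorem g_le (t : ℝ) : g t ≤ 1 + Real.log (1 + t ^ 2) / 2 := by
  unfold g
  have : |t| * (Real.pi / 2 - Real.arctan |t|) ≤ 1 := by
    rcases eq_or_ne t 0 with rfl | ht
    · simp
    · have hp : 0 < |t| := abs_pos.2 ht
      calc _ ≤ |t| * (1 / |t|) := by
            gcongr
            exact arccot_le hp
        _ = 1 := by field_simp
  linarith

theorem FF_neg (q θ : ι → ℝ) (s : ℝ) : FF q (fun j => -θ j) s = FF q θ (-s) := by
  unfold FF
  refine Finset.sum_congr rfl fun j _ => ?_
  rw [← Real.log_neg_eq_log, show (s - -θ j) / 2 = -((-s - θ j) / 2) by ring, Real.sin_neg]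
  congr 2
  ring

theorem CC_neg (n : ℝ) (q θ : ι → ℝ) (s : ℝ) : CC n q (fun j => -θ j) s = -CC n q θ (-s) := by
  unfold CC
  rw [← neg_div, ← Finset.sum_neg_distrib]
  congr 1
  refine Finset.sum_congr rfl fun j _ => ?_
  rw [show (s - -θ j) / 2 = -((-s - θ j) / 2) by ring, Real.sin_neg, Real.cos_neg, div_neg, mul_neg]

theorem merSin (t : ℝ) (U : Set ℝ) : MeromorphicOn (fun s => Real.sin ((s - t) / 2)) U := by
  intro x _
  apply AnalyticAt.meromorphicAt
  fun_prop

theorem merCos (t : ℝ) (U : Set ℝ) : MeromorphicOn (fun s => Real.cos ((s - t) / 2)) U := by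
  intro x _
  apply AnalyticAt.meromorphicAt
  fun_prop

theorem FF_int (q θ : ι → ℝ) (a b : ℝ) : IntervalIntegrable (FF q θ) volume a b := by
  have h := IntervalIntegrable.sum (μ := volume) (a := a) (b := b) Finset.univ
    (f := fun j s => q j * Real.log (2 * Real.sin ((s - θ j) / 2))) (fun j _ => by
      apply IntervalIntegrable.const_mul
      have : MeromorphicOn (fun s => 2 * Real.sin ((s - θ j) / 2)) (uIcc a b) := by
        intro x _
        apply AnalyticAt.meromorphicAt
        fun_prop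
      exact this.intervalIntegrable_log)
  have e : FF q θ = ∑ j, fun s => q j * Real.log (2 * Real.sin ((s - θ j) / 2)) := by
    ext s
    simp [FF]
  rw [e]
  exact h

theorem CC_mer (n : ℝ) (q θ : ι → ℝ) (U : Set ℝ) : MeromorphicOn (CC n q θ) U := by
  unfold CC
  intro x hx
  have : MeromorphicAt (fun s => ∑ j, q j * (Real.cos ((s - θ j) / 2) / Real.sin ((s - θ j) / 2))) x := by
    apply MeromorphicAt.fun_sum
    intro j _
    exact (MeromorphicAt.const _ _).fun_mul ((merCos _ U x hx).fun_div (merSin _ U x hx))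
  exact this.fun_div (MeromorphicAt.const _ _)

theorem logCC_int (n : ℝ) (q θ : ι → ℝ) (a b : ℝ) :
    IntervalIntegrable (fun s => Real.log (1 + CC n q θ s ^ 2)) volume a b := by
  have : MeromorphicOn (fun s => 1 + CC n q θ s ^ 2) (uIcc a b) := fun x hx =>
    (MeromorphicAt.const _ _).fun_add ((CC_mer n q θ _ x hx).fun_pow 2)
  exact this.intervalIntegrable_log

theorem CC_meas (n : ℝ) (q θ : ι → ℝ) : Measurable (CC n q θ) := by
  unfold CC
  fun_prop

theorem g_meas : Measurable g := by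
  unfold g
  fun_prop

theorem gCC_int (n : ℝ) (q θ : ι → ℝ) (a b : ℝ) :
    IntervalIntegrable (fun s => g (CC n q θ s)) volume a b := by
  have h := (intervalIntegrable_const (c := (1:ℝ))).add ((logCC_int n q θ a b).div_const 2)
  refine h.mono_fun (g_meas.comp (CC_meas n q θ)).aestronglyMeasurable ?_
  filter_upwards with s
  rw [Real.norm_of_nonneg (g_nonneg _)]
  exact (g_le _).trans (le_abs_self _)

theorem tot_int (n : ℝ) (q θ : ι → ℝ) (a b : ℝ) :
    IntervalIntegrable (fun s => FF q θ s + g (CC n q θ s)) volume a b :=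
  (FF_int q θ a b).add (gCC_int n q θ a b)

theorem exists_pos [DecidableEq ι] {n a b : ℝ} (hn : 0 < n) (hab : a < b) (q θ : ι → ℝ)
    (hq : ∀ j, 0 < q j) (j0 : ι)
    (h0 : Real.sin ((a - θ j0) / 2) = 0) (h1 : ∀ j, j ≠ j0 → Real.sin ((a - θ j) / 2) ≠ 0) :
    ∃ s ∈ Ioo a b, 0 < CC n q θ s := by
  have h := CC_limit (n := n) q θ j0 h0 h1
  have hκ : 0 < 2 * q j0 / n := by have := hq j0; positivity
  have h2 : ∀ᶠ s in 𝓝[>] a, 0 < (s - a) * CC n q θ s := h.eventually_const_lt hκ
  obtain ⟨s, hs, hs2⟩ := (h2.and (Ioo_mem_nhdsGT hab)).exists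
  refine ⟨s, hs2, ?_⟩
  have : 0 < s - a := sub_pos.2 hs2.1
  exact (pos_iff_pos_of_mul_pos hs).1 this

theorem arc [DecidableEq ι] {n a b M : ℝ} (hn : 0 < n) (q θ : ι → ℝ) (hq : ∀ j, 0 < q j)
    (hab : a < b) (j0 j1 : ι)
    (h0 : Real.sin ((a - θ j0) / 2) = 0) (h0' : ∀ j, j ≠ j0 → Real.sin ((a - θ j) / 2) ≠ 0)
    (h1 : Real.sin ((b - θ j1) / 2) = 0) (h1' : ∀ j, j ≠ j1 → Real.sin ((b - θ j) / 2) ≠ 0)
    (hi : ∀ s ∈ Ioo a b, ∀ j, Real.sin ((s - θ j) / 2) ≠ 0)
    (hM : ∀ s, (∀ j, Real.sin ((s - θ j) / 2) ≠ 0) → FF q θ s ≤ M) :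
    ∫ s in a..b, (FF q θ s + g (CC n q θ s)) ≤ M * (b - a) + 2 * (Real.pi / n * Real.log 2) := by
  have e0 : Real.sin ((-b - -θ j1) / 2) = 0 := by
    rw [show (-b - -θ j1) / 2 = -((b - θ j1) / 2) by ring, Real.sin_neg, h1, neg_zero]
  have e1 : ∀ j, j ≠ j1 → Real.sin ((-b - -θ j) / 2) ≠ 0 := by
    intro j hj
    rw [show (-b - -θ j) / 2 = -((b - θ j) / 2) by ring, Real.sin_neg, neg_ne_zero]
    exact h1' j hj
  obtain ⟨s1, hs1, hp1⟩ := exists_pos hn hab q θ hq j0 h0 h0'
  obtain ⟨s2, hs2, hp2⟩ := exists_pos (b := -a) hn (neg_lt_neg hab) q (fun j => -θ j) hq j1 e0 e1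
  rw [CC_neg] at hp2
  have hs2' : -s2 ∈ Ioo a b := ⟨by linarith [hs2.2], by linarith [hs2.1]⟩
  have hcont : ContinuousOn (CC n q θ) (Ioo a b) := fun s hs =>
    (CC_deriv (hi s hs)).continuousAt.continuousWithinAt
  obtain ⟨ζ, hζ, hz⟩ := (isPreconnected_Ioo.intermediate_value hs2' hs1 hcont)
    (show (0:ℝ) ∈ Icc (CC n q θ (-s2)) (CC n q θ s1) from ⟨by linarith, hp1.le⟩)
  have hMz : FF q θ ζ ≤ M := hM ζ (hi ζ hζ)
  have k1 := half hn hζ.1 (FF q θ) (CC n q θ) (C1 n q θ)
    (fun s hs => FF_deriv hn.ne' (hi s ⟨hs.1, hs.2.trans_lt hζ.2⟩))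
    (fun s hs => CC_deriv (hi s ⟨hs.1, hs.2.trans_lt hζ.2⟩))
    (fun s _ => C1_nonpos hn (fun j => (hq j).le) s) hz hMz
    (by have := hq j0; positivity : 0 < 2 * q j0 / n) (CC_limit q θ j0 h0 h0')
    (FF_limit q θ j0 h0 h0') (tot_int n q θ a ζ)
  have hi' : ∀ s ∈ Ioc (-b) (-ζ), ∀ j, Real.sin ((s - -θ j) / 2) ≠ 0 := by
    intro s hs j
    rw [show (s - -θ j) / 2 = -((-s - θ j) / 2) by ring, Real.sin_neg, neg_ne_zero]
    exact hi (-s) ⟨by linarith [hs.2, hζ.1], by linarith [hs.1]⟩ j
  have k2 := half (M := M) hn (neg_lt_neg hζ.2) (FF q (fun j => -θ j)) (CC n q (fun j => -θ j))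
    (C1 n q (fun j => -θ j))
    (fun s hs => FF_deriv hn.ne' (hi' s hs))
    (fun s hs => CC_deriv (hi' s hs))
    (fun s _ => C1_nonpos hn (fun j => (hq j).le) s)
    (by rw [CC_neg, neg_neg, hz, neg_zero]) (by rw [FF_neg, neg_neg]; exact hMz)
    (by have := hq j1; positivity : 0 < 2 * q j1 / n) (CC_limit q _ j1 e0 e1)
    (FF_limit q _ j1 e0 e1) (tot_int n q _ _ _)
  have k3 : ∫ s in (-b)..(-ζ), (FF q (fun j => -θ j) s + g (CC n q (fun j => -θ j) s)) =
      ∫ s in ζ..b, (FF q θ s + g (CC n q θ s)) := by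
    have := intervalIntegral.integral_comp_neg (a := -b) (b := -ζ)
      (fun s => FF q θ s + g (CC n q θ s))
    rw [neg_neg, neg_neg] at this
    rw [← this]
    congr 1
    ext s
    rw [FF_neg, CC_neg, g_neg]
  rw [k3] at k2
  rw [← intervalIntegral.integral_add_adjacent_intervals (tot_int n q θ a ζ) (tot_int n q θ ζ b)]
  linarith

/-- nodes sorted in one period -/
theorem sorted {m : ℕ} (q θ : Fin (m + 1) → ℝ) (hq : ∀ j, 0 < q j)
    (hθ : StrictMono θ) (hlt : θ (Fin.last m) < θ 0 + 2 * Real.pi) {M : ℝ}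
    (hM : ∀ s, (∀ j, Real.sin ((s - θ j) / 2) ≠ 0) → FF q θ s ≤ M) :
    ∫ s in (θ 0)..(θ 0 + 2 * Real.pi), (FF q θ s + g (CC ((m : ℝ) + 1) q θ s)) ≤
      M * (2 * Real.pi) + 2 * Real.pi * Real.log 2 := by
  have hn : (0:ℝ) < (m : ℝ) + 1 := by positivity
  set t : ℕ → ℝ := fun k => if h : k < m + 1 then θ ⟨k, h⟩ else θ 0 + 2 * Real.pi with ht
  have t0 : t 0 = θ 0 := by simp [ht]
  have tn : t (m + 1) = θ 0 + 2 * Real.pi := by simp [ht]
  have tk : ∀ k (h : k < m + 1), t k = θ ⟨k, h⟩ := fun k h => by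
    simp only [ht]
    rw [dif_pos h]
  have hrange : ∀ j, θ 0 ≤ θ j ∧ θ j < θ 0 + 2 * Real.pi := fun j =>
    ⟨hθ.monotone (Fin.zero_le j), (hθ.monotone (Fin.le_last j)).trans_lt hlt⟩
  -- sin nonzero when the difference is in (-2π, 2π) minus 0
  have hsin : ∀ x : ℝ, -(2 * Real.pi) < x → x < 2 * Real.pi → x ≠ 0 → Real.sin (x / 2) ≠ 0 := by
    intro x h1 h2 h3 h4
    rw [Real.sin_eq_zero_iff_of_lt_of_lt (by linarith) (by linarith)] at h4
    exact h3 (by linarith)
  have hle : ∀ k ≤ m, t k < t (k + 1) := by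
    intro k hk
    rw [tk k (by omega)]
    by_cases h : k + 1 < m + 1
    · rw [tk (k + 1) h]
      exact hθ (by simp [Fin.lt_def])
    · have : k + 1 = m + 1 := by omega
      rw [this, tn]
      exact (hrange _).2
  have harc : ∀ k ∈ Finset.range (m + 1), ∫ s in (t k)..(t (k + 1)),
      (FF q θ s + g (CC ((m : ℝ) + 1) q θ s)) ≤
      M * (t (k + 1) - t k) + 2 * (Real.pi / ((m : ℝ) + 1) * Real.log 2) := by
    intro k hk
    have hk' : k < m + 1 := Finset.mem_range.1 hk
    have hlow : θ 0 ≤ t k := by rw [tk k hk']; exact (hrange _).1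
    have hup : t (k + 1) ≤ θ 0 + 2 * Real.pi := by
      by_cases h : k + 1 < m + 1
      · rw [tk (k + 1) h]; exact (hrange _).2.le
      · have : k + 1 = m + 1 := by omega
        rw [this, tn]
    -- right end node
    obtain ⟨j1, hj1, hj1'⟩ : ∃ j1 : Fin (m + 1), Real.sin ((t (k + 1) - θ j1) / 2) = 0 ∧
        ∀ j, j ≠ j1 → Real.sin ((t (k + 1) - θ j) / 2) ≠ 0 := by
      by_cases h : k + 1 < m + 1
      · refine ⟨⟨k + 1, h⟩, by rw [tk (k + 1) h]; simp, ?_⟩
        intro j hj
        rw [tk (k + 1) h]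
        apply hsin
        · linarith [(hrange ⟨k + 1, h⟩).1, (hrange j).2]
        · linarith [(hrange ⟨k + 1, h⟩).2, (hrange j).1]
        · rw [sub_ne_zero]
          exact fun e => hj (hθ.injective e).symm
      · have hkm : k + 1 = m + 1 := by omega
        refine ⟨0, ?_, ?_⟩
        · rw [hkm, tn, show (θ 0 + 2 * Real.pi - θ 0) / 2 = Real.pi by ring, Real.sin_pi]
        · intro j hj
          rw [hkm, tn, show (θ 0 + 2 * Real.pi - θ j) / 2 = (θ 0 - θ j) / 2 + Real.pi by ring,
            Real.sin_add_pi, neg_ne_zero]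
          apply hsin
          · linarith [(hrange j).2]
          · linarith [(hrange j).1, Real.pi_pos]
          · rw [sub_ne_zero]
            exact fun e => hj (hθ.injective e).symm
    refine arc hn q θ hq (hle k (by omega)) ⟨k, hk'⟩ j1 (by rw [tk k hk']; simp) ?_ hj1 hj1' ?_ hM
    · intro j hj
      rw [tk k hk']
      apply hsin
      · linarith [(hrange ⟨k, hk'⟩).1, (hrange j).2]
      · linarith [(hrange ⟨k, hk'⟩).2, (hrange j).1]
      · rw [sub_ne_zero]
        exact fun e => hj (hθ.injective e).symm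
    · intro s hs j
      apply hsin
      · linarith [hs.1, (hrange j).2]
      · linarith [hs.2, (hrange j).1]
      · rw [sub_ne_zero]
        rintro rfl
        rcases Nat.lt_or_ge k j.val with h | h
        · have h2 : t (k + 1) ≤ θ j := by
            rw [tk (k + 1) (by omega)]
            exact hθ.monotone (by rw [Fin.le_def]; exact h)
          linarith [hs.2]
        · have h2 : θ j ≤ t k := by
            rw [tk k hk']
            exact hθ.monotone (by rw [Fin.le_def]; exact h)
          linarith [hs.1]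
  have hsum := Finset.sum_le_sum harc
  rw [intervalIntegral.sum_integral_adjacent_intervals (fun k _ => tot_int _ q θ _ _),
    Finset.sum_add_distrib, ← Finset.mul_sum, Finset.sum_range_sub, Finset.sum_const,
    Finset.card_range, t0, tn] at hsum
  refine hsum.trans (le_of_eq ?_)
  rw [nsmul_eq_mul]
  push_cast
  field_simp
  ring



section jensen
open Complex (I)

theorem cexp_pair (t s : ℝ) :
    Complex.exp (t * I) - Complex.exp (s * I) =
      Complex.exp (((t + s) / 2 : ℝ) * I) * (-2 * I * (Real.sin ((s - t) / 2) : ℝ)) ∧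
    Complex.exp (t * I) + Complex.exp (s * I) =
      Complex.exp (((t + s) / 2 : ℝ) * I) * (2 * (Real.cos ((s - t) / 2) : ℝ)) := by
  have h1 : Complex.exp (t * I) = Complex.exp (((t + s) / 2 : ℝ) * I) *
      (Complex.cos ((s - t) / 2 : ℝ) - Complex.sin ((s - t) / 2 : ℝ) * I) := by
    have : (t : ℂ) * I = ((t + s) / 2 : ℝ) * I + (-((s - t) / 2 : ℝ) : ℂ) * I := by
      push_cast; ring
    rw [this, Complex.exp_add, Complex.exp_mul_I (-((s - t) / 2 : ℝ) : ℂ), Complex.cos_neg,
      Complex.sin_neg]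
    ring
  have h2 : Complex.exp (s * I) = Complex.exp (((t + s) / 2 : ℝ) * I) *
      (Complex.cos ((s - t) / 2 : ℝ) + Complex.sin ((s - t) / 2 : ℝ) * I) := by
    have : (s : ℂ) * I = ((t + s) / 2 : ℝ) * I + (((s - t) / 2 : ℝ) : ℂ) * I := by
      push_cast; ring
    rw [this, Complex.exp_add, Complex.exp_mul_I (((s - t) / 2 : ℝ) : ℂ)]
  rw [h1, h2, ← Complex.ofReal_cos, ← Complex.ofReal_sin]
  constructor <;> ring

theorem norm_pair (t s : ℝ) :
    ‖Complex.exp (s * I) - Complex.exp (t * I)‖ = |2 * Real.sin ((s - t) / 2)| := by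
  rw [norm_sub_rev, (cexp_pair t s).1, norm_mul, Complex.norm_exp_ofReal_mul_I, one_mul, norm_mul,
    norm_mul, Complex.norm_I, mul_one, Complex.norm_real, Real.norm_eq_abs, abs_mul, norm_neg]
  simp

theorem pair_ne {t s : ℝ} (h : Real.sin ((s - t) / 2) ≠ 0) :
    Complex.exp (t * I) - Complex.exp (s * I) ≠ 0 := by
  rw [← norm_ne_zero_iff, norm_sub_rev, norm_pair]
  simpa using h

theorem pair_ratio {t s : ℝ} (h : Real.sin ((s - t) / 2) ≠ 0) :
    (Complex.exp (t * I) + Complex.exp (s * I)) / (Complex.exp (t * I) - Complex.exp (s * I)) =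
      ((Real.cos ((s - t) / 2) / Real.sin ((s - t) / 2) : ℝ) : ℂ) * I := by
  rw [div_eq_iff (pair_ne h), (cexp_pair t s).1, (cexp_pair t s).2]
  have h' : ((Real.sin ((s - t) / 2) : ℝ) : ℂ) ≠ 0 := by exact_mod_cast h
  have e := Complex.ofReal_div (Real.cos ((s - t) / 2)) (Real.sin ((s - t) / 2))
  rw [e]
  field_simp
  rw [Complex.I_sq]
  ring

/-- the weights times distances have mean zero logarithm -/
theorem FF_mean (q θ : ι → ℝ) : ∫ s in (0:ℝ)..(2 * Real.pi), FF q θ s = 0 := by
  unfold FF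
  rw [intervalIntegral.integral_finsetSum]
  · apply Finset.sum_eq_zero
    intro j _
    rw [intervalIntegral.integral_const_mul]
    have h := circleAverage_log_norm_sub_const₁ (a := Complex.exp (θ j * I))
      (Complex.norm_exp_ofReal_mul_I _)
    rw [Real.circleAverage_def] at h
    have h2 : ∀ s : ℝ, Real.log ‖circleMap 0 1 s - Complex.exp (θ j * I)‖ =
        Real.log (2 * Real.sin ((s - θ j) / 2)) := by
      intro s
      rw [circleMap, zero_add, Complex.ofReal_one, one_mul, norm_pair, Real.log_abs]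
    simp only [h2, smul_eq_mul] at h
    have h3 : (2 * Real.pi)⁻¹ ≠ 0 := by positivity
    rw [(mul_eq_zero.1 h).resolve_left h3, mul_zero]
  · intro j _
    apply IntervalIntegrable.const_mul
    have : MeromorphicOn (fun s => 2 * Real.sin ((s - θ j) / 2)) (uIcc 0 (2 * Real.pi)) := by
      intro x _
      apply AnalyticAt.meromorphicAt
      fun_prop
    exact this.intervalIntegrable_log

variable [DecidableEq ι]

/-- numerator polynomial -/
noncomputable def NN (q θ : ι → ℝ) (u : ℝ) (z : ℂ) : ℂ :=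
  ∑ j, (q j : ℂ) * ((1 + u) * Complex.exp (θ j * I) + (1 - u) * z) *
    ∏ i ∈ Finset.univ.erase j, (Complex.exp (θ i * I) - z)

theorem NN_eq (q θ : ι → ℝ) (u : ℝ) (z : ℂ) (hz : ∀ j, Complex.exp (θ j * I) - z ≠ 0) :
    NN q θ u z = (∏ i, (Complex.exp (θ i * I) - z)) *
      ∑ j, (q j : ℂ) * (u + (Complex.exp (θ j * I) + z) / (Complex.exp (θ j * I) - z)) := by
  unfold NN
  rw [Finset.mul_sum]
  refine Finset.sum_congr rfl fun j _ => ?_
  rw [← Finset.mul_prod_erase Finset.univ _ (Finset.mem_univ j)]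
  have := hz j
  field_simp
  ring

theorem re_ratio {a z : ℂ} (ha : ‖a‖ = 1) (hz : ‖z‖ ≤ 1) : 0 ≤ ((a + z) / (a - z)).re := by
  rw [Complex.div_re, ← add_div]
  apply div_nonneg _ (Complex.normSq_nonneg _)
  have h1 : a.re ^ 2 + a.im ^ 2 = 1 := by
    have := Complex.sq_norm a
    rw [ha, Complex.normSq_apply] at this
    linarith
  have h2 : z.re ^ 2 + z.im ^ 2 ≤ 1 := by
    have := Complex.sq_norm z
    rw [Complex.normSq_apply] at this
    nlinarith [norm_nonneg z]
  simp only [Complex.add_re, Complex.sub_re, Complex.add_im, Complex.sub_im]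
  nlinarith

theorem NN_ne (q θ : ι → ℝ) (hq : ∀ j, 0 < q j) [Nonempty ι]
    (hθ : ∀ i j, i ≠ j → Real.sin ((θ i - θ j) / 2) ≠ 0) {u : ℝ} (hu : 0 < u) {z : ℂ}
    (hz : ‖z‖ ≤ 1) : NN q θ u z ≠ 0 := by
  by_cases h : ∃ j, Complex.exp (θ j * I) - z = 0
  · obtain ⟨j, hj⟩ := h
    have hz' : z = Complex.exp (θ j * I) := (sub_eq_zero.1 hj).symm
    unfold NN
    rw [Finset.sum_eq_single j]
    · rw [hz']
      apply mul_ne_zero
      · apply mul_ne_zero
        · exact_mod_cast (hq j).ne'
        · have : (1 + (u:ℂ)) * Complex.exp (θ j * I) + (1 - u) * Complex.exp (θ j * I) =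
            2 * Complex.exp (θ j * I) := by ring
          rw [this]
          exact mul_ne_zero two_ne_zero (Complex.exp_ne_zero _)
      · rw [Finset.prod_ne_zero_iff]
        intro i hi
        exact pair_ne (hθ j i (Finset.ne_of_mem_erase hi).symm)
    · intro b _ hb
      rw [Finset.prod_eq_zero (i := j) (by simp [hb.symm]) hj, mul_zero]
    · intro h; exact absurd (Finset.mem_univ j) h
  · push Not at h
    rw [NN_eq q θ u z h]
    apply mul_ne_zero
    · rw [Finset.prod_ne_zero_iff]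
      intro i _
      exact h i
    · intro h0
      have h1 := congrArg Complex.re h0
      rw [Complex.re_sum, Complex.zero_re] at h1
      have h2 : 0 < ∑ j, ((q j : ℂ) * (u + (Complex.exp (θ j * I) + z) /
          (Complex.exp (θ j * I) - z))).re := by
        apply Finset.sum_pos _ Finset.univ_nonempty
        intro j _
        rw [Complex.re_ofReal_mul, Complex.add_re, Complex.ofReal_re]
        apply mul_pos (hq j)
        have := re_ratio (Complex.norm_exp_ofReal_mul_I (θ j)) hz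
        linarith
      linarith

theorem NN_zero (q θ : ι → ℝ) (u : ℝ) {n : ℝ} (hsum : ∑ j, q j = n) :
    NN q θ u 0 = (∏ i, Complex.exp (θ i * I)) * ((1 + u) * n : ℝ) := by
  rw [NN_eq q θ u 0 (fun j => by simp)]
  simp only [sub_zero, add_zero, div_self (Complex.exp_ne_zero _)]
  rw [← Finset.sum_mul, ← hsum]
  push_cast
  ring

theorem ae_nonnode (θ : ι → ℝ) : ∀ᵐ s : ℝ, ∀ j, Real.sin ((s - θ j) / 2) ≠ 0 := by
  rw [ae_all_iff]
  intro j
  have hc : {s : ℝ | Real.sin ((s - θ j) / 2) = 0}.Countable := by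
    refine (countable_range (fun k : ℤ => 2 * (k * Real.pi) + θ j)).mono ?_
    intro s hs
    obtain ⟨k, hk⟩ := Real.sin_eq_zero_iff.1 hs
    exact ⟨k, by simp only [hk]; ring⟩
  exact hc.ae_notMem _

theorem NN_log (q θ : ι → ℝ) {n : ℝ} (hn : 0 < n) (hsum : ∑ j, q j = n) {u : ℝ} (hu : 0 < u) (s : ℝ)
    (hs : ∀ j, Real.sin ((s - θ j) / 2) ≠ 0) :
    Real.log ‖NN q θ u (circleMap 0 1 s)‖ =
      FF (fun _ => 1) θ s + (Real.log n + Real.log (u ^ 2 + CC n q θ s ^ 2) / 2) := by
  have e1 : circleMap 0 1 s = Complex.exp (s * I) := by simp [circleMap]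
  rw [e1, NN_eq q θ u _ (fun j => pair_ne (hs j))]
  have e2 : ∑ j, (q j : ℂ) * (u + (Complex.exp (θ j * I) + Complex.exp (s * I)) /
      (Complex.exp (θ j * I) - Complex.exp (s * I))) = n * (u + (CC n q θ s : ℝ) * I) := by
    have : ∀ j, (q j : ℂ) * (u + (Complex.exp (θ j * I) + Complex.exp (s * I)) /
      (Complex.exp (θ j * I) - Complex.exp (s * I))) = q j * u +
        ((q j * (Real.cos ((s - θ j) / 2) / Real.sin ((s - θ j) / 2)) : ℝ) : ℂ) * I := by
      intro j
      rw [pair_ratio (hs j)]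
      push_cast
      ring
    simp only [this]
    rw [Finset.sum_add_distrib, ← Finset.sum_mul, ← Finset.sum_mul, ← Complex.ofReal_sum,
      ← Complex.ofReal_sum, hsum]
    unfold CC
    have hn' : (n : ℂ) ≠ 0 := by exact_mod_cast hn.ne'
    push_cast
    field_simp
  rw [e2, norm_mul, norm_prod, norm_mul, Complex.norm_real, Real.norm_of_nonneg hn.le,
    Complex.norm_add_mul_I]
  have hpos : 0 < u ^ 2 + CC n q θ s ^ 2 := by positivity
  have hprod : ∏ i, ‖Complex.exp (θ i * I) - Complex.exp (s * I)‖ ≠ 0 := by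
    rw [Finset.prod_ne_zero_iff]
    intro i _
    exact norm_ne_zero_iff.2 (pair_ne (hs i))
  rw [Real.log_mul hprod (by positivity), Real.log_mul hn.ne' (by positivity), Real.log_sqrt hpos.le,
    Real.log_prod (fun i _ => norm_ne_zero_iff.2 (pair_ne (hs i)))]
  congr 1
  unfold FF
  refine Finset.sum_congr rfl fun j _ => ?_
  rw [norm_sub_rev, norm_pair, Real.log_abs, one_mul]

theorem logCCu_int (n : ℝ) (q θ : ι → ℝ) (u a b : ℝ) :
    IntervalIntegrable (fun s => Real.log (u ^ 2 + CC n q θ s ^ 2)) volume a b := by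
  have : MeromorphicOn (fun s => u ^ 2 + CC n q θ s ^ 2) (uIcc a b) := fun x hx =>
    (MeromorphicAt.const _ _).fun_add ((CC_mer n q θ _ x hx).fun_pow 2)
  exact this.intervalIntegrable_log

theorem jensen (q θ : ι → ℝ) (hq : ∀ j, 0 < q j) [Nonempty ι] {n : ℝ} (hn : 0 < n)
    (hsum : ∑ j, q j = n)
    (hθ : ∀ i j, i ≠ j → Real.sin ((θ i - θ j) / 2) ≠ 0) {u : ℝ} (hu : 0 < u) :
    ∫ s in (0:ℝ)..(2 * Real.pi), Real.log (u ^ 2 + CC n q θ s ^ 2) =
      4 * Real.pi * Real.log (1 + u) := by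
  have h := AnalyticOnNhd.circleAverage_log_norm_of_ne_zero (g := NN q θ u) (c := 0) (R := 1) (by
      intro z _
      unfold NN
      fun_prop) (by
      intro z hz
      apply NN_ne q θ hq hθ hu
      simpa using hz)
  rw [Real.circleAverage_def, NN_zero q θ u hsum, norm_mul, norm_prod] at h
  simp only [Complex.norm_exp_ofReal_mul_I, Finset.prod_const_one, one_mul] at h
  rw [Complex.norm_real, Real.norm_of_nonneg (by positivity), Real.log_mul (by positivity) hn.ne'] at h
  have h2 : ∫ s in (0:ℝ)..(2 * Real.pi), Real.log ‖NN q θ u (circleMap 0 1 s)‖ =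
      ∫ s in (0:ℝ)..(2 * Real.pi),
        (FF (fun _ => 1) θ s + (Real.log n + Real.log (u ^ 2 + CC n q θ s ^ 2) / 2)) := by
    apply intervalIntegral.integral_congr_ae
    filter_upwards [ae_nonnode θ] with s hs _
    exact NN_log q θ hn hsum hu s hs
  rw [h2, intervalIntegral.integral_add (FF_int _ _ _ _)
    (intervalIntegrable_const.add ((logCCu_int n q θ u _ _).div_const 2)), FF_mean,
    intervalIntegral.integral_add intervalIntegrable_const ((logCCu_int n q θ u _ _).div_const 2),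
    intervalIntegral.integral_const, intervalIntegral.integral_div, smul_eq_mul, smul_eq_mul] at h
  have hp := Real.pi_pos
  field_simp at h
  linarith

theorem g_repr (t : ℝ) : ∫ u in (0:ℝ)..1, Real.log (u ^ 2 + t ^ 2) = 2 * g t - 2 := by
  rcases eq_or_ne t 0 with rfl | ht
  · have : ∀ u : ℝ, Real.log (u ^ 2 + 0 ^ 2) = 2 * Real.log u := by
      intro u
      rw [zero_pow two_ne_zero, add_zero, Real.log_pow]
      norm_num
    simp only [this]
    rw [intervalIntegral.integral_const_mul, integral_log]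
    simp [g]
  · have hp : 0 < |t| := abs_pos.2 ht
    have hd : ∀ u : ℝ, HasDerivAt (fun u => u * Real.log (u ^ 2 + t ^ 2) - 2 * u
        + 2 * |t| * Real.arctan (u / |t|)) (Real.log (u ^ 2 + t ^ 2)) u := by
      intro u
      have hpos : 0 < u ^ 2 + t ^ 2 := by positivity
      have h1 : HasDerivAt (fun u => Real.log (u ^ 2 + t ^ 2)) (2 * u / (u ^ 2 + t ^ 2)) u := by
        have := (((hasDerivAt_id u).pow 2).add_const (t ^ 2)).log hpos.ne'
        simpa using this
      have h2 := (hasDerivAt_id u).mul h1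
      have h3 := ((hasDerivAt_id u).const_mul 2)
      have h4 := (((hasDerivAt_id u).div_const |t|).arctan).const_mul (2 * |t|)
      refine ((h2.sub h3).add h4).congr_deriv ?_
      simp only [id]
      have e : 1 + (u / |t|) ^ 2 = (u ^ 2 + t ^ 2) / t ^ 2 := by
        rw [div_pow, sq_abs]
        field_simp
        ring
      rw [e]
      field_simp
      ring
    rw [intervalIntegral.integral_eq_sub_of_hasDerivAt (fun u _ => hd u)]
    · have e := Real.arctan_inv_of_pos hp
      simp only [g, one_pow, one_mul, zero_mul, zero_div, Real.arctan_zero, mul_zero, sub_zero,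
        add_zero, one_div]
      rw [e]
      ring
    · apply Continuous.intervalIntegrable
      apply Continuous.log
      · fun_prop
      · intro u
        positivity

theorem gCC_mean (q θ : ι → ℝ) (hq : ∀ j, 0 < q j) [Nonempty ι] {n : ℝ} (hn : 0 < n)
    (hsum : ∑ j, q j = n)
    (hθ : ∀ i j, i ≠ j → Real.sin ((θ i - θ j) / 2) ≠ 0) :
    ∫ s in (0:ℝ)..(2 * Real.pi), g (CC n q θ s) = 4 * Real.pi * Real.log 2 := by
  have hsw : ∫ s in (0:ℝ)..(2 * Real.pi), ∫ u in (0:ℝ)..1, Real.log (u ^ 2 + CC n q θ s ^ 2) =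
      ∫ u in (0:ℝ)..1, ∫ s in (0:ℝ)..(2 * Real.pi), Real.log (u ^ 2 + CC n q θ s ^ 2) := by
    apply intervalIntegral_intervalIntegral_swap
    rw [IntegrableOn, Measure.volume_eq_prod, ← Measure.prod_restrict]
    have hfin : ∀ a b : ℝ, IsFiniteMeasure ((volume : Measure ℝ).restrict (uIoc a b)) := fun a b =>
      ⟨by rw [Measure.restrict_apply_univ]; simp [uIoc]⟩
    have := hfin 0 (2 * Real.pi)
    have := hfin 0 1
    have b1 : Integrable (fun s => Real.log (1 + CC n q θ s ^ 2))
        (volume.restrict (uIoc 0 (2 * Real.pi))) :=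
      (logCC_int n q θ _ _).def'
    have b2 : Integrable (fun u : ℝ => -2 * Real.log u) (volume.restrict (uIoc 0 1)) :=
      (intervalIntegral.intervalIntegrable_log'.const_mul (-2)).def'
    have b3 := (b1.comp_fst (volume.restrict (uIoc 0 1))).add (b2.comp_snd
      (volume.restrict (uIoc 0 (2 * Real.pi))))
    refine b3.mono' ?_ ?_
    · apply Measurable.aestronglyMeasurable
      have := CC_meas n q θ
      unfold Function.uncurry
      fun_prop
    · rw [Measure.prod_restrict]
      rw [ae_restrict_iff' (measurableSet_uIoc.prod measurableSet_uIoc)]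
      filter_upwards with z hz
      obtain ⟨s, u⟩ := z
      obtain ⟨_, hu⟩ := hz
      rw [uIoc_of_le zero_le_one] at hu
      simp only [Function.uncurry, Pi.add_apply]
      simp only at hu
      have hu0 := hu.1
      have hu1 := hu.2
      have hlu : Real.log u ≤ 0 := Real.log_nonpos hu0.le hu1
      have hl1 : 0 ≤ Real.log (1 + CC n q θ s ^ 2) :=
        Real.log_nonneg (by nlinarith [sq_nonneg (CC n q θ s)])
      have hpos : 0 < u ^ 2 + CC n q θ s ^ 2 := by positivity
      rw [Real.norm_eq_abs, abs_le]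
      constructor
      · have : 2 * Real.log u ≤ Real.log (u ^ 2 + CC n q θ s ^ 2) := by
          have h2 : Real.log (u ^ 2) ≤ Real.log (u ^ 2 + CC n q θ s ^ 2) :=
            Real.log_le_log (by positivity) (by nlinarith [sq_nonneg (CC n q θ s)])
          rw [Real.log_pow] at h2
          exact_mod_cast h2
        linarith
      · have : Real.log (u ^ 2 + CC n q θ s ^ 2) ≤ Real.log (1 + CC n q θ s ^ 2) :=
          Real.log_le_log hpos (by nlinarith)
        linarith
  simp only [g_repr] at hsw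
  have hR : ∫ u in (0:ℝ)..1, ∫ s in (0:ℝ)..(2 * Real.pi), Real.log (u ^ 2 + CC n q θ s ^ 2) =
      ∫ u in (0:ℝ)..1, 4 * Real.pi * Real.log (1 + u) := by
    apply intervalIntegral.integral_congr_ae
    filter_upwards with u hu
    rw [uIoc_of_le zero_le_one] at hu
    exact jensen q θ hq hn hsum hθ hu.1
  rw [hR, intervalIntegral.integral_const_mul,
    intervalIntegral.integral_comp_add_left (fun x => Real.log x), integral_log,
    intervalIntegral.integral_sub ((gCC_int n q θ _ _).const_mul 2) intervalIntegrable_const,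
    intervalIntegral.integral_const_mul, intervalIntegral.integral_const, smul_eq_mul] at hsw
  norm_num at hsw
  linarith

end jensen

theorem FF_per (q θ : ι → ℝ) : Function.Periodic (FF q θ) (2 * Real.pi) := by
  intro s
  unfold FF
  refine Finset.sum_congr rfl fun j _ => ?_
  rw [show (s + 2 * Real.pi - θ j) / 2 = (s - θ j) / 2 + Real.pi by ring, Real.sin_add_pi, mul_neg,
    Real.log_neg_eq_log]

theorem CC_per (n : ℝ) (q θ : ι → ℝ) : Function.Periodic (CC n q θ) (2 * Real.pi) := by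
  intro s
  unfold CC
  congr 1
  refine Finset.sum_congr rfl fun j _ => ?_
  rw [show (s + 2 * Real.pi - θ j) / 2 = (s - θ j) / 2 + Real.pi by ring, Real.sin_add_pi,
    Real.cos_add_pi, neg_div_neg_eq]

/-- **the inequality for sorted distinct nodes, weights summing to the number of nodes** -/
theorem sorted_bound {m : ℕ} (q θ : Fin (m + 1) → ℝ) (hq : ∀ j, 0 < q j)
    (hsum : ∑ j, q j = (m : ℝ) + 1)
    (hθ : StrictMono θ) (hlt : θ (Fin.last m) < θ 0 + 2 * Real.pi) {M : ℝ}
    (hM : ∀ s, (∀ j, Real.sin ((s - θ j) / 2) ≠ 0) → FF q θ s ≤ M) : Real.log 2 ≤ M := by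
  have h := sorted q θ hq hθ hlt hM
  have hn : (0:ℝ) < (m : ℝ) + 1 := by positivity
  have hper : Function.Periodic (fun s => FF q θ s + g (CC ((m : ℝ) + 1) q θ s)) (2 * Real.pi) := by
    intro s
    simp only [FF_per q θ s, CC_per _ q θ s]
  have e := hper.intervalIntegral_add_eq (θ 0) 0
  rw [e, zero_add, intervalIntegral.integral_add (FF_int q θ _ _) (gCC_int _ q θ _ _), FF_mean,
    gCC_mean q θ hq hn hsum, zero_add] at h
  · have := Real.pi_pos
    nlinarith
  · intro i j hij hs
    have hr : ∀ j, θ 0 ≤ θ j ∧ θ j < θ 0 + 2 * Real.pi := fun j =>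
      ⟨hθ.monotone (Fin.zero_le j), (hθ.monotone (Fin.le_last j)).trans_lt hlt⟩
    rw [Real.sin_eq_zero_iff_of_lt_of_lt (by linarith [(hr i).1, (hr j).2])
      (by linarith [(hr i).2, (hr j).1])] at hs
    exact hij (hθ.injective (by linarith))



theorem exists_ge (r : ℕ) (hr : 1 ≤ r) (z : Fin r → ℂ) (hz : ∀ j, ‖z j‖ = 1) (p : Fin r → ℝ)
    (hp : ∀ j, 0 ≤ p j) (hsum : ∑ j, p j = r) :
    ∃ w : ℂ, ‖w‖ = 1 ∧ 2 ≤ ∏ j, ‖w - z j‖ ^ p j := by
  classical
  have hr0 : (0:ℝ) < r := by exact_mod_cast hr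
  -- the maximum is attained
  have hcont : Continuous (fun w : ℂ => ∏ j, ‖w - z j‖ ^ p j) := by
    refine continuous_finsetProd _ fun j _ => ?_
    exact Continuous.rpow_const (by fun_prop) (fun w => Or.inr (hp j))
  obtain ⟨w0, hw0, hmax⟩ := (isCompact_sphere (0:ℂ) 1).exists_isMaxOn
    ⟨1, by simp⟩ hcont.continuousOn
  refine ⟨w0, by simpa using hw0, ?_⟩
  by_contra hlt2
  push Not at hlt2
  set S : Finset (Fin r) := Finset.univ.filter (fun j => 0 < p j) with hS
  set B : Finset ℝ := S.image (fun j => (z j).arg) with hB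
  have hSsum : ∀ f : Fin r → ℝ, ∑ j, p j * f j = ∑ j ∈ S, p j * f j := by
    intro f
    rw [hS, Finset.sum_filter]
    refine Finset.sum_congr rfl fun j _ => ?_
    split_ifs with h
    · rfl
    · have : p j = 0 := le_antisymm (not_lt.1 h) (hp j)
      rw [this, zero_mul]
  have hSne : S.Nonempty := by
    rw [Finset.nonempty_iff_ne_empty]
    intro h
    have := hSsum (fun _ => 1)
    rw [h] at this
    simp only [mul_one, Finset.sum_empty] at this
    rw [hsum] at this
    linarith
  have hBne : B.Nonempty := hSne.image _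
  obtain ⟨m, hm⟩ : ∃ m, B.card = m + 1 := ⟨B.card - 1, by have := hBne.card_pos; omega⟩
  have hmr : m + 1 ≤ r := by
    rw [← hm]
    calc B.card ≤ S.card := Finset.card_image_le
      _ ≤ (Finset.univ : Finset (Fin r)).card := Finset.card_filter_le _ _
      _ = r := by simp
  set θ := B.orderEmbOfFin hm with hθ
  have hθmem : ∀ k, θ k ∈ B := fun k => Finset.orderEmbOfFin_mem B hm k
  set Q : ℝ → ℝ := fun b => ∑ j ∈ S with (z j).arg = b, p j with hQ
  have hQpos : ∀ k, 0 < Q (θ k) := by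
    intro k
    apply Finset.sum_pos
    · intro j hj
      have := (Finset.mem_filter.1 hj).1
      exact (Finset.mem_filter.1 this).2
    · obtain ⟨j, hj, hj2⟩ := Finset.mem_image.1 (hθmem k)
      exact ⟨j, Finset.mem_filter.2 ⟨hj, hj2⟩⟩
  have hreg : ∀ h : ℝ → ℝ, ∑ k, Q (θ k) * h (θ k) = ∑ j, p j * h (z j).arg := by
    intro h
    have e1 : ∑ k, Q (θ k) * h (θ k) = ∑ b ∈ B, Q b * h b := by
      rw [← Finset.image_orderEmbOfFin_univ B hm, Finset.sum_image (fun a _ b _ hab => θ.injective hab)]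
    rw [e1, hSsum (fun j => h (z j).arg)]
    rw [← Finset.sum_fiberwise_of_maps_to (s := S) (t := B) (g := fun j => (z j).arg)
      (fun j hj => Finset.mem_image_of_mem _ hj)]
    refine Finset.sum_congr rfl fun b _ => ?_
    rw [hQ, Finset.sum_mul]
    refine Finset.sum_congr rfl fun j hj => ?_
    rw [(Finset.mem_filter.1 hj).2]
  have hQsum : ∑ k, Q (θ k) = r := by
    have := hreg (fun _ => 1)
    simpa [hsum] using this
  set c : ℝ := ((m : ℝ) + 1) / r with hc
  have hcpos : 0 < c := by positivity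
  have hc1 : c ≤ 1 := by
    rw [hc, div_le_one hr0]
    exact_mod_cast hmr
  have hzexp : ∀ j, z j = Complex.exp ((z j).arg * Complex.I) := by
    intro j
    have := Complex.norm_mul_exp_arg_mul_I (z j)
    rw [hz j, Complex.ofReal_one, one_mul] at this
    exact this.symm
  have hM : ∀ s, (∀ k, Real.sin ((s - θ k) / 2) ≠ 0) →
      FF (fun k => c * Q (θ k)) θ s ≤ c * Real.log (∏ j, ‖w0 - z j‖ ^ p j) := by
    intro s hs
    have hw : ∀ j, ‖Complex.exp (s * Complex.I) - z j‖ = |2 * Real.sin ((s - (z j).arg) / 2)| := by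
      intro j
      conv_lhs => rw [hzexp j]
      exact norm_pair _ _
    have hnz : ∀ j, 0 < p j → 0 < ‖Complex.exp (s * Complex.I) - z j‖ := by
      intro j hj
      rw [hw j, abs_pos]
      apply mul_ne_zero two_ne_zero
      have hmem : (z j).arg ∈ B := Finset.mem_image_of_mem _ (Finset.mem_filter.2 ⟨Finset.mem_univ _, hj⟩)
      rw [← Finset.image_orderEmbOfFin_univ B hm] at hmem
      obtain ⟨k, _, hk⟩ := Finset.mem_image.1 hmem
      rw [← hk]
      exact hs k
    have hpos : ∀ j, 0 < ‖Complex.exp (s * Complex.I) - z j‖ ^ p j := by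
      intro j
      rcases (hp j).eq_or_lt with h | h
      · rw [← h, Real.rpow_zero]; exact one_pos
      · exact Real.rpow_pos_of_pos (hnz j h) _
    have e1 : FF (fun k => c * Q (θ k)) θ s =
        c * Real.log (∏ j, ‖Complex.exp (s * Complex.I) - z j‖ ^ p j) := by
      rw [Real.log_prod (fun j _ => (hpos j).ne')]
      have e2 : ∀ j, Real.log (‖Complex.exp (s * Complex.I) - z j‖ ^ p j) =
          p j * Real.log (2 * Real.sin ((s - (z j).arg) / 2)) := by
        intro j
        rcases (hp j).eq_or_lt with h | h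
        · rw [← h]; simp
        · rw [Real.log_rpow (hnz j h), hw j, Real.log_abs]
      simp only [e2]
      rw [← hreg (fun a => Real.log (2 * Real.sin ((s - a) / 2))), Finset.mul_sum]
      unfold FF
      refine Finset.sum_congr rfl fun k _ => ?_
      ring
    rw [e1]
    apply mul_le_mul_of_nonneg_left _ hcpos.le
    apply Real.log_le_log (Finset.prod_pos fun j _ => hpos j)
    exact hmax (by simp [Complex.norm_exp_ofReal_mul_I])
  have hqsum : ∑ k, c * Q (θ k) = (m : ℝ) + 1 := by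
    rw [← Finset.mul_sum, hQsum, hc]
    field_simp
  have hlt : θ (Fin.last m) < θ 0 + 2 * Real.pi := by
    obtain ⟨j, _, hj⟩ := Finset.mem_image.1 (hθmem (Fin.last m))
    obtain ⟨i, _, hi⟩ := Finset.mem_image.1 (hθmem 0)
    rw [← hj, ← hi]
    have h1 := Complex.arg_le_pi (z j)
    have h2 := Complex.neg_pi_lt_arg (z i)
    linarith
  have hfin := sorted_bound (fun k => c * Q (θ k)) θ (fun k => mul_pos hcpos (hQpos k)) hqsum
    θ.strictMono hlt hM
  have hl2 : 0 < Real.log 2 := Real.log_pos one_lt_two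
  have hMpos : 0 < Real.log (∏ j, ‖w0 - z j‖ ^ p j) := by
    by_contra hcon
    push Not at hcon
    have : c * Real.log (∏ j, ‖w0 - z j‖ ^ p j) ≤ 0 := mul_nonpos_of_nonneg_of_nonpos hcpos.le hcon
    linarith
  have h3 : Real.log 2 ≤ Real.log (∏ j, ‖w0 - z j‖ ^ p j) := by nlinarith
  have hP0 : 0 < ∏ j, ‖w0 - z j‖ ^ p j := by
    rcases (Finset.prod_nonneg (s := Finset.univ) fun j _ =>
      Real.rpow_nonneg (norm_nonneg (w0 - z j)) (p j)).eq_or_lt with h | h
    · rw [← h, Real.log_zero] at hMpos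
      exact absurd hMpos (lt_irrefl _)
    · exact h
  have h4 := Real.log_lt_log hP0 hlt2
  linarith

end Pool.Agent.X38.WP
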